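import Pool.Agent.H583R2.S2.Defs
import Pool.Agent.H583R2.NC.NumA

/-!
# Task S4: the probability that a slot is zero
-/

namespace Pool.Agent.H583R2.S2

open MeasureTheory Pool.Agent.NPC Pool.Agent.H628R3.RO
open Pool.Agent.H583R2.NC (wl rr qq mm uu vv JJ KK BB Data ap ee ll)

/-! ### the number of strings in use -/

theorem Num_kk_pos (n : ℕ) : 0 < kk n := by
  unfold kk
  positivity

theorem Num_pow_le_exp (k n : ℕ) (hk : 0 < k) :
    (((k : ℝ) + 1) / k) ^ (k * n) ≤ Real.exp n := by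
  have hk' : (0 : ℝ) < k := by exact_mod_cast hk
  have h1 : ((k : ℝ) + 1) / k ≤ Real.exp (1 / k) := by
    have h := Real.add_one_le_exp (1 / (k : ℝ))
    have e : ((k : ℝ) + 1) / k = 1 / k + 1 := by
      field_simp
      ring
    rw [e]
    exact h
  calc (((k : ℝ) + 1) / k) ^ (k * n) ≤ (Real.exp (1 / k)) ^ (k * n) :=
        pow_le_pow_left₀ (by positivity) h1 _
    _ = Real.exp n := by
        rw [← Real.exp_nat_mul]
        congr 1
        push_cast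
        field_simp

theorem Num_le_pow (k n : ℕ) (hk : 0 < k) :
    Real.exp n * (1 - (n : ℝ) / k) ≤ (((k : ℝ) + 1) / k) ^ (k * n) := by
  have hk' : (0 : ℝ) < k := by exact_mod_cast hk
  have h1 : Real.exp 1 * (1 - 1 / k) ≤ (((k : ℝ) + 1) / k) ^ k := by
    -- `(1 + 1/k)^(k+1) ≥ e`
    have h2 : Real.exp 1 ≤ (((k : ℝ) + 1) / k) ^ (k + 1) := by
      have hpos : (0 : ℝ) < ((k : ℝ) + 1) / k := by positivity
      rw [← Real.exp_log (pow_pos hpos (k + 1)), Real.log_pow]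
      refine Real.exp_le_exp.2 ?_
      have h3 := Real.one_sub_inv_le_log_of_pos hpos
      have h4 : (((k + 1 : ℕ)) : ℝ) * (1 - (((k : ℝ) + 1) / k)⁻¹) = 1 := by
        push_cast
        field_simp
        ring
      calc (1 : ℝ) = (((k + 1 : ℕ)) : ℝ) * (1 - (((k : ℝ) + 1) / k)⁻¹) := h4.symm
        _ ≤ _ := mul_le_mul_of_nonneg_left h3 (Nat.cast_nonneg _)
    have h5 : (1 - 1 / (k : ℝ)) * (((k : ℝ) + 1) / k) ≤ 1 := by
      have e : (1 - 1 / (k : ℝ)) * (((k : ℝ) + 1) / k) = 1 - 1 / (k : ℝ) ^ 2 := by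
        field_simp
        ring
      rw [e]
      have : (0 : ℝ) ≤ 1 / (k : ℝ) ^ 2 := by positivity
      linarith
    have hk1 : (1 : ℝ) ≤ k := by exact_mod_cast hk
    have h6 : (0 : ℝ) ≤ 1 - 1 / k := by
      have : 1 / (k : ℝ) ≤ 1 := by
        rw [div_le_one hk']
        exact hk1
      linarith
    calc Real.exp 1 * (1 - 1 / k) ≤ (((k : ℝ) + 1) / k) ^ (k + 1) * (1 - 1 / k) :=
          mul_le_mul_of_nonneg_right h2 h6
      _ = (((k : ℝ) + 1) / k) ^ k * ((1 - 1 / (k : ℝ)) * (((k : ℝ) + 1) / k)) := by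
          rw [pow_succ]
          ring
      _ ≤ (((k : ℝ) + 1) / k) ^ k * 1 := mul_le_mul_of_nonneg_left h5 (by positivity)
      _ = _ := mul_one _
  have hk1 : (1 : ℝ) ≤ k := by exact_mod_cast hk
  have h7 : (0 : ℝ) ≤ 1 - 1 / k := by
    have : 1 / (k : ℝ) ≤ 1 := by
      rw [div_le_one hk']
      exact hk1
    linarith
  have h8 : 1 - (n : ℝ) / k ≤ (1 - 1 / (k : ℝ)) ^ n := by
    have h9 := one_add_mul_le_pow (a := -(1 / (k : ℝ))) (by linarith) n
    calc 1 - (n : ℝ) / k = 1 + (n : ℝ) * -(1 / k) := by ring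
      _ ≤ (1 + -(1 / (k : ℝ))) ^ n := h9
      _ = (1 - 1 / (k : ℝ)) ^ n := by rw [← sub_eq_add_neg]
  calc Real.exp n * (1 - (n : ℝ) / k) ≤ Real.exp n * (1 - 1 / (k : ℝ)) ^ n :=
        mul_le_mul_of_nonneg_left h8 (Real.exp_pos _).le
    _ = (Real.exp 1 * (1 - 1 / k)) ^ n := by
        rw [mul_pow, ← Real.exp_nat_mul, mul_one]
    _ ≤ ((((k : ℝ) + 1) / k) ^ k) ^ n := by
        refine pow_le_pow_left₀ (mul_nonneg (Real.exp_pos _).le h7) h1 _
    _ = _ := by rw [← pow_mul]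

theorem Num_NN_le (n : ℕ) : (NN n : ℝ) ≤ Real.exp n := by
  have h1 : (NN n : ℝ) ≤ (((kk n : ℝ) + 1) / kk n) ^ (kk n * n) := by
    unfold NN
    refine Nat.cast_div_le.trans ?_
    rw [div_pow]
    push_cast
    exact le_rfl
  exact h1.trans (Num_pow_le_exp (kk n) n (Num_kk_pos n))

theorem Num_NN_ge (n : ℕ) : Real.exp n * (1 - (n : ℝ) / kk n) - 1 ≤ (NN n : ℝ) := by
  have hk := Num_kk_pos n
  have h1 := Num_le_pow (kk n) n hk
  have h2 : (((kk n : ℝ) + 1) / kk n) ^ (kk n * n) ≤ (NN n : ℝ) + 1 := by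
    rw [div_pow, div_le_iff₀ (by positivity)]
    have h3 := Nat.lt_mul_div_succ ((kk n + 1) ^ (kk n * n)) (pow_pos hk (kk n * n))
    have h4 : ((kk n + 1) ^ (kk n * n) : ℕ) ≤ (NN n + 1) * kk n ^ (kk n * n) := by
      rw [mul_comm (NN n + 1)]
      exact h3.le
    exact_mod_cast h4
  linarith

theorem NN_lt (n : ℕ) : NN n ≤ 4 ^ n := by
  have h1 := Num_NN_le n
  have h2 : Real.exp n ≤ 4 ^ n := by
    have h3 : Real.exp n = (Real.exp 1) ^ n := by
      rw [← Real.exp_nat_mul, mul_one]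
    rw [h3]
    refine pow_le_pow_left₀ (Real.exp_pos _).le ?_ _
    have := Real.exp_one_lt_d9
    linarith
  exact_mod_cast h1.trans h2

theorem Num_valB_inj : ∀ l l' : List Bool, l.length = l'.length → valB l = valB l' → l = l'
  | [], [], _, _ => rfl
  | [], b :: l', h, _ => by simp at h
  | b :: l, [], h, _ => by simp at h
  | b :: l, b' :: l', h, hv => by
    rw [valB_cons, valB_cons] at hv
    have h1 : l.length = l'.length := by simpa using h
    have h2 : b = b' ∧ valB l = valB l' := by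
      cases b <;> cases b' <;> simp at hv ⊢ <;> omega
    rw [h2.1, Num_valB_inj l l' h1 h2.2]

theorem Num_valB_surj : ∀ (L v : ℕ), v < 2 ^ L → ∃ l : List Bool, l.length = L ∧ valB l = v
  | 0, v, h => ⟨[], rfl, by
      have : v = 0 := by simpa using h
      rw [this]
      rfl⟩
  | L + 1, v, h => by
    obtain ⟨l, h1, h2⟩ := Num_valB_surj L (v / 2) (by
      rw [pow_succ] at h
      omega)
    refine ⟨decide (v % 2 = 1) :: l, by simp [h1], ?_⟩
    rw [valB_cons, h2]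
    by_cases hv : v % 2 = 1
    · simp only [hv, decide_true, if_true]
      omega
    · simp only [hv, decide_false, Bool.false_eq_true, if_false]
      omega

theorem card_Ys (n : ℕ) : (Ys n).card = NN n := by
  classical
  have h1 : ∀ y, y ∈ Ys n ↔ y.length = 2 * n ∧ valB y < NN n := by
    intro y
    unfold Ys
    rw [Finset.mem_filter, Finset.mem_image]
    constructor
    · rintro ⟨⟨v, _, rfl⟩, h⟩
      exact ⟨by simp, h⟩
    · rintro ⟨h, h'⟩
      refine ⟨⟨fun i => y.get (i.cast h.symm), Finset.mem_univ _, ?_⟩, h'⟩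
      refine List.ext_get (by simp [h]) ?_
      intro i hi hi'
      simp
  have h2 : (Ys n).image valB = Finset.range (NN n) := by
    ext v
    rw [Finset.mem_image, Finset.mem_range]
    constructor
    · rintro ⟨y, hy, rfl⟩
      exact ((h1 y).1 hy).2
    · intro hv
      have h3 : v < 2 ^ (2 * n) := by
        rw [pow_mul]
        exact lt_of_lt_of_le hv (NN_lt n)
      obtain ⟨l, hl1, hl2⟩ := Num_valB_surj (2 * n) v h3
      exact ⟨l, (h1 l).2 ⟨hl1, by rw [hl2]; exact hv⟩, hl2⟩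
  rw [← Finset.card_range (NN n), ← h2, Finset.card_image_of_injOn]
  intro y hy y' hy' hh
  have hy1 := (h1 y).1 hy
  have hy2 := (h1 y').1 hy'
  exact Num_valB_inj y y' (by rw [hy1.1, hy2.1]) hh

/-! ### the probability that a pair is marked -/

theorem Num_half_lt {m : ℕ} (hm : 1 ≤ m) : (1 / 2 : ℝ) ^ m ≤ 1 / 2 := NC.NumA_half_lt hm

theorem dl_pos (n : ℕ) : 0 < dl n := by
  unfold dl
  have h := Num_half_lt (m := wl n) (by unfold wl; omega)
  exact pow_pos (by linarith) _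

theorem Num_dl_le_exp (n : ℕ) : dl n ≤ Real.exp (-(n : ℝ)) := by
  unfold dl
  rw [mul_comm, pow_mul]
  have h1 : (1 - (1 / 2 : ℝ) ^ wl n) ^ (2 ^ wl n) ≤ Real.exp (-1) := by
    have hle : (1 / 2 : ℝ) ^ wl n ≤ 1 := pow_le_one₀ (by norm_num) (by norm_num)
    have h2 := Real.one_sub_le_exp_neg ((1 / 2 : ℝ) ^ wl n)
    calc (1 - (1 / 2 : ℝ) ^ wl n) ^ (2 ^ wl n) ≤ (Real.exp (-(1 / 2 : ℝ) ^ wl n)) ^ (2 ^ wl n) :=
          pow_le_pow_left₀ (by linarith) h2 _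
      _ = Real.exp (-1) := by
          rw [← Real.exp_nat_mul]
          congr 1
          push_cast
          have h4 : (2 : ℝ) ^ wl n * (1 / 2) ^ wl n = 1 := by
            rw [← mul_pow]
            norm_num
          linear_combination -h4
  have hle : (1 / 2 : ℝ) ^ wl n ≤ 1 := pow_le_one₀ (by norm_num) (by norm_num)
  calc ((1 - (1 / 2 : ℝ) ^ wl n) ^ (2 ^ wl n)) ^ n ≤ (Real.exp (-1)) ^ n :=
        pow_le_pow_left₀ (pow_nonneg (by linarith) _) h1 _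
    _ = Real.exp (-(n : ℝ)) := by
        rw [← Real.exp_nat_mul]
        congr 1
        ring

theorem dl_le (n : ℕ) : dl n ≤ (1 / 2 : ℝ) ^ n := by
  refine (Num_dl_le_exp n).trans ?_
  have h3 : Real.exp (-(n : ℝ)) = (Real.exp (-1)) ^ n := by
    rw [← Real.exp_nat_mul]
    congr 1
    ring
  rw [h3]
  refine pow_le_pow_left₀ (Real.exp_pos _).le ?_ _
  have := Real.exp_neg_one_lt_d9
  linarith

theorem Num_dl_ge (n : ℕ) : Real.exp (-(n : ℝ)) * (1 - n / 2 ^ wl n) ≤ dl n := by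
  have hm : 1 ≤ wl n := by unfold wl; omega
  have hE := NC.NumA_exp hm
  have hx := Num_half_lt hm
  have h1 : dl n = ((1 - (1 / 2 : ℝ) ^ wl n) ^ (2 ^ wl n - 1)) ^ n * (1 - (1 / 2 : ℝ) ^ wl n) ^ n := by
    unfold dl
    rw [← pow_mul, ← pow_add]
    congr 1
    have h2 : 1 ≤ 2 ^ wl n := Nat.one_le_two_pow
    obtain ⟨M', hM'⟩ : ∃ M', 2 ^ wl n = M' + 1 := ⟨2 ^ wl n - 1, by omega⟩
    rw [hM', Nat.add_sub_cancel]
    ring
  have h3 : Real.exp (-(n : ℝ)) ≤ ((1 - (1 / 2 : ℝ) ^ wl n) ^ (2 ^ wl n - 1)) ^ n := by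
    calc Real.exp (-(n : ℝ)) = (Real.exp (-1)) ^ n := by
          rw [← Real.exp_nat_mul]
          congr 1
          ring
      _ ≤ _ := pow_le_pow_left₀ (Real.exp_pos _).le hE n
  have h4 : 1 - (n : ℝ) / 2 ^ wl n ≤ (1 - (1 / 2 : ℝ) ^ wl n) ^ n := by
    have h7 := one_add_mul_le_pow (a := -((1 / 2 : ℝ) ^ wl n)) (by linarith) n
    calc 1 - (n : ℝ) / 2 ^ wl n = 1 + (n : ℝ) * -((1 / 2) ^ wl n) := by
          rw [one_div, inv_pow]
          ring
      _ ≤ (1 + -((1 / 2 : ℝ) ^ wl n)) ^ n := h7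
      _ = _ := by rw [← sub_eq_add_neg]
  rw [h1]
  calc Real.exp (-(n : ℝ)) * (1 - n / 2 ^ wl n) ≤ Real.exp (-(n : ℝ)) * (1 - (1 / 2 : ℝ) ^ wl n) ^ n :=
        mul_le_mul_of_nonneg_left h4 (Real.exp_pos _).le
    _ ≤ _ := mul_le_mul_of_nonneg_right h3 (pow_nonneg (by linarith) _)

/-! ### numbers -/

theorem Num_exp_ge : ∀ {n : ℕ}, 12 ≤ n → 1100 * (n : ℝ) ^ 2 ≤ Real.exp n := by
  intro n hn
  induction n, hn using Nat.le_induction with
  | base =>
    have h1 : Real.exp ((12 : ℕ) : ℝ) = (Real.exp 1) ^ 12 := by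
      rw [← Real.exp_nat_mul, mul_one]
    rw [h1]
    have h2 := Real.exp_one_gt_d9
    calc 1100 * ((12 : ℕ) : ℝ) ^ 2 ≤ (2.7182818283 : ℝ) ^ 12 := by norm_num
      _ ≤ (Real.exp 1) ^ 12 := pow_le_pow_left₀ (by norm_num) h2.le _
  | succ k hk ih =>
    have hk' : (12 : ℝ) ≤ k := by exact_mod_cast hk
    push_cast
    rw [Real.exp_add]
    have h2 := Real.exp_one_gt_d9
    have h3 : (2 : ℝ) ≤ Real.exp 1 := by linarith
    have h4 := Real.exp_pos (k : ℝ)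
    calc 1100 * ((k : ℝ) + 1) ^ 2 ≤ 1100 * (k : ℝ) ^ 2 * 2 := by nlinarith
      _ ≤ Real.exp k * 2 := by linarith
      _ ≤ Real.exp k * Real.exp 1 := by nlinarith

theorem Num_four {n : ℕ} (hn : 12 ≤ n) : 100 * n ^ 3 ≤ 4 ^ n := by
  induction n, hn using Nat.le_induction with
  | base => norm_num
  | succ k hk ih =>
    rw [pow_succ 4 k]
    have h1 : (k + 1) ^ 3 ≤ 4 * k ^ 3 := by nlinarith [hk, mul_self_nonneg k, sq_nonneg (k : ℤ)]
    omega

/-- the main estimate -/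
theorem Num_eps {n : ℕ} (hn : 12 ≤ n) : 1 - 1 / (512 * (n : ℝ) ^ 2) ≤ NN n * dl n := by
  have hn' : (12 : ℝ) ≤ n := by exact_mod_cast hn
  have hn0 : (0 : ℝ) < n := by linarith
  have h1 := Num_NN_ge n
  have h2 := Num_dl_ge n
  obtain ⟨E, hE⟩ : ∃ E : ℝ, E = Real.exp (-(n : ℝ)) := ⟨_, rfl⟩
  have hE0 : 0 < E := by rw [hE]; exact Real.exp_pos _
  have hEE : Real.exp n * E = 1 := by
    rw [hE, ← Real.exp_add]
    simp
  obtain ⟨a, ha⟩ : ∃ a : ℝ, a = (n : ℝ) / kk n := ⟨_, rfl⟩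
  obtain ⟨b, hb⟩ : ∃ b : ℝ, b = (n : ℝ) / 2 ^ wl n := ⟨_, rfl⟩
  rw [← ha] at h1
  rw [← hb, ← hE] at h2
  have ha0 : 0 ≤ a := by rw [ha]; positivity
  have hb0 : 0 ≤ b := by rw [hb]; positivity
  have ha1 : a * (1024 * (n : ℝ) ^ 2) ≤ 1 := by
    rw [ha]
    unfold kk
    push_cast
    rw [div_mul_eq_mul_div, div_le_one (by positivity)]
    nlinarith [sq_nonneg (n : ℝ), hn0]
  have hb1 : b * (512 * (n : ℝ) ^ 2) ≤ 1 / 50 := by
    rw [hb]
    have e1 : (2 : ℝ) ^ wl n = 256 * 4 ^ n := by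
      unfold wl
      rw [pow_add, pow_mul]
      norm_num
      ring
    rw [e1, div_mul_eq_mul_div, div_le_iff₀ (by positivity)]
    have h4 : (100 : ℝ) * (n : ℝ) ^ 3 ≤ 4 ^ n := by exact_mod_cast Num_four hn
    nlinarith
  have hc1 : E * (512 * (n : ℝ) ^ 2) ≤ 512 / 1100 := by
    have h5 := Num_exp_ge hn
    have h6 : 1100 * (n : ℝ) ^ 2 * E ≤ 1 := by
      calc 1100 * (n : ℝ) ^ 2 * E ≤ Real.exp n * E := mul_le_mul_of_nonneg_right h5 hE0.le
        _ = 1 := hEE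
    linarith
  have hD : (0 : ℝ) < 512 * (n : ℝ) ^ 2 := by positivity
  have hb2 : b ≤ 1 := by
    have h7 : (1 : ℝ) ≤ 512 * (n : ℝ) ^ 2 := by nlinarith
    nlinarith
  have ha2 : a ≤ 1 := by
    have h7 : (1 : ℝ) ≤ 1024 * (n : ℝ) ^ 2 := by nlinarith
    nlinarith
  have hdp := dl_pos n
  -- main inequality
  have h8 : (Real.exp n * (1 - a) - 1) * (E * (1 - b)) ≤ NN n * dl n := by
    rcases le_or_gt 0 (Real.exp n * (1 - a) - 1) with hpos | hneg
    · exact mul_le_mul h1 h2 (mul_nonneg hE0.le (by linarith)) (Nat.cast_nonneg _)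
    · have h9 : (Real.exp n * (1 - a) - 1) * (E * (1 - b)) ≤ 0 :=
        mul_nonpos_of_nonpos_of_nonneg hneg.le (mul_nonneg hE0.le (by linarith))
      exact h9.trans (mul_nonneg (Nat.cast_nonneg _) hdp.le)
  have h10 : (Real.exp n * (1 - a) - 1) * (E * (1 - b)) = (1 - a) * (1 - b) - E * (1 - b) := by
    linear_combination (1 - a) * (1 - b) * hEE
  have h11 : 1 - (a + b + E) ≤ (1 - a) * (1 - b) - E * (1 - b) := by nlinarith
  have h12 : a + b + E ≤ 1 / (512 * (n : ℝ) ^ 2) := by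
    rw [le_div_iff₀ hD]
    nlinarith
  linarith

theorem Num_NNdl_le (n : ℕ) : NN n * dl n ≤ 1 := by
  calc NN n * dl n ≤ Real.exp n * Real.exp (-(n : ℝ)) :=
        mul_le_mul (Num_NN_le n) (Num_dl_le_exp n) (dl_pos n).le (Real.exp_pos _).le
    _ = 1 := by
        rw [← Real.exp_add]
        simp

theorem Num_mm {n s : ℕ} (hn : 12 ≤ n) (h : s ≤ n) : (2 : ℝ) ^ mm s ≤ 256 * (n : ℝ) ^ 2 := by
  have hn' : (12 : ℝ) ≤ n := by exact_mod_cast hn
  have e1 : (2 : ℝ) ^ mm s = 64 * ((2 : ℝ) ^ qq s) ^ 2 := by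
    unfold mm
    rw [pow_add, mul_comm 2 (qq s), pow_mul]
    norm_num
    ring
  rw [e1]
  have h1 : (2 : ℝ) ^ qq s ≤ 2 * n := by
    rcases Nat.eq_zero_or_pos s with hs | hs
    · subst hs
      have : qq 0 = 0 := by simp [qq, rr]
      rw [this, pow_zero]
      linarith
    · have h2 := NC.pow_qq_le hs
      have h3 : rr s ≤ s := NC.NumA_size_le s
      have h4 : 2 ^ qq s ≤ 2 * n := by omega
      exact_mod_cast h4
  have h5 : (0 : ℝ) ≤ (2 : ℝ) ^ qq s := by positivity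
  nlinarith

theorem Num_dl_half (n : ℕ) (hn : 12 ≤ n) : 4 * (256 * (n : ℝ) ^ 2) * dl n ≤ 1 := by
  have h1 := Num_exp_ge hn
  have h2 := Num_dl_le_exp n
  have h3 : Real.exp n * Real.exp (-(n : ℝ)) = 1 := by
    rw [← Real.exp_add]
    simp
  have h4 := dl_pos n
  have h5 := Real.exp_pos (-(n : ℝ))
  have h6 : 4 * (256 * (n : ℝ) ^ 2) ≤ Real.exp n := by nlinarith [sq_nonneg (n : ℝ)]
  calc 4 * (256 * (n : ℝ) ^ 2) * dl n ≤ Real.exp n * Real.exp (-(n : ℝ)) :=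
        mul_le_mul h6 h2 h4.le (Real.exp_pos _).le
    _ = 1 := h3

theorem Num_log {x : ℝ} (h0 : 0 ≤ x) (h1 : x < 1) : 1 - x ≤ Real.exp (-x - x ^ 2 / 2) := by
  have h2 := Real.hasSum_pow_div_log_of_abs_lt_one (x := x) (by rw [abs_of_nonneg h0]; exact h1)
  have h3 := sum_le_hasSum (Finset.range 2) (fun i _ => by positivity) h2
  simp only [Finset.sum_range_succ, Finset.sum_range_zero] at h3
  norm_num at h3
  have h4 : (0 : ℝ) < 1 - x := by linarith
  calc 1 - x = Real.exp (Real.log (1 - x)) := (Real.exp_log h4).symm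
    _ ≤ _ := Real.exp_le_exp.2 (by linarith)

theorem Num_dl_le_half {n : ℕ} (hn : 12 ≤ n) : dl n ≤ 1 / 2 := by
  refine (dl_le n).trans (Num_half_lt (by omega))

theorem ap_le_za {n s : ℕ} (hn : 12 ≤ n) (h : s ≤ n) : ap s ≤ za n s := by
  have hn' : (12 : ℝ) ≤ n := by exact_mod_cast hn
  unfold NC.ap za
  rw [mul_comm (qq s) (2 ^ mm s), mul_comm (qq s) (NN n), pow_mul, pow_mul]
  have hm1 : 1 ≤ mm s := by unfold mm; omega
  have hx := Num_half_lt hm1
  obtain ⟨M, hM⟩ : ∃ M : ℝ, M = (2 : ℝ) ^ mm s := ⟨_, rfl⟩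
  have hM0 : 0 < M := by rw [hM]; positivity
  have hxM : (1 / 2 : ℝ) ^ mm s = 1 / M := by
    rw [hM, one_div, one_div, inv_pow]
  have hMn : M ≤ 256 * (n : ℝ) ^ 2 := by rw [hM]; exact Num_mm hn h
  have hx0 : (0 : ℝ) < 1 / M := by positivity
  rw [hxM] at hx ⊢
  refine pow_le_pow_left₀ (pow_nonneg (by linarith) _) ?_ _
  -- left side
  have hL : (1 - 1 / M) ^ (2 ^ mm s) ≤ Real.exp (-1 - 1 / (2 * M)) := by
    have h1 : 1 - 1 / M ≤ Real.exp (-(1 / M) - (1 / M) ^ 2 / 2) :=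
      Num_log hx0.le (by linarith)
    calc (1 - 1 / M) ^ (2 ^ mm s) ≤ (Real.exp (-(1 / M) - (1 / M) ^ 2 / 2)) ^ (2 ^ mm s) :=
          pow_le_pow_left₀ (by linarith) h1 _
      _ = Real.exp (-1 - 1 / (2 * M)) := by
          rw [← Real.exp_nat_mul]
          congr 1
          push_cast
          rw [← hM]
          field_simp
  -- right side
  have hd0 := dl_pos n
  have hd1 := Num_dl_le_half hn
  have hd2 := Num_dl_half n hn
  have hNd := Num_NNdl_le n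
  have h4 : 4 * M * dl n ≤ 1 := by
    have : 4 * M * dl n ≤ 4 * (256 * (n : ℝ) ^ 2) * dl n :=
      mul_le_mul_of_nonneg_right (by linarith) hd0.le
    linarith
  have hR : Real.exp (-1 - 1 / (2 * M)) ≤ (1 - dl n) ^ NN n := by
    have hpos : (0 : ℝ) < 1 - dl n := by linarith
    rw [← Real.exp_log (pow_pos hpos (NN n)), Real.log_pow]
    refine Real.exp_le_exp.2 ?_
    have h5 := Real.one_sub_inv_le_log_of_pos hpos
    have h6 : (NN n : ℝ) * (1 - (1 - dl n)⁻¹) = - (NN n * dl n) * (1 - dl n)⁻¹ := by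
      field_simp
      ring
    have h7 : (NN n : ℝ) * (1 - (1 - dl n)⁻¹) ≤ NN n * Real.log (1 - dl n) :=
      mul_le_mul_of_nonneg_left h5 (Nat.cast_nonneg _)
    refine le_trans ?_ h7
    rw [h6]
    have h8 : (1 - dl n)⁻¹ ≤ 1 + 2 * dl n := by
      rw [inv_le_iff_one_le_mul₀ hpos]
      nlinarith
    have h9 : 0 < (1 - dl n)⁻¹ := inv_pos.2 hpos
    have h10 : (NN n * dl n) * (1 - dl n)⁻¹ ≤ 1 * (1 + 2 * dl n) :=
      mul_le_mul hNd h8 h9.le (by norm_num)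
    have h11 : 2 * dl n ≤ 1 / (2 * M) := by
      rw [le_div_iff₀ (by positivity)]
      linarith
    linarith
  exact hL.trans hR

theorem Num_core (m q : ℕ) (hm : 1 ≤ m) (hqm : 2 * q ≤ 2 ^ m) :
    Real.exp (-(q : ℝ)) * Real.exp (q / (2 * 2 ^ m)) ≤
      (1 - (1 / 2 : ℝ) ^ m) ^ (q * 2 ^ m) * (1 + 4 * q / 2 ^ m) := by
  obtain ⟨M, hM⟩ : ∃ M : ℕ, M = 2 ^ m := ⟨_, rfl⟩
  have hM1 : 1 ≤ M := by rw [hM]; exact Nat.one_le_two_pow
  have hMr : (2 : ℝ) ^ m = M := by rw [hM]; push_cast; rfl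
  have hMpos : (0 : ℝ) < M := by exact_mod_cast hM1
  have hx := Num_half_lt hm
  have hE := NC.NumA_exp hm
  rw [← hM] at hE hqm ⊢
  have hx1 : (1 / 2 : ℝ) ^ m = 1 / M := by
    rw [← hMr, one_div, one_div, inv_pow]
  rw [hx1] at hx hE ⊢
  rw [hMr]
  have hxp : (0 : ℝ) ≤ 1 - 1 / (M : ℝ) := by linarith
  have hqM : (q : ℝ) / M ≤ 1 / 2 := by
    rw [div_le_iff₀ hMpos]
    have h4 : (2 : ℝ) * q ≤ M := by exact_mod_cast hqm
    linarith
  have hap : (1 - 1 / (M : ℝ)) ^ (q * M) =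
      ((1 - 1 / (M : ℝ)) ^ (M - 1)) ^ q * (1 - 1 / (M : ℝ)) ^ q := by
    rw [← pow_mul, ← pow_add]
    congr 1
    obtain ⟨M', rfl⟩ : ∃ M', M = M' + 1 := ⟨M - 1, by omega⟩
    rw [Nat.add_sub_cancel]
    ring
  have h5 : Real.exp (-(q : ℝ)) ≤ ((1 - 1 / (M : ℝ)) ^ (M - 1)) ^ q := by
    calc Real.exp (-(q : ℝ)) = (Real.exp (-1)) ^ q := by
          rw [← Real.exp_nat_mul]
          congr 1
          ring
      _ ≤ _ := pow_le_pow_left₀ (Real.exp_pos _).le hE q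
  have h6 : 1 - (q : ℝ) / M ≤ (1 - 1 / (M : ℝ)) ^ q := by
    have h7 := one_add_mul_le_pow (a := -(1 / (M : ℝ))) (by linarith) q
    calc 1 - (q : ℝ) / M = 1 + (q : ℝ) * -(1 / M) := by ring
      _ ≤ (1 + -(1 / (M : ℝ))) ^ q := h7
      _ = (1 - 1 / (M : ℝ)) ^ q := by rw [← sub_eq_add_neg]
  have hq0 : (0 : ℝ) ≤ q / M := by positivity
  obtain ⟨t, ht⟩ : ∃ t : ℝ, t = (q : ℝ) / M := ⟨_, rfl⟩
  have h9 : (1 : ℝ) + 4 * q / M = 1 + 4 * t := by rw [ht]; ring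
  have hexp : Real.exp (q / (2 * (M : ℝ))) * (1 - t / 2) ≤ 1 := by
    have h20 := Real.one_sub_le_exp_neg (t / 2)
    have h21 : (q : ℝ) / (2 * M) = t / 2 := by
      rw [ht]
      field_simp
    rw [h21]
    calc Real.exp (t / 2) * (1 - t / 2) ≤ Real.exp (t / 2) * Real.exp (-(t / 2)) :=
          mul_le_mul_of_nonneg_left h20 (Real.exp_pos _).le
      _ = 1 := by
          rw [← Real.exp_add]
          simp
  rw [← ht] at hqM h6 hq0
  have h8 : 1 ≤ (1 - t) * (1 + 4 * t) * (1 - t / 2) := by nlinarith [mul_nonneg hq0 hq0]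
  have h22 : Real.exp (q / (2 * (M : ℝ))) ≤ (1 - t) * (1 + 4 * t) := by
    have h23 : (0 : ℝ) < 1 - t / 2 := by linarith
    have h24 : Real.exp (q / (2 * (M : ℝ))) * (1 - t / 2) ≤
        ((1 - t) * (1 + 4 * t)) * (1 - t / 2) := hexp.trans h8
    exact le_of_mul_le_mul_right h24 h23
  rw [h9, hap, mul_assoc]
  have h10 : Real.exp (q / (2 * (M : ℝ))) ≤ (1 - 1 / (M : ℝ)) ^ q * (1 + 4 * t) :=
    h22.trans (mul_le_mul_of_nonneg_right h6 (by linarith))
  exact mul_le_mul h5 h10 (Real.exp_pos _).le (pow_nonneg (pow_nonneg hxp _) _)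

theorem Num_pow_NN {n : ℕ} (hn : 12 ≤ n) (q : ℕ) :
    (1 - dl n) ^ (q * NN n) ≤ Real.exp (-(q : ℝ)) * Real.exp (q * (1 / (512 * (n : ℝ) ^ 2))) := by
  have hd0 := dl_pos n
  have hd1 := Num_dl_le_half hn
  have h1 := Real.one_sub_le_exp_neg (dl n)
  have h2 := Num_eps hn
  calc (1 - dl n) ^ (q * NN n) ≤ (Real.exp (-dl n)) ^ (q * NN n) :=
        pow_le_pow_left₀ (by linarith) h1 _
    _ = Real.exp (-(q * (NN n * dl n))) := by
        rw [← Real.exp_nat_mul]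
        congr 1
        push_cast
        ring
    _ ≤ Real.exp (-(q : ℝ) + q * (1 / (512 * (n : ℝ) ^ 2))) := by
        refine Real.exp_le_exp.2 ?_
        have h3 := mul_le_mul_of_nonneg_left h2 (Nat.cast_nonneg q)
        linarith
    _ = _ := Real.exp_add _ _

theorem za_le_ap {n s : ℕ} (hn : 12 ≤ n) (h : s ≤ n) :
    za n s ≤ ap s * (1 + 4 * qq s / 2 ^ mm s) := by
  have hn' : (12 : ℝ) ≤ n := by exact_mod_cast hn
  have h1 := Num_pow_NN hn (qq s)
  have h2 := Num_core (mm s) (qq s) (by unfold mm; omega) (NC.NumA_two_qq s)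
  have h3 := Num_mm hn h
  have h4 : (qq s : ℝ) * (1 / (512 * (n : ℝ) ^ 2)) ≤ qq s / (2 * 2 ^ mm s) := by
    rw [mul_one_div]
    refine div_le_div_of_nonneg_left (Nat.cast_nonneg _) (by positivity) ?_
    linarith
  unfold za NC.ap
  refine h1.trans (le_trans ?_ h2)
  exact mul_le_mul_of_nonneg_left (Real.exp_le_exp.2 h4) (Real.exp_pos _).le

theorem za_hi {n : ℕ} (hn : 12 ≤ n) (s : ℕ) : za n s ≤ (2 / 5) ^ qq s := by
  have hn' : (12 : ℝ) ≤ n := by exact_mod_cast hn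
  unfold za
  rw [mul_comm, pow_mul]
  have hd1 := Num_dl_le_half hn
  refine pow_le_pow_left₀ (pow_nonneg (by linarith) _) ?_ _
  have h1 := Num_pow_NN hn 1
  rw [one_mul, Nat.cast_one, one_mul] at h1
  refine h1.trans ?_
  have h2 := Real.exp_neg_one_lt_d9
  have h3 : Real.exp (1 / (512 * (n : ℝ) ^ 2)) ≤ 1.01 := by
    have h4 : 1 / (512 * (n : ℝ) ^ 2) ≤ 1 / 200 := by
      refine div_le_div_of_nonneg_left (by norm_num) (by norm_num) ?_
      nlinarith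
    have h5 := Real.one_sub_le_exp_neg (1 / 200 : ℝ)
    have h6 : Real.exp (1 / 200) * Real.exp (-(1 / 200)) = 1 := by
      rw [← Real.exp_add]
      simp
    have h7 := Real.exp_pos (1 / 200 : ℝ)
    have h8 : Real.exp (1 / 200) ≤ 1.01 := by nlinarith
    exact (Real.exp_le_exp.2 h4).trans h8
  have h9 := Real.exp_pos (-1 : ℝ)
  have h10 := Real.exp_pos (1 / (512 * (n : ℝ) ^ 2))
  nlinarith

end Pool.Agent.H583R2.S2
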