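import Pool.Agent.H583R2.S2.Defs
import Pool.Agent.H583R2.NC.Mem

/-!
# Task S8: the oracle is in `NP`, complementing the oracle
-/

namespace Pool.Agent.H583R2.S2

open MeasureTheory Pool.Agent.NPC Pool.Agent.H628R3.RO Pool.Agent.H628R3.RO.G2
open Pool.Agent.H583R2.NC (wl rr qq mm uu vv JJ KK BB Data)

namespace MemK

/-- the data of a pair -/
abbrev D3 : Type := List Unit × List Unit × List Bool

theorem mem_gc' {n g : ℕ} {y : List Bool} {κ : Cand} : κ ∈ gc n g y ↔
    g * n ≤ κ.1 ∧ κ.1 < (g + 1) * n ∧ ∃ z : List Bool, z.length = wl n ∧ κ.2 = y ++ z := by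
  unfold gc
  rw [Finset.mem_product, Finset.mem_Ico, Finset.mem_image, and_assoc]
  constructor
  · rintro ⟨h1, h2, v, -, h3⟩
    exact ⟨h1, h2, List.ofFn v, List.length_ofFn, h3.symm⟩
  · rintro ⟨h1, h2, z, h3, h4⟩
    refine ⟨h1, h2, fun i => z.get (i.cast h3.symm), Finset.mem_univ _, ?_⟩
    rw [h4]
    congr 1
    apply List.ext_get
    · rw [List.length_ofFn, h3]
    · intro i h5 h6
      simp

theorem notMem_Mk {A : Oracle} {n g : ℕ} {y : List Bool} : A ∉ Mk n g y ↔
    ∃ (c : ℕ) (z : List Bool), g * n ≤ c ∧ c < (g + 1) * n ∧ z.length = wl n ∧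
      Hit (wl n) (c, y ++ z) A := by
  unfold Mk NoHit
  rw [Set.mem_ofPred_eq]
  push Not
  constructor
  · rintro ⟨κ, h1, h2⟩
    rw [mem_gc'] at h1
    obtain ⟨h3, h4, z, h5, h6⟩ := h1
    refine ⟨κ.1, z, h3, h4, h5, ?_⟩
    rw [← h6]
    exact h2
  · rintro ⟨c, z, h1, h2, h3, h4⟩
    exact ⟨(c, y ++ z), mem_gc'.2 ⟨h1, h2, z, h3, rfl⟩, h4⟩

/-- the test -/
def gK (p : List Bool × List Bool) : Bool :=
  match unbits D3 p.1 with
  | none => false
  | some D => (decide (D.2.2.length = 2 * D.1.length) &&
      decide (D.2.1.length * D.1.length ≤ (unpair p.2).1.length)) &&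
      (decide ((unpair p.2).1.length < (D.2.1.length + 1) * D.1.length) &&
      decide ((unpair p.2).2.length = wl D.1.length))

/-- the questions -/
def qK (p : List Bool × List Bool) : List (List Bool) :=
  match unbits D3 p.1 with
  | none => []
  | some D => NC.Mem.sps D.1.length (unpair p.2).1.length (D.2.2 ++ (unpair p.2).2)

theorem poly_gK : Poly gK := by
  refine (Poly.optCases (o := fun p : List Bool × List Bool => unbits D3 p.1)
    (g := fun _ => false)
    (h := fun p D => (decide (D.2.2.length = 2 * D.1.length) &&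
      decide (D.2.1.length * D.1.length ≤ (unpair p.2).1.length)) &&
      (decide ((unpair p.2).1.length < (D.2.1.length + 1) * D.1.length) &&
      decide ((unpair p.2).2.length = wl D.1.length)))
    (poly_unbits.comp (Poly.fst Poly.id)) (NPC.Poly.const _) ?_).congr fun p => ?_
  · have h4 : Poly (fun p : (List Bool × List Bool) × D3 => (unpair p.1.2)) :=
      poly_unpair.comp (Poly.snd (Poly.fst Poly.id))
    have h5 : Poly (fun p : (List Bool × List Bool) × D3 => p.2) := Poly.snd Poly.id
    have h6 : Poly (fun p : (List Bool × List Bool) × D3 => p.2.1) := Poly.fst h5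
    have h7 : Poly (fun p : (List Bool × List Bool) × D3 => p.2.2.1) := Poly.fst (Poly.snd h5)
    have h8 : Poly (fun p : (List Bool × List Bool) × D3 => p.2.2.2) := Poly.snd (Poly.snd h5)
    refine Poly.and (Poly.and (Poly.decide_eq (Poly.length h8)
      (Poly.mul (NPC.Poly.const 2) (Poly.length h6))) (Poly.decide_le
      (Poly.mul (Poly.length h7) (Poly.length h6)) (Poly.length (Poly.fst h4))))
      (Poly.and (Poly.decide_lt (Poly.length (Poly.fst h4))
        (Poly.mul (Poly.succ (Poly.length h7)) (Poly.length h6)))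
        (Poly.decide_eq (Poly.length (Poly.snd h4)) (NC.Mem.u_wl h6).toPoly))
  · unfold gK
    cases unbits D3 p.1 <;> rfl

theorem poly_qK : Poly qK := by
  refine (Poly.optCases (o := fun p : List Bool × List Bool => unbits D3 p.1)
    (g := fun _ => [])
    (h := fun p D => NC.Mem.sps D.1.length (unpair p.2).1.length (D.2.2 ++ (unpair p.2).2))
    (poly_unbits.comp (Poly.fst Poly.id)) (NPC.Poly.const _) ?_).congr fun p => ?_
  · have h4 : Poly (fun p : (List Bool × List Bool) × D3 => (unpair p.1.2)) :=
      poly_unpair.comp (Poly.snd (Poly.fst Poly.id))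
    have h5 : Poly (fun p : (List Bool × List Bool) × D3 => p.2) := Poly.snd Poly.id
    exact NC.Mem.poly_sps (Poly.fst h5) (UPoly.length (Poly.fst h4))
      (Poly.append (Poly.snd (Poly.snd h5)) (Poly.snd h4))
  · unfold qK
    cases unbits D3 p.1 <;> rfl

theorem key {A : Oracle} {x w : List Bool} {D : D3} (h : bits D = x) :
    (gK (x, w) = true ∧ ∀ z ∈ qK (x, w), A z = true) ↔
      (D.2.2.length = 2 * D.1.length ∧ D.2.1.length * D.1.length ≤ (unpair w).1.length ∧
        (unpair w).1.length < (D.2.1.length + 1) * D.1.length ∧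
        (unpair w).2.length = wl D.1.length ∧
        Hit (wl D.1.length) ((unpair w).1.length, D.2.2 ++ (unpair w).2) A) := by
  subst h
  unfold gK qK
  simp only [unbits_bits, Bool.and_eq_true, decide_eq_true_eq]
  rw [show (∀ z ∈ NC.Mem.sps D.1.length (unpair w).1.length (D.2.2 ++ (unpair w).2), A z = true) ↔
    Hit (wl D.1.length) ((unpair w).1.length, D.2.2 ++ (unpair w).2) A from forall_spots]
  tauto

end MemK

open MemK

theorem isNP_HitK (A : Oracle) : IsNP A (HitK A) := by
  refine ⟨ver A gK qK, Polynomial.C 2 * ((Polynomial.X + 1) * Polynomial.X) +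
    Polynomial.C 2 * Polynomial.X + Polynomial.C 9, ver_isFP A poly_gK poly_qK, fun x => ?_⟩
  constructor
  · rintro ⟨D, hD, h1, h2⟩
    obtain ⟨c, z, h3, h4, h5, h6⟩ := notMem_Mk.1 h2
    refine ⟨pairBits (List.replicate c true) z, ?_, ?_⟩
    · rw [A2.length_pairBits, List.length_replicate, h5]
      have hn : D.1.length ≤ x.length ∧ D.2.1.length ≤ x.length := by
        rw [← hD, bits_length]
        have e1 := length_lt_sz D.1
        have e3 := length_lt_sz D.2.1
        have e2 : sz D.1 ≤ sz D ∧ sz D.2.1 ≤ sz D := by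
          obtain ⟨l, g, y⟩ := D
          simp only [sz_pair]
          omega
        omega
      have h7 : (D.2.1.length + 1) * D.1.length ≤ (x.length + 1) * x.length :=
        Nat.mul_le_mul (by omega) hn.1
      simp only [Polynomial.eval_add, Polynomial.eval_mul, Polynomial.eval_C, Polynomial.eval_X,
        Polynomial.eval_one]
      have h8 : wl D.1.length = 2 * D.1.length + 8 := rfl
      rw [h8]
      have h9 := hn.1
      omega
    · rw [ver_iff, key hD]
      simp only [unpair_pairBits, List.length_replicate]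
      exact ⟨h1, h3, h4, h5, h6⟩
  · rintro ⟨w, -, h⟩
    rw [ver_iff] at h
    obtain ⟨D, hD⟩ : ∃ D : D3, bits D = x := by
      have h1 := h.1
      unfold gK at h1
      cases h2 : unbits D3 x with
      | none => simp only [h2] at h1; exact absurd h1 (by simp)
      | some D => exact ⟨D, bits_of_unbits h2⟩
    rw [key hD] at h
    exact ⟨D, hD, h.1, notMem_Mk.2 ⟨_, _, h.2.1, h.2.2.1, h.2.2.2.1, h.2.2.2.2⟩⟩

/-- complementing the oracle -/
theorem isFP_not {A : Oracle} {F : List Bool → List Bool} (h : IsFP (fun u => !A u) F) :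
    IsFP A F := by
  obtain ⟨M, hM⟩ := h
  have hD : Poly M.D := H622R2.poly_of_polyTime M.poly
  have hD' : Poly (fun z : List Bool => M.D (pairBits (unpair z).1 ((unpair z).2.map (! ·)))) := by
    refine hD.comp (H622R2.poly_pairBits (Poly.fst poly_unpair) ?_)
    exact NPC.Poly.map (F := fun _ (b : Bool) => !b) (Poly.snd poly_unpair)
      (Poly.not (Poly.snd Poly.id))
  refine ⟨⟨_, H622R2.polyTime_of_poly_list hD', M.p⟩, fun x => ?_⟩
  rw [← hM x]
  unfold Alg.out
  have key : ∀ n a, Alg.run ⟨_, H622R2.polyTime_of_poly_list hD', M.p⟩ A x n a =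
      M.run (fun u => !A u) x n (a.map (! ·)) := by
    intro n
    induction n with
    | zero => intro a; rfl
    | succ n ih =>
      intro a
      unfold Alg.run
      simp only [unpair_pairBits]
      rcases M.D (pairBits x (a.map (! ·))) with _ | ⟨b, q⟩
      · rfl
      · cases b
        · simp only
          rw [ih]
          simp
        · rfl
  rw [key]
  rfl

end Pool.Agent.H583R2.S2
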