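import Pool.Agent.H583R2.NC.Defs
import Pool.Agent.H583R2.BK.Defs
import Pool.Agent.NPC.Num

/-!
# Hidden blocks one level higher: a language in `Σ₂ ∩ Π₂` relative to a random oracle

A pair `(g, y)` (a group `g` and a string `y`) is *marked* if none of the candidates of its cell is
a hit. A slot is *zero* if none of its pairs is marked. The blocks, the pairs of partner slots and
the instances are as in `Pool.Agent.H583R2.NC.Defs`, with marked pairs instead of hits.
-/

namespace Pool.Agent.H583R2.S2

open MeasureTheory Pool.Agent.NPC Pool.Agent.H628R3.RO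
open Pool.Agent.H583R2.NC (wl rr qq mm uu vv JJ KK BB Data)

/-- accuracy -/
def kk (n : ℕ) : ℕ := 1024 * (n + 1) ^ 3

/-- number of strings in use, about `exp n` -/
def NN (n : ℕ) : ℕ := (kk n + 1) ^ (kk n * n) / kk n ^ (kk n * n)

/-- the strings in use -/
def Ys (n : ℕ) : Finset (List Bool) :=
  (Finset.univ.image (fun v : Fin (2 * n) → Bool => List.ofFn v)).filter (fun y => valB y < NN n)

/-- the cell of the pair `(g, y)` -/
def gc (n g : ℕ) (y : List Bool) : Finset Cand :=
  Finset.Ico (g * n) ((g + 1) * n) ×ˢ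
    (Finset.univ.image (fun v : Fin (wl n) → Bool => y ++ List.ofFn v))

/-- the probability that a pair is marked -/
noncomputable def dl (n : ℕ) : ℝ := (1 - (1 / 2 : ℝ) ^ wl n) ^ (n * 2 ^ wl n)

/-- the probability that a slot is zero -/
noncomputable def za (n s : ℕ) : ℝ := (1 - dl n) ^ (qq s * NN n)

/-- the pair `(g, y)` is marked -/
def Mk (n g : ℕ) (y : List Bool) : Set Oracle := NoHit (wl n) (gc n g y)

/-- the pairs of slot `i` of block `b` -/
def prs (n s b i : ℕ) : Finset (ℕ × List Bool) :=
  Finset.Ico ((b * KK s + i) * qq s) ((b * KK s + i + 1) * qq s) ×ˢ Ys n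

/-- the slot is zero -/
def Zero (n s b i : ℕ) : Set Oracle := {A | ∀ x ∈ prs n s b i, A ∉ Mk n x.1 x.2}

/-- the strings of a slot -/
def sp (n s b i : ℕ) : Set (List Bool) :=
  {z | ∃ x ∈ prs n s b i, z ∈ allSpots (wl n) (gc n x.1 x.2)}

/-- no slot of the block outside of pair `j` is zero -/
def Others (n s b j : ℕ) : Set Oracle := BK.Others (Zero n s) (JJ s) b j

/-- the promise fails at this stage -/
def Inv (n s : ℕ) : Set Oracle := BK.Inv (Zero n s) (BB s) (JJ s)

/-! ### Instances -/

/-- the conditions on the data of an instance that do not depend on the oracle -/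
def Syn (s : ℕ) (D : Data) : Prop :=
  D.2.1 < BB s ∧ D.2.2.1 < JJ s ∧
  (∀ κ ∈ D.2.2.2, κ.2.length = 2 * D.1.length ∧ valB κ.2 < NN D.1.length) ∧
  ∀ i < KK s, i ≠ 2 * D.2.2.1 → i ≠ 2 * D.2.2.1 + 1 → ∃ κ ∈ D.2.2.2,
    (D.2.1 * KK s + i) * qq s ≤ κ.1.length ∧ κ.1.length < (D.2.1 * KK s + i + 1) * qq s

/-- the certificates are correct -/
def Cert (A : Oracle) (s : ℕ) (D : Data) : Prop :=
  Syn s D ∧ ∀ κ ∈ D.2.2.2, A ∈ Mk D.1.length κ.1.length κ.2

/-- the language: the stages and their levels are given by `f` -/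
def LL (f : ℕ → Option ℕ) (A : Oracle) : Set (List Bool) :=
  {x | ∃ (D : Data) (s : ℕ), bits D = x ∧ f D.1.length = some s ∧ Cert A s D ∧
    A ∉ Zero D.1.length s D.2.1 (2 * D.2.2.1)}

/-- the language in `NP` that is used as an oracle: the pairs that are not marked -/
def HitK (A : Oracle) : Set (List Bool) :=
  {u | ∃ D : List Unit × List Unit × List Bool, bits D = u ∧
    D.2.2.length = 2 * D.1.length ∧ A ∉ Mk D.1.length D.2.1.length D.2.2}

open Classical in
/-- the characteristic function -/
noncomputable def chr (K : Set (List Bool)) : Oracle := fun u => decide (u ∈ K)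

open Classical in
/-- a marked pair in the slot -/
noncomputable def pickMk (n s b i : ℕ) (A : Oracle) : Option (List Unit × List Bool) :=
  (((prs n s b i).filter (fun x => A ∈ Mk n x.1 x.2)).toList.head?).map
    (fun x => (List.replicate x.1 (), x.2))

/-- certificates for all slots outside of pair `j` -/
noncomputable def certs (n s b j : ℕ) (A : Oracle) : List (List Unit × List Bool) :=
  ((List.range (KK s)).filter (fun i => decide (i ≠ 2 * j ∧ i ≠ 2 * j + 1))).filterMap
    (fun i => pickMk n s b i A)

/-- the data of the instance `(b, j)` at stage `n` -/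
noncomputable def instD (n s b j : ℕ) (A : Oracle) : Data :=
  (List.replicate n (), b, j, certs n s b j A)

/-- the instance `(b, j)` at stage `n` -/
noncomputable def inst (n s b j : ℕ) (A : Oracle) : List Bool := bits (instD n s b j A)

/-- the `NP` oracle given by a verifier -/
noncomputable def KO (V : Alg) (p : Polynomial ℕ) (A : Oracle) : Oracle := chr {u | Wit V p u A}

/-- the machine `M` with the `NP` oracle given by `V` and `p` decides the instances of stage `n` -/
def GoodS (V : Alg) (p : Polynomial ℕ) (M : Alg) (n s : ℕ) : Set Oracle :=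
  {A | ∀ b < BB s, ∀ j < JJ s, A ∈ Others n s b j →
    (A ∉ Zero n s b (2 * j) → A ∈ Zero n s b (2 * j + 1) →
      M.out (KO V p A) (inst n s b j A) = some [true]) ∧
    (A ∈ Zero n s b (2 * j) → A ∉ Zero n s b (2 * j + 1) →
      M.out (KO V p A) (inst n s b j A) ≠ some [true])}

/-- `P` relative to `A`. -/
def IsP (A : Oracle) (L : Set (List Bool)) : Prop :=
  ∃ F : List Bool → List Bool, IsFP A F ∧ ∀ x, x ∈ L ↔ F x = [true]

/-- `Σ₂` relative to `A`: `NP` relative to a set in `NP` relative to `A`. -/
def IsSigma2 (A : Oracle) (L : Set (List Bool)) : Prop :=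
  ∃ K : Set (List Bool), IsNP A K ∧ IsNP (chr K) L

/-- `Π₂` relative to `A`. -/
def IsPi2 (A : Oracle) (L : Set (List Bool)) : Prop := IsSigma2 A Lᶜ

/-- `Δ₂ = P^NP` relative to `A`: `P` relative to a set in `NP` relative to `A`. -/
def IsDelta2 (A : Oracle) (L : Set (List Bool)) : Prop :=
  ∃ K : Set (List Bool), IsNP A K ∧ IsP (chr K) L

end Pool.Agent.H583R2.S2
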