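import Pool.Agent.H583R2.NC.Par
import Pool.Agent.H583R2.S2.Defs

/-!
The number of strings in use is computable in polynomial time.
-/

namespace Pool.Agent.H583R2.S2

open Pool.Agent.NPC Pool.Agent.H628R3.RO
open Pool.Agent.H583R2.NC (p_npow)

theorem u_kk {α : Type} [TEnc α] {n : α → ℕ} (hn : UPoly n) : UPoly (fun a => kk (n a)) := by
  have h1 : UPoly (fun a => n a + 1) := hn.add (UPoly.const 1)
  refine ((UPoly.const 1024).mul ((h1.mul h1).mul h1)).congr fun a => ?_
  simp only [kk]
  ring_nf

/-! ### Task S9 (file `S2/Par.lean`): the number of strings is computable -/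

theorem p_NN {α : Type} [TEnc α] {n : α → ℕ} (hn : UPoly n) : Poly (fun a => NN (n a)) := by
  have hk := u_kk hn
  exact Poly.div (p_npow (hk.add (UPoly.const 1)).toPoly (hk.mul hn))
    (p_npow hk.toPoly (hk.mul hn))

end Pool.Agent.H583R2.S2
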