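import Pool.Agent.H583R2.S2.MemK
import Pool.Agent.H583R2.S2.Par
import Pool.Agent.H583R2.NC.Mem
import Pool.Agent.H583R2.BK.Defs

/-!
# Task S10: the language is in `NP` and in `coNP` relative to the `NP` oracle
-/

namespace Pool.Agent.H583R2.S2

open MeasureTheory Pool.Agent.NPC Pool.Agent.H628R3.RO Pool.Agent.H628R3.RO.G2
open Pool.Agent.H583R2.NC (wl rr qq mm uu vv JJ KK BB Data u_KK u_qq u_BB u_JJ size_poly)
open Pool.Agent.H583R2.NC.Mem (dcd dcd_eq poly_dcd lev u_lev rngB poly_rngB anyB poly_anyB)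

namespace Mem

/-! ### slots -/

theorem mem_Ys' {n : ℕ} {y : List Bool} : y ∈ Ys n ↔ y.length = 2 * n ∧ valB y < NN n := by
  unfold Ys
  rw [Finset.mem_filter, Finset.mem_image]
  refine and_congr_left fun _ => ?_
  constructor
  · rintro ⟨v, -, rfl⟩
    exact List.length_ofFn
  · intro h
    refine ⟨fun i => y.get (i.cast h.symm), Finset.mem_univ _, ?_⟩
    apply List.ext_get
    · rw [List.length_ofFn, h]
    · intro i h5 h6
      simp

theorem notMem_zero {A : Oracle} {n s b i : ℕ} : A ∉ Zero n s b i ↔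
    ∃ (g : ℕ) (y : List Bool), (b * KK s + i) * qq s ≤ g ∧ g < (b * KK s + i + 1) * qq s ∧
      (y.length = 2 * n ∧ valB y < NN n) ∧ A ∈ Mk n g y := by
  unfold Zero prs
  rw [Set.mem_ofPred_eq]
  push Not
  constructor
  · rintro ⟨x, h1, h2⟩
    rw [Finset.mem_product, Finset.mem_Ico, mem_Ys'] at h1
    exact ⟨x.1, x.2, h1.1.1, h1.1.2, h1.2, h2⟩
  · rintro ⟨g, y, h1, h2, h3, h4⟩
    exact ⟨(g, y), Finset.mem_product.2 ⟨Finset.mem_Ico.2 ⟨h1, h2⟩, mem_Ys'.2 h3⟩, h4⟩

theorem others {A : Oracle} {s : ℕ} {D : Data} (h : Cert A s D) :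
    A ∈ Others D.1.length s D.2.1 D.2.2.1 := by
  intro i hi h1 h2
  obtain ⟨κ, hκ, h3, h4⟩ := h.1.2.2.2 i hi h1 h2
  rw [notMem_zero]
  exact ⟨κ.1.length, κ.2, h3, h4, h.1.2.2.1 κ hκ, h.2 κ hκ⟩

/-! ### the complement of the oracle -/

/-- the marked pairs -/
noncomputable def Nn (A : Oracle) : Oracle := fun u => !(chr (HitK A) u)

theorem Nn_bits {A : Oracle} {l g : List Unit} {y : List Bool} (h : y.length = 2 * l.length) :
    Nn A (bits (l, g, y)) = true ↔ A ∈ Mk l.length g.length y := by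
  unfold Nn chr
  rw [Bool.not_eq_true', decide_eq_false_iff_not]
  constructor
  · intro h1
    by_contra h2
    exact h1 ⟨(l, g, y), rfl, h, h2⟩
  · rintro h1 ⟨D, hD, -, h2⟩
    rw [bits_injective hD] at h2
    exact h2 h1

theorem poly_bits {α β : Type} [TEnc α] [TEnc β] {g : α → β} (hg : Poly g) :
    Poly (fun a => bits (g a)) := by
  have h1 : PC (bits : α → List Bool) (fun x : List Bool => x) (fun a => bits (g a)) := by
    obtain ⟨c, p, h⟩ := hg
    exact ⟨c, p, h⟩
  exact PC.comp (g := fun x => x) (f := fun a => bits (g a)) PC.rawIn h1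

section

variable {α : Type} [TEnc α]

/-- the condition on a string -/
def strB (n : ℕ) (y : List Bool) : Bool := decide (y.length = 2 * n) && decide (valB y < NN n)

theorem poly_strB {l : α → List Unit} {y : α → List Bool} (hl : Poly l) (hy : Poly y) :
    Poly (fun a => strB (l a).length (y a)) :=
  Poly.and (Poly.decide_eq (Poly.length hy) (Poly.mul (NPC.Poly.const 2) (Poly.length hl)))
    (Poly.decide_lt (Poly.valBits hy) (p_NN (UPoly.length hl)))

/-- the conditions on the data -/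
def synB (p : Data × ℕ) : Bool :=
  (decide (p.1.2.1 < BB (lev p)) && decide (p.1.2.2.1 < JJ (lev p))) &&
    (p.1.2.2.2.all (fun κ => strB p.1.1.length κ.2) &&
      (List.range (KK (lev p))).all (fun i => (decide (i = 2 * p.1.2.2.1) ||
        decide (i = 2 * p.1.2.2.1 + 1)) || p.1.2.2.2.any (fun κ => rngB p i κ.1.length)))

theorem synB_iff (p : Data × ℕ) : synB p = true ↔ Syn (lev p) p.1 := by
  unfold synB Syn rngB strB
  simp only [Bool.and_eq_true, decide_eq_true_eq, List.all_eq_true, List.mem_range,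
    Bool.or_eq_true, List.any_eq_true]
  constructor
  · rintro ⟨⟨h1, h2⟩, h3, h4⟩
    refine ⟨h1, h2, h3, fun i hi h5 h6 => ?_⟩
    rcases h4 i hi with h | h
    · omega
    · exact h
  · rintro ⟨h1, h2, h3, h4⟩
    refine ⟨⟨h1, h2⟩, h3, fun i hi => ?_⟩
    by_cases h5 : i = 2 * p.1.2.2.1
    · exact Or.inl (Or.inl h5)
    · by_cases h6 : i = 2 * p.1.2.2.1 + 1
      · exact Or.inl (Or.inr h6)
      · exact Or.inr (h4 i hi h5 h6)

theorem poly_synB {p : α → Data × ℕ} (hp : Poly p) : Poly (fun a => synB (p a)) := by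
  have hj : Poly (fun a => (p a).1.2.2.1) := Poly.fst (Poly.snd (Poly.snd (Poly.fst hp)))
  have hl : Poly (fun a => (p a).1.2.2.2) := Poly.snd (Poly.snd (Poly.snd (Poly.fst hp)))
  have k1 : Poly (fun q : α × (List Unit × List Bool) => strB (p q.1).1.1.length q.2.2) :=
    poly_strB ((Poly.fst (Poly.fst hp)).comp (Poly.fst Poly.id)) (Poly.snd (Poly.snd Poly.id))
  have k2 : Poly (fun q : α × ℕ => (decide (q.2 = 2 * (p q.1).1.2.2.1) ||
        decide (q.2 = 2 * (p q.1).1.2.2.1 + 1)) || anyB (p q.1) q.2) := by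
    have hp' : Poly (fun q : α × ℕ => p q.1) := hp.comp (Poly.fst Poly.id)
    have hi' : Poly (fun q : α × ℕ => q.2) := Poly.snd Poly.id
    have hj' : Poly (fun q : α × ℕ => 2 * (p q.1).1.2.2.1) :=
      Poly.mul (NPC.Poly.const 2) (hj.comp (Poly.fst Poly.id))
    have hj'' : Poly (fun q : α × ℕ => 2 * (p q.1).1.2.2.1 + 1) := Poly.succ hj'
    exact Poly.or (Poly.or (Poly.decide_eq hi' hj') (Poly.decide_eq hi' hj''))
      (poly_anyB hp' hi')
  have k3 : Poly (fun a => (p a).1.2.2.2.all (fun κ => strB (p a).1.1.length κ.2)) :=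
    Poly.all (p := fun a (κ : List Unit × List Bool) => strB (p a).1.1.length κ.2) hl k1
  have k4 : Poly (fun a => (List.range (KK (lev (p a)))).all
      (fun i => (decide (i = 2 * (p a).1.2.2.1) ||
        decide (i = 2 * (p a).1.2.2.1 + 1)) || anyB (p a) i)) :=
    Poly.all (p := fun a i => (decide (i = 2 * (p a).1.2.2.1) ||
        decide (i = 2 * (p a).1.2.2.1 + 1)) || anyB (p a) i) (u_KK (u_lev hp)).range k2
  exact Poly.and (Poly.and (Poly.decide_lt (Poly.fst (Poly.snd (Poly.fst hp)))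
    (u_BB (u_lev hp)).toPoly) (Poly.decide_lt hj (u_JJ (u_lev hp)).toPoly))
    (Poly.and k3 k4)

end

/-- the questions for the list -/
def lstQ (D : Data) : List (List Bool) := D.2.2.2.map (fun κ => bits (D.1, κ.1, κ.2))

theorem poly_lstQ : Poly lstQ := by
  have h : Poly (fun q : Data × (List Unit × List Bool) => bits (q.1.1, q.2.1, q.2.2)) :=
    poly_bits (Poly.pair (Poly.fst (Poly.fst Poly.id))
      (Poly.pair (Poly.fst (Poly.snd Poly.id)) (Poly.snd (Poly.snd Poly.id))))
  exact NPC.Poly.map (F := fun (D : Data) (κ : List Unit × List Bool) => bits (D.1, κ.1, κ.2))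
    (Poly.snd (Poly.snd (Poly.snd Poly.id))) h

theorem forall_lstQ {A : Oracle} {D : Data} (h : ∀ κ ∈ D.2.2.2, κ.2.length = 2 * D.1.length) :
    (∀ z ∈ lstQ D, Nn A z = true) ↔ ∀ κ ∈ D.2.2.2, A ∈ Mk D.1.length κ.1.length κ.2 := by
  unfold lstQ
  constructor
  · intro h1 κ hκ
    exact (Nn_bits (h κ hκ)).1 (h1 _ (List.mem_map.2 ⟨κ, hκ, rfl⟩))
  · intro h1 z hz
    obtain ⟨κ, hκ, rfl⟩ := List.mem_map.1 hz
    exact (Nn_bits (h κ hκ)).2 (h1 κ hκ)

/-! ### the two verifiers -/

/-- the test of the certificates -/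
def g1 (f : ℕ → Option ℕ) (p : List Bool × List Bool) : Bool :=
  match dcd f p.1 with
  | none => false
  | some q => synB q

/-- the questions for the certificates -/
def q1 (f : ℕ → Option ℕ) (p : List Bool × List Bool) : List (List Bool) :=
  match dcd f p.1 with
  | none => []
  | some q => lstQ q.1

/-- the test of the witness, for slot `2 j` or `2 j + 1` -/
def g2 (f : ℕ → Option ℕ) (e : Bool) (p : List Bool × List Bool) : Bool :=
  match dcd f p.1 with
  | none => false
  | some q => rngB q (2 * q.1.2.2.1 + e.toNat) (unpair p.2).1.length &&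
      strB q.1.1.length (unpair p.2).2

/-- the questions for the witness -/
def q2 (f : ℕ → Option ℕ) (p : List Bool × List Bool) : List (List Bool) :=
  match dcd f p.1 with
  | none => []
  | some q => [bits (q.1.1, (unpair p.2).1.map (fun _ => ()), (unpair p.2).2)]

section

variable {f : ℕ → Option ℕ} (hf : Poly (fun x : List Unit => f x.length))
include hf

theorem poly_g1 : Poly (g1 f) := by
  refine (Poly.optCases (o := fun p : List Bool × List Bool => dcd f p.1) (g := fun _ => false)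
    (h := fun _ q => synB q) ((poly_dcd hf).comp (Poly.fst Poly.id)) (NPC.Poly.const _)
    (poly_synB (Poly.snd Poly.id))).congr fun p => ?_
  unfold g1
  cases dcd f p.1 <;> rfl

theorem poly_q1 : Poly (q1 f) := by
  refine (Poly.optCases (o := fun p : List Bool × List Bool => dcd f p.1) (g := fun _ => [])
    (h := fun _ q => lstQ q.1) ((poly_dcd hf).comp (Poly.fst Poly.id)) (NPC.Poly.const _)
    (poly_lstQ.comp (Poly.fst (Poly.snd Poly.id)))).congr fun p => ?_
  unfold q1
  cases dcd f p.1 <;> rfl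

theorem poly_g2 (e : Bool) : Poly (g2 f e) := by
  refine (Poly.optCases (o := fun p : List Bool × List Bool => dcd f p.1) (g := fun _ => false)
    (h := fun p q => rngB q (2 * q.1.2.2.1 + e.toNat) (unpair p.2).1.length &&
      strB q.1.1.length (unpair p.2).2) ((poly_dcd hf).comp (Poly.fst Poly.id))
    (NPC.Poly.const _) ?_).congr fun p => ?_
  · have h4 : Poly (fun p : (List Bool × List Bool) × (Data × ℕ) => (unpair p.1.2)) :=
      poly_unpair.comp (Poly.snd (Poly.fst Poly.id))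
    have h5 : Poly (fun p : (List Bool × List Bool) × (Data × ℕ) => p.2) := Poly.snd Poly.id
    refine Poly.and (poly_rngB h5 (Poly.add (Poly.mul (NPC.Poly.const 2)
      (Poly.fst (Poly.snd (Poly.snd (Poly.fst h5))))) (NPC.Poly.const _)) (Poly.length (Poly.fst h4)))
      (poly_strB (Poly.fst (Poly.fst h5)) (Poly.snd h4))
  · unfold g2
    cases dcd f p.1 <;> rfl

theorem poly_q2 : Poly (q2 f) := by
  refine (Poly.optCases (o := fun p : List Bool × List Bool => dcd f p.1) (g := fun _ => [])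
    (h := fun p q => [bits (q.1.1, (unpair p.2).1.map (fun _ => ()), (unpair p.2).2)])
    ((poly_dcd hf).comp (Poly.fst Poly.id)) (NPC.Poly.const _) ?_).congr fun p => ?_
  · have h4 : Poly (fun p : (List Bool × List Bool) × (Data × ℕ) => (unpair p.1.2)) :=
      poly_unpair.comp (Poly.snd (Poly.fst Poly.id))
    have h5 : Poly (fun p : (List Bool × List Bool) × (Data × ℕ) => p.2) := Poly.snd Poly.id
    have h6 : Poly (fun p : (List Bool × List Bool) × (Data × ℕ) =>
        (unpair p.1.2).1.map (fun _ => ())) :=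
      NPC.Poly.map (F := fun _ (_ : Bool) => ()) (Poly.fst h4) (NPC.Poly.const _)
    exact Poly.cons (poly_bits (Poly.pair (Poly.fst (Poly.fst h5)) (Poly.pair h6 (Poly.snd h4))))
      (NPC.Poly.const [])
  · unfold q2
    cases dcd f p.1 <;> rfl

end

section

variable {f : ℕ → Option ℕ} (hfn : ∀ n s, f n = some s → s ≤ n)
include hfn

theorem cert_iff {A : Oracle} {x w : List Bool} :
    (g1 f (x, w) = true ∧ ∀ z ∈ q1 f (x, w), Nn A z = true) ↔
      ∃ D s, dcd f x = some (D, s) ∧ Cert A s D := by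
  unfold g1 q1
  simp only
  cases h : dcd f x with
  | none => simp
  | some q =>
    obtain ⟨D, s⟩ := q
    simp only
    rw [synB_iff, NC.Mem.lev_eq hfn h]
    constructor
    · rintro ⟨h1, h2⟩
      exact ⟨D, s, rfl, h1, (forall_lstQ fun κ hκ => (h1.2.2.1 κ hκ).1).1 h2⟩
    · rintro ⟨D', s', h1, h2⟩
      obtain ⟨rfl, rfl⟩ := Prod.mk.inj (Option.some.inj h1)
      exact ⟨h2.1, (forall_lstQ fun κ hκ => (h2.1.2.2.1 κ hκ).1).2 h2.2⟩

theorem wit_iff {A : Oracle} {x w : List Bool} {D : Data} {s : ℕ} {e : Bool}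
    (h : dcd f x = some (D, s)) :
    (g2 f e (x, w) = true ∧ ∀ z ∈ q2 f (x, w), Nn A z = true) ↔
      ((D.2.1 * KK s + (2 * D.2.2.1 + e.toNat)) * qq s ≤ (unpair w).1.length ∧
        (unpair w).1.length < (D.2.1 * KK s + (2 * D.2.2.1 + e.toNat) + 1) * qq s ∧
        ((unpair w).2.length = 2 * D.1.length ∧ valB (unpair w).2 < NN D.1.length) ∧
        A ∈ Mk D.1.length (unpair w).1.length (unpair w).2) := by
  unfold g2 q2 rngB strB
  simp only [h, NC.Mem.lev_eq hfn h, Bool.and_eq_true, decide_eq_true_eq, List.mem_singleton,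
    forall_eq]
  have key : (unpair w).2.length = 2 * D.1.length →
      (Nn A (bits (D.1, (unpair w).1.map (fun _ => ()), (unpair w).2)) = true ↔
        A ∈ Mk D.1.length (unpair w).1.length (unpair w).2) := by
    intro h1
    rw [Nn_bits h1, List.length_map]
  constructor
  · rintro ⟨⟨⟨h1, h2⟩, h3, h4⟩, h5⟩
    exact ⟨h1, h2, ⟨h3, h4⟩, (key h3).1 h5⟩
  · rintro ⟨h1, h2, ⟨h3, h4⟩, h5⟩
    exact ⟨⟨⟨h1, h2⟩, h3, h4⟩, (key h3).2 h5⟩

/-- existence of short witnesses -/
theorem exists_wit {P : Polynomial ℕ} (hP : ∀ s, BB s * KK s * qq s + BB s + KK s + JJ s + qq s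
    + 2 ^ mm s + qq s * 2 ^ mm s ≤ P.eval s) {A : Oracle} {x : List Bool} {D : Data} {s : ℕ}
    {e : Bool} (h : dcd f x = some (D, s)) (hS : Syn s D)
    (hA : A ∉ Zero D.1.length s D.2.1 (2 * D.2.2.1 + e.toNat)) :
    ∃ w : List Bool, w.length ≤ (Polynomial.C 2 * P + Polynomial.C 2 * Polynomial.X +
      Polynomial.C 9).eval x.length ∧
      (g2 f e (x, w) = true ∧ ∀ z ∈ q2 f (x, w), Nn A z = true) := by
  obtain ⟨c, w, h1, h2, h3, h4⟩ := notMem_zero.1 hA
  obtain ⟨hx, hs⟩ := dcd_eq.1 h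
  refine ⟨pairBits (List.replicate c true) w, ?_, ?_⟩
  · rw [A2.length_pairBits, List.length_replicate, h3.1]
    have hn : D.1.length ≤ x.length := by
      rw [← hx, bits_length]
      have e1 := length_lt_sz D.1
      have e2 : sz D.1 ≤ sz D := by
        obtain ⟨l, b, j, L⟩ := D
        simp only [sz_pair]
        omega
      omega
    have e3 : c < P.eval s := by
      have e4 : D.2.1 * KK s + (2 * D.2.2.1 + e.toNat) + 1 ≤ BB s * KK s := by
        have e5 := hS.1
        have e6 := hS.2.1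
        have e7 : KK s = 2 * JJ s := rfl
        have e8 : e.toNat ≤ 1 := Bool.toNat_le e
        calc D.2.1 * KK s + (2 * D.2.2.1 + e.toNat) + 1 ≤ D.2.1 * KK s + KK s := by omega
          _ = (D.2.1 + 1) * KK s := by ring
          _ ≤ BB s * KK s := Nat.mul_le_mul_right _ e5
      have e9 := Nat.mul_le_mul_right (qq s) e4
      have e10 := hP s
      have e11 := Nat.zero_le (2 ^ mm s)
      have e12 := Nat.zero_le (qq s * 2 ^ mm s)
      have e13 : BB s * KK s * qq s + (BB s + KK s + JJ s + qq s + 2 ^ mm s + qq s * 2 ^ mm s) ≤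
        P.eval s := by
        linarith
      have e14 : BB s * KK s * qq s ≤ P.eval s := (Nat.le_add_right _ _).trans e13
      omega
    have e4 : P.eval s ≤ P.eval x.length :=
      eval_mono P ((hfn _ _ hs).trans hn)
    simp only [Polynomial.eval_add, Polynomial.eval_mul, Polynomial.eval_C, Polynomial.eval_X]
    omega
  · rw [wit_iff hfn h]
    simp only [unpair_pairBits, List.length_replicate]
    exact ⟨h1, h2, h3, h4⟩

end

theorem isFP_ver (A : Oracle) {g : List Bool × List Bool → Bool}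
    {q : List Bool × List Bool → List (List Bool)} (hg : Poly g) (hq : Poly q) :
    IsFP (chr (HitK A)) (ver (Nn A) g q) :=
  isFP_not (A := chr (HitK A)) (ver_isFP (Nn A) hg hq)

end Mem

open Mem

theorem isNP_LL (A : Oracle) (f : ℕ → Option ℕ) (hf : Poly (fun x : List Unit => f x.length))
    (hfn : ∀ n s, f n = some s → s ≤ n) : IsNP (chr (HitK A)) (LL f A) := by
  obtain ⟨P, hP⟩ := size_poly
  refine ⟨ver (Nn A) (fun p => g1 f p && g2 f false p) (fun p => q1 f p ++ q2 f p),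
    Polynomial.C 2 * P + Polynomial.C 2 * Polynomial.X + Polynomial.C 9,
    isFP_ver A (Poly.and (poly_g1 hf) (poly_g2 hf false)) (Poly.append (poly_q1 hf) (poly_q2 hf)),
    fun x => ?_⟩
  have key : ∀ w, ver (Nn A) (fun p => g1 f p && g2 f false p) (fun p => q1 f p ++ q2 f p)
      (pairBits x w) = [true] ↔ (g1 f (x, w) = true ∧ ∀ z ∈ q1 f (x, w), Nn A z = true) ∧
        (g2 f false (x, w) = true ∧ ∀ z ∈ q2 f (x, w), Nn A z = true) := by
    intro w
    rw [ver_iff]
    simp only [Bool.and_eq_true, List.mem_append]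
    constructor
    · rintro ⟨⟨h1, h2⟩, h3⟩
      exact ⟨⟨h1, fun z hz => h3 z (Or.inl hz)⟩, h2, fun z hz => h3 z (Or.inr hz)⟩
    · rintro ⟨⟨h1, h2⟩, h3, h4⟩
      exact ⟨⟨h1, h3⟩, fun z hz => hz.elim (h2 z) (h4 z)⟩
  constructor
  · rintro ⟨D, s, h1, h2, h3, h4⟩
    have hd : dcd f x = some (D, s) := dcd_eq.2 ⟨h1, h2⟩
    obtain ⟨w, h5, h6⟩ := exists_wit hfn hP (e := false) hd h3.1 h4
    exact ⟨w, h5, (key w).2 ⟨(cert_iff hfn).2 ⟨D, s, hd, h3⟩, h6⟩⟩
  · rintro ⟨w, -, h⟩
    obtain ⟨h1, h2⟩ := (key w).1 h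
    obtain ⟨D, s, hd, hc⟩ := (cert_iff hfn).1 h1
    rw [wit_iff hfn hd] at h2
    exact ⟨D, s, (dcd_eq.1 hd).1, (dcd_eq.1 hd).2, hc,
      notMem_zero.2 ⟨_, _, h2.1, h2.2.1, h2.2.2.1, h2.2.2.2⟩⟩

theorem isCoNP_LL (A : Oracle) (f : ℕ → Option ℕ) (hf : Poly (fun x : List Unit => f x.length))
    (hfn : ∀ n s, f n = some s → s ≤ n) (hA : ∀ n s, f n = some s → A ∉ Inv n s) :
    IsCoNP (chr (HitK A)) (LL f A) := by
  obtain ⟨P, hP⟩ := size_poly
  -- for correct certificates exactly one of the two slots is zero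
  have hex : ∀ x D s, dcd f x = some (D, s) → Cert A s D →
      (A ∈ Zero D.1.length s D.2.1 (2 * D.2.2.1) ↔
        A ∉ Zero D.1.length s D.2.1 (2 * D.2.2.1 + 1)) := by
    intro x D s hd hc
    have hI := hA _ _ (dcd_eq.1 hd).2
    have hO := others hc
    constructor
    · intro h1 h2
      exact hI (Or.inr ⟨D.2.1, hc.1.1, D.2.2.1, hc.1.2.1, hO, h1, h2⟩)
    · intro h1
      by_contra h2
      refine hI (Or.inl ⟨D.2.1, hc.1.1, fun i hi => ?_⟩)
      by_cases h3 : i = 2 * D.2.2.1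
      · rw [h3]; exact h2
      · by_cases h4 : i = 2 * D.2.2.1 + 1
        · rw [h4]; exact h1
        · exact hO i hi h3 h4
  have hF : Poly (fun z : List Bool =>
      if (unpair z).1 = [true] then (unpair z).2 else [true]) :=
    Poly.ite (Poly.decide_eq (Poly.fst poly_unpair) (NPC.Poly.const _)) (Poly.snd poly_unpair)
      (NPC.Poly.const _)
  have hV := IsFP.comp (IsFP.of_poly (A := chr (HitK A)) hF)
    (IsFP.pair (isFP_ver A (poly_g1 hf) (poly_q1 hf)) (isFP_ver A (poly_g2 hf true) (poly_q2 hf)))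
  refine ⟨_, Polynomial.C 2 * P + Polynomial.C 2 * Polynomial.X + Polynomial.C 9, hV,
    fun x => ?_⟩
  simp only [unpair_pairBits]
  constructor
  · intro hx
    by_cases hc : ∃ D s, dcd f x = some (D, s) ∧ Cert A s D
    · obtain ⟨D, s, hd, hc⟩ := hc
      have h1 : A ∈ Zero D.1.length s D.2.1 (2 * D.2.2.1) := by
        by_contra h2
        exact hx ⟨D, s, (dcd_eq.1 hd).1, (dcd_eq.1 hd).2, hc, h2⟩
      obtain ⟨w, h5, h6⟩ := exists_wit hfn hP (e := true) hd hc.1 ((hex x D s hd hc).1 h1)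
      refine ⟨w, h5, ?_⟩
      rw [if_pos (ver_iff.2 ((cert_iff hfn).2 ⟨D, s, hd, hc⟩))]
      exact ver_iff.2 h6
    · refine ⟨[], by simp, ?_⟩
      rw [if_neg fun h => hc ((cert_iff hfn).1 (ver_iff.1 h))]
  · rintro ⟨w, -, h⟩ ⟨D, s, h1, h2, h3, h4⟩
    have hd : dcd f x = some (D, s) := dcd_eq.2 ⟨h1, h2⟩
    rw [if_pos (ver_iff.2 ((cert_iff hfn).2 ⟨D, s, hd, h3⟩))] at h
    have h5 := ver_iff.1 h
    rw [wit_iff hfn hd] at h5
    exact h4 ((hex x D s hd h3).2 (notMem_zero.2 ⟨_, _, h5.1, h5.2.1, h5.2.2.1, h5.2.2.2⟩))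

end Pool.Agent.H583R2.S2
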