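import Pool.Agent.H583R2.S2.Defs
import Pool.Agent.H583R2.NC.Loc2
import Pool.Agent.H583R2.NC.NumA

/-!
# Locality, the system (task S6, helper369)
-/

set_option autoImplicit false

namespace Pool.Agent.H583R2.S2

open MeasureTheory Pool.Agent.NPC Pool.Agent.H628R3.RO
open Pool.Agent.H583R2.NC (wl rr qq mm uu vv JJ KK BB Data)

theorem mem_gc {n g : ℕ} {y : List Bool} {κ : Cand} : κ ∈ gc n g y ↔
    g * n ≤ κ.1 ∧ κ.1 < (g + 1) * n ∧ ∃ z : List Bool, z.length = wl n ∧ κ.2 = y ++ z := by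
  unfold gc
  rw [Finset.mem_product, Finset.mem_Ico, Finset.mem_image, and_assoc]
  refine and_congr_right fun _ => and_congr_right fun _ => ?_
  constructor
  · rintro ⟨v, -, h⟩
    exact ⟨List.ofFn v, List.length_ofFn, h.symm⟩
  · rintro ⟨z, hz, h⟩
    rw [h]
    rw [← hz]
    exact ⟨fun i => z.get i, Finset.mem_univ _, by rw [List.ofFn_get]⟩

theorem mem_Ys {n : ℕ} {y : List Bool} : y ∈ Ys n ↔ y.length = 2 * n ∧ valB y < NN n := by
  unfold Ys
  rw [Finset.mem_filter, Finset.mem_image]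
  refine and_congr_left fun _ => ?_
  constructor
  · rintro ⟨v, -, h⟩
    rw [← h, List.length_ofFn]
  · intro h
    rw [← h]
    exact ⟨fun i => y.get i, Finset.mem_univ _, List.ofFn_get y⟩

theorem card_gc (n g : ℕ) (y : List Bool) : (gc n g y).card = n * 2 ^ wl n := by
  unfold gc
  rw [Finset.card_product, Nat.card_Ico, Finset.card_image_of_injective]
  · have h : (g + 1) * n - g * n = n := by
      rw [add_mul, one_mul, Nat.add_sub_cancel_left]
    rw [h]
    simp
  · intro v w h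
    exact List.ofFn_injective (List.append_cancel_left h)

theorem S6_gc_eq {n g g' : ℕ} {y y' : List Bool} (hy : y.length = y'.length) {κ : Cand}
    (h : κ ∈ gc n g y) (h' : κ ∈ gc n g' y') : g = g' ∧ y = y' := by
  rw [mem_gc] at h h'
  obtain ⟨h1, h2, z, hz, h3⟩ := h
  obtain ⟨h1', h2', z', hz', h3'⟩ := h'
  constructor
  · rcases lt_trichotomy g g' with h4 | h4 | h4
    · exfalso
      have : (g + 1) * n ≤ g' * n := Nat.mul_le_mul_right _ h4
      omega
    · exact h4
    · exfalso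
      have : (g' + 1) * n ≤ g * n := Nat.mul_le_mul_right _ h4
      omega
  · rw [h3] at h3'
    exact (List.append_inj h3' hy).1

theorem gc_disjoint {n g g' : ℕ} {y y' : List Bool} (hy : y.length = y'.length)
    (h : (g, y) ≠ (g', y')) : Disjoint (gc n g y) (gc n g' y') := by
  rw [Finset.disjoint_left]
  intro κ h1 h2
  obtain ⟨h3, h4⟩ := S6_gc_eq hy h1 h2
  exact h (by rw [h3, h4])

theorem mem_prs {n s b i : ℕ} {x : ℕ × List Bool} : x ∈ prs n s b i ↔
    (b * KK s + i) * qq s ≤ x.1 ∧ x.1 < (b * KK s + i + 1) * qq s ∧ x.2 ∈ Ys n := by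
  unfold prs
  rw [Finset.mem_product, Finset.mem_Ico, and_assoc]

theorem length_of_mem_prs {n s b i : ℕ} {x : ℕ × List Bool} (h : x ∈ prs n s b i) :
    x.2.length = 2 * n := (mem_Ys.1 (mem_prs.1 h).2.2).1

theorem prs_disjoint {n s b i b' i' : ℕ} (hi : i < KK s) (hi' : i' < KK s)
    (h : b ≠ b' ∨ i ≠ i') : Disjoint (prs n s b i) (prs n s b' i') := by
  have h0 := NC.LOC_num hi hi' h
  rw [Finset.disjoint_left]
  intro x h1 h2
  rw [mem_prs] at h1 h2
  obtain ⟨a1, a2, _⟩ := h1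
  obtain ⟨b1, b2, _⟩ := h2
  rcases lt_or_gt_of_ne h0 with h' | h'
  · have : (b * KK s + i + 1) * qq s ≤ (b' * KK s + i') * qq s := Nat.mul_le_mul_right _ h'
    omega
  · have : (b' * KK s + i' + 1) * qq s ≤ (b * KK s + i) * qq s := Nat.mul_le_mul_right _ h'
    omega

theorem card_prs {n : ℕ} (hc : (Ys n).card = NN n) (s b i : ℕ) :
    (prs n s b i).card = qq s * NN n := by
  unfold prs
  rw [Finset.card_product, Nat.card_Ico, hc, add_mul _ 1, one_mul, Nat.add_sub_cancel_left]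

/-- a candidate belongs to the cell of one pair only -/
theorem S6_pair_eq {n s b i s' b' i' : ℕ} {x x' : ℕ × List Bool} (hx : x ∈ prs n s b i)
    (hx' : x' ∈ prs n s' b' i') {κ : Cand} (h : κ ∈ gc n x.1 x.2) (h' : κ ∈ gc n x'.1 x'.2) :
    x = x' := by
  obtain ⟨h1, h2⟩ := S6_gc_eq (by rw [length_of_mem_prs hx, length_of_mem_prs hx']) h h'
  exact Prod.ext h1 h2

theorem loc_Mk (n g : ℕ) (y : List Bool) :
    Loc ((allSpots (wl n) (gc n g y) : Finset (List Bool)) : Set (List Bool)) (Mk n g y) := by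
  unfold Mk
  apply M2.loc_noHit
  intro κ hκ l hl
  exact Finset.mem_coe.2 (mem_allSpots.2 ⟨κ, hκ, l, hl, rfl⟩)

theorem loc_Zero (n s b i : ℕ) : Loc (sp n s b i) (Zero n s b i) := by
  intro A A' h
  unfold Zero
  simp only [Set.mem_ofPred_eq]
  refine forall₂_congr fun x hx => not_congr (loc_Mk n x.1 x.2 A A' fun z hz => ?_)
  exact h z ⟨x, hx, Finset.mem_coe.1 hz⟩

theorem prob_Mk (n g : ℕ) (y : List Bool) : prob (Mk n g y) = dl n := by
  unfold Mk dl
  rw [prob_noHit, card_gc]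

theorem S6_mem_sp {n s b i : ℕ} {z : List Bool} : z ∈ sp n s b i ↔
    ∃ x ∈ prs n s b i, ∃ κ ∈ gc n x.1 x.2, ∃ l < wl n, z = pos κ.1 l κ.2 := by
  unfold sp
  simp only [Set.mem_ofPred_eq, mem_allSpots]

theorem S6_length {n g : ℕ} {y : List Bool} {κ : Cand} (hy : y.length = 2 * n)
    (h : κ ∈ gc n g y) : κ.2.length = 4 * n + 8 := by
  obtain ⟨-, -, z, hz, h3⟩ := mem_gc.1 h
  rw [h3, List.length_append, hy, hz]
  unfold wl
  omega

theorem lt_length_sp {n s b i : ℕ} : ∀ x ∈ sp n s b i, n < x.length := by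
  intro z hz
  obtain ⟨x, hx, κ, hκ, l, hl, rfl⟩ := S6_mem_sp.1 hz
  rw [length_pos, S6_length (length_of_mem_prs hx) hκ]
  omega

theorem length_sp : ∃ P : Polynomial ℕ, ∀ n s b i, s ≤ n → b < BB s → i < KK s →
    ∀ x ∈ sp n s b i, x.length ≤ P.eval n := by
  obtain ⟨P, hP⟩ := NC.size_poly
  refine ⟨P * Polynomial.X + Polynomial.C 6 * Polynomial.X + Polynomial.C 18, ?_⟩
  intro n s b i hsn hb hi z hz
  obtain ⟨x, hx, κ, hκ, l, hl, rfl⟩ := S6_mem_sp.1 hz
  have h1 := hP s
  have h2 : P.eval s ≤ P.eval n := eval_mono P hsn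
  rw [length_pos, S6_length (length_of_mem_prs hx) hκ]
  have h3 : BB s * KK s * qq s ≤ P.eval s := by
    refine le_trans ?_ h1
    generalize BB s * KK s * qq s = a1
    generalize qq s * 2 ^ mm s = a2
    generalize 2 ^ mm s = a3
    omega
  clear h1
  have h4 : (b * KK s + i + 1) * qq s ≤ BB s * KK s * qq s := by
    refine Nat.mul_le_mul_right _ ?_
    calc b * KK s + i + 1 ≤ b * KK s + KK s := by omega
      _ = (b + 1) * KK s := by ring
      _ ≤ BB s * KK s := Nat.mul_le_mul_right _ hb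
  have h5 : x.1 + 1 ≤ P.eval n := by
    have := (mem_prs.1 hx).2.1
    omega
  have h6 : κ.1 < (x.1 + 1) * n := (mem_gc.1 hκ).2.1
  have h7 : (x.1 + 1) * n ≤ P.eval n * n := Nat.mul_le_mul_right _ h5
  simp only [Polynomial.eval_add, Polynomial.eval_mul, Polynomial.eval_C, Polynomial.eval_X]
  unfold wl at hl
  generalize P.eval n * n = a at h7 ⊢
  generalize (x.1 + 1) * n = a' at h6 h7
  omega

theorem finite_sp (n s b i : ℕ) : (sp n s b i).Finite := by
  have : sp n s b i ⊆ (((prs n s b i).biUnion (fun x => allSpots (wl n) (gc n x.1 x.2)) :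
      Finset (List Bool)) : Set (List Bool)) := by
    rintro z ⟨x, hx, hz⟩
    rw [Finset.mem_coe, Finset.mem_biUnion]
    exact ⟨x, hx, hz⟩
  exact (Finset.finite_toSet _).subset this

theorem disjoint_sp {n s b i b' i' : ℕ} (hi : i < KK s) (hi' : i' < KK s)
    (h : b ≠ b' ∨ i ≠ i') : Disjoint (sp n s b i) (sp n s b' i') := by
  rw [Set.disjoint_left]
  intro z hz hz'
  obtain ⟨x, hx, κ, hκ, l, hl, h1⟩ := S6_mem_sp.1 hz
  obtain ⟨x', hx', κ', hκ', l', hl', h1'⟩ := S6_mem_sp.1 hz'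
  rw [h1] at h1'
  obtain ⟨h2, -, h3⟩ := pos_inj h1'
  have h4 : κ = κ' := Prod.ext h2 h3
  subst h4
  have h5 := S6_pair_eq hx hx' hκ hκ'
  subst h5
  exact Finset.disjoint_left.1 (prs_disjoint hi hi' h) hx hx'

theorem dl_nonneg (n : ℕ) : 0 ≤ dl n := by
  unfold dl
  apply pow_nonneg
  have : ((1 : ℝ) / 2) ^ wl n ≤ 1 := pow_le_one₀ (by norm_num) (by norm_num)
  linarith

theorem dl_le_one (n : ℕ) : dl n ≤ 1 := by
  unfold dl
  apply pow_le_one₀
  · have : ((1 : ℝ) / 2) ^ wl n ≤ 1 := pow_le_one₀ (by norm_num) (by norm_num)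
    linarith
  · have : 0 ≤ ((1 : ℝ) / 2) ^ wl n := by positivity
    linarith

/-- the pairs are independent -/
theorem prob_pairs (n : ℕ) (T : Finset (ℕ × List Bool)) (hT : ∀ x ∈ T, x.2.length = 2 * n) :
    prob {A | ∀ x ∈ T, A ∉ Mk n x.1 x.2} = (1 - dl n) ^ T.card := by
  classical
  induction T using Finset.induction_on with
  | empty =>
    have : {A : Oracle | ∀ x ∈ (∅ : Finset (ℕ × List Bool)), A ∉ Mk n x.1 x.2} = Set.univ := by
      ext A; simp
    rw [this, prob_univ', Finset.card_empty, pow_zero]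
  | insert a T ha ih =>
    have ih' := ih (fun x hx => hT x (Finset.mem_insert_of_mem hx))
    have h1 : {A : Oracle | ∀ x ∈ insert a T, A ∉ Mk n x.1 x.2} =
        {A | ∀ x ∈ T, A ∉ Mk n x.1 x.2} ∩ (Mk n a.1 a.2)ᶜ := by
      ext A
      simp only [Set.mem_ofPred_eq, Set.mem_inter_iff, Set.mem_compl_iff, Finset.mem_insert,
        forall_eq_or_imp]
      exact and_comm
    have h2 : Loc ((T.biUnion (fun x => allSpots (wl n) (gc n x.1 x.2)) :
        Finset (List Bool)) : Set (List Bool)) {A : Oracle | ∀ x ∈ T, A ∉ Mk n x.1 x.2} := by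
      intro A A' h
      simp only [Set.mem_ofPred_eq]
      refine forall₂_congr fun x hx => not_congr (loc_Mk n x.1 x.2 A A' fun z hz => h z ?_)
      rw [Finset.mem_coe, Finset.mem_biUnion]
      exact ⟨x, hx, Finset.mem_coe.1 hz⟩
    have h3 : Disjoint ((T.biUnion (fun x => allSpots (wl n) (gc n x.1 x.2)) :
        Finset (List Bool)) : Set (List Bool))
        ((allSpots (wl n) (gc n a.1 a.2) : Finset (List Bool)) : Set (List Bool)) := by
      rw [Set.disjoint_left]
      intro z hz hz'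
      rw [Finset.mem_coe, Finset.mem_biUnion] at hz
      obtain ⟨x, hx, hz⟩ := hz
      rw [Finset.mem_coe] at hz'
      obtain ⟨κ, hκ, l, hl, h4⟩ := mem_allSpots.1 hz
      obtain ⟨κ', hκ', l', hl', h4'⟩ := mem_allSpots.1 hz'
      rw [h4] at h4'
      obtain ⟨h5, -, h6⟩ := pos_inj h4'
      have h7 : κ = κ' := Prod.ext h5 h6
      subst h7
      obtain ⟨h8, h9⟩ := S6_gc_eq (by
        rw [hT x (Finset.mem_insert_of_mem hx), hT a (Finset.mem_insert_self a T)]) hκ hκ'
      exact ha ((Prod.ext h8 h9 : x = a) ▸ hx)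
    rw [h1, prob_inter_of_disjoint (Finset.finite_toSet _) (Finset.finite_toSet _) h3 h2
      (M2.Loc.compl (loc_Mk n a.1 a.2)), ih', Finset.card_insert_of_notMem ha, pow_succ]
    congr 1
    have h5 := M2.prob_inter_add_compl Set.univ
      (measurableSet_of_loc (Finset.finite_toSet _) (loc_Mk n a.1 a.2))
    rw [Set.univ_inter, Set.univ_inter, prob_univ', prob_Mk] at h5
    linarith

theorem prob_Zero {n : ℕ} (hc : (Ys n).card = NN n) (s b i : ℕ) :
    prob (Zero n s b i) = za n s := by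
  unfold Zero za
  rw [prob_pairs n _ (fun x hx => length_of_mem_prs hx), card_prs hc]

theorem za_nonneg (n s : ℕ) : 0 ≤ za n s := by
  unfold za
  apply pow_nonneg
  linarith [dl_le_one n]

theorem sys_S2_of {n s : ℕ} (hc : (Ys n).card = NN n) (hza : za n s ≤ (2 / 5) ^ qq s)
    (hs : 4 ≤ s) :
    BK.Sys (Zero n s) (sp n s) (za n s) (BB s) (JJ s) where
  fin := fun b _ i _ => finite_sp n s b i
  disj := fun _ _ _ hi _ _ _ hi' h => disjoint_sp hi hi' h
  loc := fun b _ i _ => loc_Zero n s b i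
  pr := fun b _ i _ => prob_Zero hc s b i
  a0 := za_nonneg n s
  a1 := by
    refine hza.trans ?_
    have h1 := NC.two_le_qq hs
    calc ((2 : ℝ) / 5) ^ qq s ≤ (2 / 5) ^ 2 := pow_le_pow_of_le_one (by norm_num) (by norm_num) h1
      _ ≤ 1 / 2 := by norm_num

/-- planting hits in other slots does not change the slot -/
theorem plant_Zero {n s b i : ℕ} {h : Finset Cand}
    (hd : ∀ κ ∈ h, ∀ x ∈ prs n s b i, κ ∉ gc n x.1 x.2) (A : Oracle) :
    plant (allSpots (wl n) h) A ∈ Zero n s b i ↔ A ∈ Zero n s b i := by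
  unfold Zero Mk NoHit
  simp only [Set.mem_ofPred_eq]
  refine forall₂_congr fun x hx => not_congr (forall₂_congr fun κ hκ => not_congr ?_)
  exact M2.hit_plant (fun hκ' => hd κ hκ' x hx hκ) A

theorem S6_disj {n s b b' i j : ℕ} {h : Finset Cand} (hj : j < JJ s)
    (hh : ∀ κ ∈ h, ∃ x ∈ prs n s b (2 * j) ∪ prs n s b (2 * j + 1), κ ∈ gc n x.1 x.2)
    (hi : i < KK s) (hne : b ≠ b' ∨ (i ≠ 2 * j ∧ i ≠ 2 * j + 1)) :
    ∀ κ ∈ h, ∀ x ∈ prs n s b' i, κ ∉ gc n x.1 x.2 := by
  intro κ hκ x hx hκx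
  obtain ⟨x', hx', hκ'⟩ := hh κ hκ
  have hj1 : 2 * j < KK s := by unfold KK; omega
  have hj2 : 2 * j + 1 < KK s := by unfold KK; omega
  rcases Finset.mem_union.1 hx' with hx' | hx'
  · have h1 := S6_pair_eq hx' hx hκ' hκx
    subst h1
    refine Finset.disjoint_left.1 (prs_disjoint hj1 hi ?_) hx' hx
    rcases hne with hne | hne
    · exact Or.inl hne
    · exact Or.inr (Ne.symm hne.1)
  · have h1 := S6_pair_eq hx' hx hκ' hκx
    subst h1
    refine Finset.disjoint_left.1 (prs_disjoint hj2 hi ?_) hx' hx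
    rcases hne with hne | hne
    · exact Or.inl hne
    · exact Or.inr (Ne.symm hne.2)

theorem plant_Others {n s b j : ℕ} {h : Finset Cand} (hj : j < JJ s)
    (hh : ∀ κ ∈ h, ∃ x ∈ prs n s b (2 * j) ∪ prs n s b (2 * j + 1), κ ∈ gc n x.1 x.2)
    (A : Oracle) :
    plant (allSpots (wl n) h) A ∈ Others n s b j ↔ A ∈ Others n s b j := by
  unfold Others BK.Others
  simp only [Set.mem_ofPred_eq]
  exact forall₂_congr fun i hi => forall₂_congr fun h1 h2 => not_congr
    (plant_Zero (S6_disj hj hh hi (Or.inr ⟨h1, h2⟩)) A)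

theorem plant_Quiet {n s b j : ℕ} {h : Finset Cand} (hj : j < JJ s)
    (hh : ∀ κ ∈ h, ∃ x ∈ prs n s b (2 * j) ∪ prs n s b (2 * j + 1), κ ∈ gc n x.1 x.2)
    (A : Oracle) :
    plant (allSpots (wl n) h) A ∈ BK.Quiet (Zero n s) (BB s) (JJ s) b ↔
      A ∈ BK.Quiet (Zero n s) (BB s) (JJ s) b := by
  unfold BK.Quiet
  simp only [Set.mem_ofPred_eq]
  refine forall₂_congr fun b' hb' => forall_congr' fun hne => ?_
  have hz : ∀ i, i < 2 * JJ s →
      (plant (allSpots (wl n) h) A ∈ Zero n s b' i ↔ A ∈ Zero n s b' i) := fun i hi =>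
    plant_Zero (S6_disj hj hh hi (Or.inl (Ne.symm hne))) A
  refine and_congr (not_congr ?_) (not_congr ?_)
  · unfold BK.AllHit
    simp only [Set.mem_ofPred_eq]
    exact forall₂_congr fun i hi => not_congr (hz i hi)
  · unfold BK.One
    simp only [Set.mem_ofPred_eq]
    refine exists_congr fun i₀ => and_congr_right fun hi₀ => and_congr (hz i₀ hi₀) ?_
    exact forall₂_congr fun i hi => forall_congr' fun _ => not_congr (hz i hi)

/-- planting hits of the stage does not change events on short strings -/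
theorem plant_short {n s b j t : ℕ} (ht : t ≤ n) {η : Set Oracle}
    (hη : Loc {x | x.length ≤ t} η) {h : Finset Cand}
    (hh : ∀ κ ∈ h, ∃ x ∈ prs n s b (2 * j) ∪ prs n s b (2 * j + 1), κ ∈ gc n x.1 x.2)
    (A : Oracle) : plant (allSpots (wl n) h) A ∈ η ↔ A ∈ η := by
  apply hη
  intro z hz
  have hz' : z.length ≤ t := hz
  unfold plant
  rw [if_neg]
  intro hmem
  rw [mem_allSpots] at hmem
  obtain ⟨κ, hκ, l, hl, rfl⟩ := hmem
  obtain ⟨x, hx, hκx⟩ := hh κ hκ
  have h1 : x.2.length = 2 * n := by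
    rcases Finset.mem_union.1 hx with hx | hx
    · exact length_of_mem_prs hx
    · exact length_of_mem_prs hx
  rw [length_pos, S6_length h1 hκx] at hz'
  omega

theorem plant_eta {n s b j : ℕ} (_hb : b < BB s) (hj : j < JJ s) {t : ℕ} (ht : t ≤ n)
    {η : Set Oracle} (hη : Loc {x | x.length ≤ t} η) {h : Finset Cand}
    (hh : ∀ κ ∈ h, ∃ x ∈ prs n s b (2 * j) ∪ prs n s b (2 * j + 1), κ ∈ gc n x.1 x.2)
    (A : Oracle) : plant (allSpots (wl n) h) A ∈ η ∩ (BK.Quiet (Zero n s) (BB s) (JJ s) b ∩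
      Others n s b j) ↔ A ∈ η ∩ (BK.Quiet (Zero n s) (BB s) (JJ s) b ∩ Others n s b j) := by
  simp only [Set.mem_inter_iff]
  rw [plant_short ht hη hh A, plant_Quiet hj hh A, plant_Others hj hh A]

theorem loc_eta {n s b j t : ℕ} (hb : b < BB s) (_hj : j < JJ s)
    {η : Set Oracle} (hη : Loc {x | x.length ≤ t} η) :
    Loc ({x | x.length ≤ t} ∪ {z | ∃ b' < BB s, ∃ i < KK s, z ∈ sp n s b' i})
      (η ∩ (BK.Quiet (Zero n s) (BB s) (JJ s) b ∩ Others n s b j)) := by
  intro A A' h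
  have h1 : A ∈ η ↔ A' ∈ η := hη A A' fun x hx => h x (Or.inl hx)
  have hz : ∀ b' < BB s, ∀ i < KK s, (A ∈ Zero n s b' i ↔ A' ∈ Zero n s b' i) :=
    fun b' hb' i hi => loc_Zero n s b' i A A' fun z hz => h z (Or.inr ⟨b', hb', i, hi, hz⟩)
  have h2 : A ∈ Others n s b j ↔ A' ∈ Others n s b j := by
    unfold Others BK.Others
    simp only [Set.mem_ofPred_eq]
    exact forall₂_congr fun i hi => forall₂_congr fun _ _ => not_congr (hz b hb i hi)
  have h3 : A ∈ BK.Quiet (Zero n s) (BB s) (JJ s) b ↔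
      A' ∈ BK.Quiet (Zero n s) (BB s) (JJ s) b := by
    unfold BK.Quiet
    simp only [Set.mem_ofPred_eq]
    refine forall₂_congr fun b' hb' => forall_congr' fun hne => ?_
    refine and_congr (not_congr ?_) (not_congr ?_)
    · unfold BK.AllHit
      simp only [Set.mem_ofPred_eq]
      exact forall₂_congr fun i hi => not_congr (hz b' hb' i hi)
    · unfold BK.One
      simp only [Set.mem_ofPred_eq]
      refine exists_congr fun i₀ => and_congr_right fun hi₀ => and_congr (hz b' hb' i₀ hi₀) ?_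
      exact forall₂_congr fun i hi => forall_congr' fun _ => not_congr (hz b' hb' i hi)
  simp only [Set.mem_inter_iff]
  rw [h1, h2, h3]

end Pool.Agent.H583R2.S2
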