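import Pool.Agent.H583R2.S2.Defs
import Pool.Agent.H583R2.NC.Inst

/-!
# Hidden blocks one level higher: the instances
-/

namespace Pool.Agent.H583R2.S2

open MeasureTheory Pool.Agent.NPC Pool.Agent.H628R3.RO
open Pool.Agent.H583R2.NC (wl rr qq mm uu vv JJ KK BB Data cd size_poly)

namespace Inst

theorem ofFn_cast {y : List Bool} {m : ℕ} (h : y.length = m) :
    List.ofFn (fun i : Fin m => y.get (Fin.cast h.symm i)) = y := by
  subst h
  exact List.ofFn_get y

theorem mem_gc {n g : ℕ} {y : List Bool} {κ : Cand} : κ ∈ gc n g y ↔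
    g * n ≤ κ.1 ∧ κ.1 < (g + 1) * n ∧ ∃ z : List Bool, z.length = wl n ∧ κ.2 = y ++ z := by
  unfold gc
  rw [Finset.mem_product, Finset.mem_Ico, Finset.mem_image, and_assoc]
  refine and_congr_right fun _ => and_congr_right fun _ => ?_
  constructor
  · rintro ⟨v, -, h⟩
    exact ⟨List.ofFn v, by rw [List.length_ofFn], h.symm⟩
  · rintro ⟨z, hz, h⟩
    refine ⟨fun i => z.get (Fin.cast hz.symm i), Finset.mem_univ _, ?_⟩
    rw [h, ofFn_cast hz]

theorem mem_Ys {n : ℕ} {y : List Bool} : y ∈ Ys n ↔ y.length = 2 * n ∧ valB y < NN n := by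
  unfold Ys
  rw [Finset.mem_filter, Finset.mem_image]
  refine and_congr_left fun _ => ?_
  constructor
  · rintro ⟨v, -, h⟩
    rw [← h, List.length_ofFn]
  · intro hz
    exact ⟨fun i => y.get (Fin.cast hz.symm i), Finset.mem_univ _, ofFn_cast hz⟩

theorem mem_prs {n s b i : ℕ} {x : ℕ × List Bool} : x ∈ prs n s b i ↔
    (b * KK s + i) * qq s ≤ x.1 ∧ x.1 < (b * KK s + i + 1) * qq s ∧ x.2.length = 2 * n ∧
      valB x.2 < NN n := by
  unfold prs
  rw [Finset.mem_product, Finset.mem_Ico, mem_Ys, and_assoc]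

theorem prs_eq_of_mem {n s b i i' : ℕ} {x : ℕ × List Bool} (h : x ∈ prs n s b i)
    (h' : x ∈ prs n s b i') : i = i' := by
  rw [mem_prs] at h h'
  have h1 := Nat.lt_of_mul_lt_mul_right (h.1.trans_lt h'.2.1)
  have h2 := Nat.lt_of_mul_lt_mul_right (h'.1.trans_lt h.2.1)
  omega

theorem eq_of_mem_gc {n g g' : ℕ} {y y' : List Bool} (hy : y.length = y'.length) {κ : Cand}
    (h : κ ∈ gc n g y) (h' : κ ∈ gc n g' y') : (g, y) = (g', y') := by
  rw [mem_gc] at h h'
  obtain ⟨h1, h2, z, -, h3⟩ := h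
  obtain ⟨h1', h2', z', -, h3'⟩ := h'
  have h4 := Nat.lt_of_mul_lt_mul_right (h1.trans_lt h2')
  have h5 := Nat.lt_of_mul_lt_mul_right (h1'.trans_lt h2)
  have h6 : y ++ z = y' ++ z' := h3.symm.trans h3'
  have h7 := (List.append_inj h6 hy).1
  have h8 : g = g' := by omega
  rw [h7, h8]

theorem mem_pickMk {n s b i : ℕ} {A : Oracle} {x : List Unit × List Bool}
    (h : pickMk n s b i A = some x) : cd x ∈ prs n s b i ∧ A ∈ Mk n (cd x).1 (cd x).2 := by
  classical
  unfold pickMk at h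
  rw [Option.map_eq_some_iff] at h
  obtain ⟨κ, hκ, rfl⟩ := h
  have h1 := List.mem_of_mem_head? (Option.mem_def.2 hκ)
  rw [Finset.mem_toList, Finset.mem_filter] at h1
  rw [NC.Inst.cd_mk]
  exact h1

theorem exists_pickMk {n s b i : ℕ} {A : Oracle} (h : A ∉ Zero n s b i) :
    ∃ x, pickMk n s b i A = some x := by
  classical
  by_contra hx
  apply h
  intro κ hκ hh
  have h0 : pickMk n s b i A = none := by
    rcases h1 : pickMk n s b i A with _ | x
    · rfl
    · exact absurd ⟨x, h1⟩ hx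
  unfold pickMk at h0
  rw [Option.map_eq_none_iff, List.head?_eq_none_iff] at h0
  have h2 : κ ∈ (((prs n s b i).filter (fun x => A ∈ Mk n x.1 x.2)).toList) := by
    rw [Finset.mem_toList, Finset.mem_filter]
    exact ⟨hκ, hh⟩
  rw [h0] at h2
  exact absurd h2 List.not_mem_nil

theorem pickMk_congr {n s b i : ℕ} {A A' : Oracle}
    (h : ∀ x ∈ prs n s b i, (A ∈ Mk n x.1 x.2 ↔ A' ∈ Mk n x.1 x.2)) :
    pickMk n s b i A = pickMk n s b i A' := by
  classical
  unfold pickMk
  rw [Finset.filter_congr h]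

theorem certs_congr {n s b j : ℕ} {A A' : Oracle}
    (h : ∀ i < KK s, i ≠ 2 * j → i ≠ 2 * j + 1 → pickMk n s b i A = pickMk n s b i A') :
    certs n s b j A = certs n s b j A' := by
  unfold certs
  apply List.filterMap_congr
  intro i hi
  rw [List.mem_filter, List.mem_range, decide_eq_true_eq] at hi
  exact h i hi.1 hi.2.1 hi.2.2

theorem inst_of_certs {n s b j : ℕ} {A A' : Oracle} (h : certs n s b j A = certs n s b j A') :
    inst n s b j A = inst n s b j A' := by
  unfold inst instD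
  rw [h]

theorem mem_certs {n s b j : ℕ} {A : Oracle} {x : List Unit × List Bool}
    (hx : x ∈ certs n s b j A) :
    ∃ i < KK s, i ≠ 2 * j ∧ i ≠ 2 * j + 1 ∧ cd x ∈ prs n s b i ∧ A ∈ Mk n (cd x).1 (cd x).2 := by
  unfold certs at hx
  rw [List.mem_filterMap] at hx
  obtain ⟨i, hi, h⟩ := hx
  rw [List.mem_filter, List.mem_range, decide_eq_true_eq] at hi
  exact ⟨i, hi.1, hi.2.1, hi.2.2, mem_pickMk h⟩

theorem exists_certs {n s b j i : ℕ} {A : Oracle} (hi : i < KK s) (h1 : i ≠ 2 * j)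
    (h2 : i ≠ 2 * j + 1) (h : A ∉ Zero n s b i) : ∃ x ∈ certs n s b j A, cd x ∈ prs n s b i := by
  obtain ⟨x, hx⟩ := exists_pickMk h
  refine ⟨x, ?_, (mem_pickMk hx).1⟩
  unfold certs
  rw [List.mem_filterMap]
  refine ⟨i, ?_, hx⟩
  rw [List.mem_filter, List.mem_range, decide_eq_true_eq]
  exact ⟨hi, h1, h2⟩

theorem length_certs (n s b j : ℕ) (A : Oracle) : (certs n s b j A).length ≤ KK s := by
  unfold certs
  refine (List.length_filterMap_le _ _).trans ?_
  refine (List.length_filter_le _ _).trans ?_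
  rw [List.length_range]

theorem Mk_congr {n g : ℕ} {y : List Bool} {A A' : Oracle}
    (h : ∀ κ ∈ gc n g y, (Hit (wl n) κ A ↔ Hit (wl n) κ A')) :
    A ∈ Mk n g y ↔ A' ∈ Mk n g y := by
  unfold Mk NoHit
  exact forall₂_congr fun κ hκ => not_congr (h κ hκ)

end Inst

open Inst

theorem inst_length : ∃ P : Polynomial ℕ, ∀ n s b j A, s ≤ n → b < BB s → j < JJ s →
    (inst n s b j A).length ≤ P.eval n := by
  obtain ⟨P, hP⟩ := size_poly
  refine ⟨Polynomial.C 100 * (Polynomial.X + P + 1) * (Polynomial.X + P + 1), ?_⟩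
  intro n s b j A hs hb hj
  have h1 : BB s * KK s * qq s + BB s + KK s + JJ s ≤ P.eval s := by
    have h0 := hP s
    generalize 2 ^ mm s = z at h0
    omega
  have h2 : P.eval s ≤ P.eval n := eval_mono P hs
  set N := P.eval n with hN
  have hb' : b ≤ N := by omega
  have hj' : j ≤ N := by omega
  have hK : KK s ≤ N := by omega
  have hlen := length_certs n s b j A
  have hsz : ∀ x ∈ certs n s b j A, sz x ≤ 2 * N + 4 * (2 * n) + 3 := by
    rintro x hx
    obtain ⟨i, hi, -, -, hsl, -⟩ := mem_certs hx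
    obtain ⟨-, h3, h4, -⟩ := mem_prs.1 hsl
    have h5 : (b * KK s + i + 1) * qq s ≤ BB s * KK s * qq s := by
      apply Nat.mul_le_mul_right
      have h6 : (b + 1) * KK s ≤ BB s * KK s := Nat.mul_le_mul_right _ hb
      rw [add_mul, one_mul] at h6
      omega
    have h6 : x = (List.replicate x.1.length (), x.2) := by
      refine Prod.ext ?_ rfl
      exact List.eq_replicate_of_mem fun _ _ => rfl
    have h7 : sz x = sz (List.replicate x.1.length ()) + sz x.2 + 1 := by
      conv_lhs => rw [h6]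
      rw [sz_pair]
    have h8 := sz_listBool_le x.2
    have h9 : x.2.length = 2 * n := h4
    have h10 : x.1.length < (b * KK s + i + 1) * qq s := h3
    rw [h7, NC.Inst.sz_unit_replicate]
    omega
  have hc := sz_le_length_mul (certs n s b j A) _ hsz
  have hbz := sz_nat_le b
  have hjz := sz_nat_le j
  have hbs : b.size ≤ b := Nat.size_le.2 Nat.lt_two_pow_self
  have hjs : j.size ≤ j := Nat.size_le.2 Nat.lt_two_pow_self
  have hL : (inst n s b j A).length = sz (List.replicate n ()) +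
      (sz b + (sz j + sz (certs n s b j A) + 1) + 1) + 1 := by
    unfold inst instD
    rw [bits_length, sz_pair, sz_pair, sz_pair]
  rw [hL, NC.Inst.sz_unit_replicate]
  have hc2 : sz (certs n s b j A) ≤ N * (2 * N + 4 * (2 * n) + 3 + 1) + 1 :=
    hc.trans (by gcongr; omega)
  simp only [Polynomial.eval_add, Polynomial.eval_mul, Polynomial.eval_C, Polynomial.eval_X,
    Polynomial.eval_one, ← hN]
  nlinarith [Nat.zero_le (N * n), Nat.zero_le (N * N), Nat.zero_le (n * n), Nat.zero_le N,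
    Nat.zero_le n]

theorem inst_plant {n s b j : ℕ} (hb : b < BB s) (hj : j < JJ s) {h : Finset Cand}
    (hh : ∀ κ ∈ h, ∃ x ∈ prs n s b (2 * j) ∪ prs n s b (2 * j + 1), κ ∈ gc n x.1 x.2)
    (A : Oracle) : inst n s b j (plant (allSpots (wl n) h) A) = inst n s b j A := by
  apply inst_of_certs
  apply certs_congr
  intro i hi h1 h2
  apply pickMk_congr
  intro x hx
  apply Mk_congr
  intro κ hκ
  apply M2.hit_plant
  intro hκ'
  obtain ⟨x', hx', hκx'⟩ := hh κ hκ'
  rcases Finset.mem_union.1 hx' with h3 | h3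
  · have hl : x.2.length = x'.2.length := by rw [(mem_prs.1 hx).2.2.1, (mem_prs.1 h3).2.2.1]
    have he : x = x' := eq_of_mem_gc hl hκ hκx'
    rw [← he] at h3
    exact h1 (prs_eq_of_mem hx h3)
  · have hl : x.2.length = x'.2.length := by rw [(mem_prs.1 hx).2.2.1, (mem_prs.1 h3).2.2.1]
    have he : x = x' := eq_of_mem_gc hl hκ hκx'
    rw [← he] at h3
    exact h2 (prs_eq_of_mem hx h3)

theorem inst_congr {n s b j : ℕ} {A A' : Oracle}
    (h : ∀ i < KK s, ∀ x ∈ sp n s b i, A x = A' x) : inst n s b j A = inst n s b j A' := by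
  apply inst_of_certs
  apply certs_congr
  intro i hi h1 h2
  apply pickMk_congr
  intro x hx
  apply Mk_congr
  intro κ hκ
  unfold Hit
  refine forall₂_congr fun l hl => ?_
  rw [h i hi (pos κ.1 l κ.2) ⟨x, hx, mem_allSpots.2 ⟨κ, hκ, l, hl, rfl⟩⟩]

theorem inst_cert {n s b j : ℕ} (hb : b < BB s) (hj : j < JJ s) {A : Oracle}
    (hA : A ∈ Others n s b j) : Cert A s (instD n s b j A) := by
  have hlen : (List.replicate n ()).length = n := List.length_replicate
  refine ⟨⟨hb, hj, ?_, ?_⟩, ?_⟩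
  · intro κ hκ
    obtain ⟨i, -, -, -, h1, -⟩ := mem_certs hκ
    show κ.2.length = 2 * (List.replicate n ()).length ∧ valB κ.2 < NN (List.replicate n ()).length
    rw [hlen]
    exact ⟨(mem_prs.1 h1).2.2.1, (mem_prs.1 h1).2.2.2⟩
  · intro i hi h1 h2
    obtain ⟨x, hx, hx'⟩ := exists_certs hi h1 h2 (hA i hi h1 h2)
    have h3 := mem_prs.1 hx'
    exact ⟨x, hx, h3.1, h3.2.1⟩
  · intro κ hκ
    obtain ⟨i, -, -, -, -, h1⟩ := mem_certs hκ
    show A ∈ Mk (List.replicate n ()).length κ.1.length κ.2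
    rw [hlen]
    exact h1

end Pool.Agent.H583R2.S2
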