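import Pool.Agent.H583R2.S2.Defs
import Pool.Agent.H628R3.RO.A1
import Pool.Agent.H628R3.RO.D2

/-!
# Machines with an `NP` oracle (task S3, helper287)
-/

set_option autoImplicit false

namespace Pool.Agent.H583R2.S2

open MeasureTheory Pool.Agent.NPC Pool.Agent.H628R3.RO

/-- a finite set of strings for every computation -/
theorem Run_exists_Q (V : Alg) : ∃ (qb : Polynomial ℕ) (Q : Oracle → List Bool →
    Finset (List Bool)), ∀ A x, (Q A x).card ≤ V.p.eval x.length ∧
      (∀ q ∈ Q A x, q.length ≤ qb.eval x.length) ∧
      ∀ A' : Oracle, (∀ q ∈ Q A x, A' q = A q) → V.out A' x = V.out A x := by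
  obtain ⟨qb, h⟩ := V.out_local
  choose Q hQ using h
  exact ⟨qb, Q, hQ⟩

open Classical in
/-- the strings touched by a question -/
noncomputable def tch (V : Alg) (p : Polynomial ℕ) (Q : Oracle → List Bool → Finset (List Bool))
    (A : Oracle) (u : List Bool) : Finset (List Bool) :=
  if h : Wit V p u A then Q A (pairBits u (Classical.choose h)) else ∅

/-- the strings touched by a run -/
noncomputable def Run_touched (V : Alg) (p : Polynomial ℕ) (Q : Oracle → List Bool → Finset (List Bool))
    (M : Alg) (A : Oracle) (x : List Bool) : ℕ → List Bool → Finset (List Bool)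
  | 0, _ => ∅
  | n + 1, a =>
    match M.D (pairBits x a) with
    | [] => ∅
    | true :: _ => ∅
    | false :: q => tch V p Q A q ∪ Run_touched V p Q M A x n (a ++ [KO V p A q])

theorem Run_wit {V : Alg} {p : Polynomial ℕ} {Q : Oracle → List Bool → Finset (List Bool)}
    (hQ : ∀ A x (A' : Oracle), (∀ q ∈ Q A x, A' q = A q) → V.out A' x = V.out A x)
    {A A' : Oracle} {u : List Bool} (h : ∀ z ∈ tch V p Q A u, A z = A' z) (hw : Wit V p u A) :
    Wit V p u A' := by
  unfold tch at h
  rw [dif_pos hw] at h
  obtain ⟨h1, h2⟩ := Classical.choose_spec hw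
  exact ⟨Classical.choose hw, h1, (hQ A _ A' fun q hq => (h q hq).symm).trans h2⟩

theorem Run_agree {V : Alg} {p : Polynomial ℕ} {Q : Oracle → List Bool → Finset (List Bool)}
    (hQ : ∀ A x (A' : Oracle), (∀ q ∈ Q A x, A' q = A q) → V.out A' x = V.out A x)
    (M : Alg) (A A' : Oracle) (x : List Bool) : ∀ (n : ℕ) (a : List Bool),
    (∀ z ∈ Run_touched V p Q M A x n a, A z = A' z) →
    (∀ z ∈ Run_touched V p Q M A' x n a, A z = A' z) →
    M.run (KO V p A) x n a = M.run (KO V p A') x n a := by
  intro n
  induction n with
  | zero => intro a _ _; rfl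
  | succ n ih =>
    intro a h h'
    rcases hq : M.D (pairBits x a) with _ | ⟨c, q⟩
    · simp only [Alg.run, hq]
    · cases c with
      | true => simp only [Alg.run, hq]
      | false =>
        simp only [Run_touched, hq, Finset.mem_union] at h h'
        have h1 : KO V p A q = KO V p A' q := by
          have h2 : q ∈ {u | Wit V p u A} ↔ q ∈ {u | Wit V p u A'} := by
            constructor
            · intro hw
              exact Run_wit hQ (fun z hz => h z (Or.inl hz)) hw
            · intro hw
              exact Run_wit hQ (fun z hz => (h' z (Or.inl hz)).symm) hw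
          unfold KO chr
          exact decide_eq_decide.2 h2
        simp only [Alg.run, hq]
        rw [← h1] at h' ⊢
        exact ih _ (fun z hz => h z (Or.inr hz)) (fun z hz => h' z (Or.inr hz))

theorem Run_card {V : Alg} {p : Polynomial ℕ} {Q : Oracle → List Bool → Finset (List Bool)}
    (M : Alg) (A : Oracle) (x : List Bool) {b c : ℕ}
    (hb : ∀ a : List Bool, a.length ≤ M.p.eval x.length → (M.D (pairBits x a)).length ≤ b)
    (hc : ∀ u : List Bool, u.length ≤ b → (tch V p Q A u).card ≤ c) : ∀ (n : ℕ) (a : List Bool),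
    a.length + n ≤ M.p.eval x.length → (Run_touched V p Q M A x n a).card ≤ n * c := by
  intro n
  induction n with
  | zero => intro a _; simp [Run_touched]
  | succ n ih =>
    intro a ha
    have hD := hb a (by omega)
    rcases hq : M.D (pairBits x a) with _ | ⟨e, q⟩
    · simp [Run_touched, hq]
    · cases e with
      | true => simp [Run_touched, hq]
      | false =>
        simp only [Run_touched, hq]
        rw [hq, List.length_cons] at hD
        refine (Finset.card_union_le _ _).trans ?_
        have h1 := hc q (by omega)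
        have h2 := ih (a ++ [KO V p A q]) (by
          rw [List.length_append, List.length_singleton]; omega)
        rw [add_mul, one_mul]
        omega

theorem Run_len {V : Alg} {p : Polynomial ℕ} {Q : Oracle → List Bool → Finset (List Bool)}
    (M : Alg) (A : Oracle) (x : List Bool) {b c : ℕ}
    (hb : ∀ a : List Bool, a.length ≤ M.p.eval x.length → (M.D (pairBits x a)).length ≤ b)
    (hc : ∀ u : List Bool, u.length ≤ b → ∀ z ∈ tch V p Q A u, z.length ≤ c) :
    ∀ (n : ℕ) (a : List Bool), a.length + n ≤ M.p.eval x.length →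
      ∀ z ∈ Run_touched V p Q M A x n a, z.length ≤ c := by
  intro n
  induction n with
  | zero => intro a _ z hz; simp [Run_touched] at hz
  | succ n ih =>
    intro a ha z hz
    have hD := hb a (by omega)
    rcases hq : M.D (pairBits x a) with _ | ⟨e, q⟩
    · simp [Run_touched, hq] at hz
    · cases e with
      | true => simp [Run_touched, hq] at hz
      | false =>
        simp only [Run_touched, hq, Finset.mem_union] at hz
        rw [hq, List.length_cons] at hD
        rcases hz with hz | hz
        · exact hc q (by omega) z hz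
        · exact ih (a ++ [KO V p A q]) (by
            rw [List.length_append, List.length_singleton]; omega) z hz

/-- both statements together -/
theorem run_both (V : Alg) (p : Polynomial ℕ) (M : Alg) : ∃ T T' : Polynomial ℕ,
    ∃ Q : Oracle → List Bool → Finset (List Bool),
      (∀ A x, (Q A x).card ≤ T.eval x.length) ∧
      (∀ A x, ∀ z ∈ Q A x, z.length ≤ T'.eval x.length) ∧
      ∀ A A' x, (∀ z ∈ Q A x, A z = A' z) → (∀ z ∈ Q A' x, A z = A' z) →
        M.out (KO V p A) x = M.out (KO V p A') x := by
  obtain ⟨qb, Q, hQ⟩ := Run_exists_Q V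
  obtain ⟨b, hb⟩ := M.next_length
  obtain ⟨R, hR⟩ : ∃ R : Polynomial ℕ, R = Polynomial.C 2 * b + Polynomial.C 1 + p.comp b :=
    ⟨_, rfl⟩
  have hRe : ∀ n, R.eval n = 2 * b.eval n + 1 + p.eval (b.eval n) := by
    intro n
    rw [hR]
    simp only [Polynomial.eval_add, Polynomial.eval_comp, Polynomial.eval_mul, Polynomial.eval_C]
  have hlen : ∀ (A : Oracle) (x u : List Bool) (hu : u.length ≤ b.eval x.length)
      (hw : Wit V p u A), (pairBits u (Classical.choose hw)).length ≤ R.eval x.length := by
    intro A x u hu hw
    obtain ⟨h1, -⟩ := Classical.choose_spec hw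
    rw [length_pairBits, hRe]
    have h2 := eval_mono p hu
    omega
  refine ⟨M.p * V.p.comp R, qb.comp R,
    fun A x => Run_touched V p Q M A x (M.p.eval x.length) [], ?_, ?_, ?_⟩
  · intro A x
    rw [Polynomial.eval_mul, Polynomial.eval_comp]
    refine Run_card M A x (hb x) (fun u hu => ?_) _ _ (by simp)
    unfold tch
    split_ifs with hw
    · exact (hQ A _).1.trans (eval_mono _ (hlen A x u hu hw))
    · simp
  · intro A x
    rw [Polynomial.eval_comp]
    refine Run_len M A x (hb x) (fun u hu z hz => ?_) _ _ (by simp)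
    unfold tch at hz
    split_ifs at hz with hw
    · exact ((hQ A _).2.1 z hz).trans (eval_mono _ (hlen A x u hu hw))
    · simp at hz
  · intro A A' x h h'
    exact Run_agree (fun A x => (hQ A x).2.2) M A A' x _ _ h h'

theorem run_touch (V : Alg) (p : Polynomial ℕ) (M : Alg) : ∃ T : Polynomial ℕ,
    ∃ Q : Oracle → List Bool → Finset (List Bool),
      (∀ A x, (Q A x).card ≤ T.eval x.length) ∧
      ∀ A A' x, (∀ z ∈ Q A x, A z = A' z) → (∀ z ∈ Q A' x, A z = A' z) →
        M.out (KO V p A) x = M.out (KO V p A') x := by
  obtain ⟨T, T', Q, h1, -, h3⟩ := run_both V p M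
  exact ⟨T, Q, h1, h3⟩

theorem run_local (V : Alg) (p : Polynomial ℕ) (M : Alg) : ∃ T : Polynomial ℕ,
    ∀ A A' x, (∀ z : List Bool, z.length ≤ T.eval x.length → A z = A' z) →
      M.out (KO V p A) x = M.out (KO V p A') x := by
  obtain ⟨T, T', Q, -, h2, h3⟩ := run_both V p M
  exact ⟨T', fun A A' x h => h3 A A' x (fun z hz => h z (h2 A x z hz))
    (fun z hz => h z (h2 A' x z hz))⟩

end Pool.Agent.H583R2.S2
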