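import Pool.Agent.H583R2.S2.LocG0
import Pool.Agent.H583R2.S2.Run
import Pool.Agent.H583R2.S2.Loc
import Pool.Agent.H583R2.S2.Inst

/-!
# Locality of `GoodS` (task S11, helper204)
-/

namespace Pool.Agent.H583R2.S2

open MeasureTheory Pool.Agent.NPC Pool.Agent.H628R3.RO
open Pool.Agent.H583R2.NC (wl rr qq mm uu vv JJ KK BB Data ap ee ll)

theorem loc_GoodS (V : Alg) (p : Polynomial ℕ) (M : Alg) : ∃ b : Polynomial ℕ, ∀ n s, s ≤ n →
    Loc {x | x.length ≤ b.eval (2 ^ n)} (GoodS V p M n s) :=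
  loc_GoodS_of V p M (run_local V p M) length_sp loc_Zero inst_length (fun h => inst_congr h)

end Pool.Agent.H583R2.S2
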