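import Pool.Agent.H583R2.NC.NumC
import Pool.Agent.H583R2.S2.Defs

/-! Task S5: numbers of pairs and blocks, for a general probability. -/

namespace Pool.Agent.H583R2.S2

open MeasureTheory Pool.Agent.NPC Pool.Agent.H628R3.RO
open Pool.Agent.H583R2.NC

attribute [local irreducible] uu vv JJ KK BB rr qq mm ap zp

theorem nb_half {s : ℕ} (hs : 4 ≤ s) {a : ℝ} (h3 : a ≤ (2 / 5) ^ qq s) : a ≤ 1 / 2 := by
  refine h3.trans ?_
  have h := two_le_qq hs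
  calc (2 / 5 : ℝ) ^ qq s ≤ (2 / 5) ^ 2 :=
        pow_le_pow_of_le_one (by norm_num) (by norm_num) h
    _ ≤ 1 / 2 := by norm_num

theorem J_lo' {s : ℕ} (_hs : 4 ≤ s) {a : ℝ} (h1 : ap s ≤ a)
    (_h2 : a ≤ ap s * (1 + 4 * qq s / 2 ^ mm s)) (_h3 : a ≤ (2 / 5) ^ qq s) :
    4 * (rr s : ℝ) ≤ JJ s * a :=
  (nb_J_lo s).trans (mul_le_mul_of_nonneg_left h1 (Nat.cast_nonneg _))

theorem J_hi' {s : ℕ} (hs : 4 ≤ s) {a : ℝ} (_h1 : ap s ≤ a)
    (h2 : a ≤ ap s * (1 + 4 * qq s / 2 ^ mm s)) (_h3 : a ≤ (2 / 5) ^ qq s) :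
    (JJ s : ℝ) * a ≤ 8 * rr s + 1 := by
  have e2 := nb_J_hi s
  have e3 := nb_ratio' hs
  have e4 := nb_ap_le_half hs
  have e5 : (0:ℝ) ≤ JJ s := Nat.cast_nonneg _
  have e6 : (3:ℝ) ≤ rr s := by exact_mod_cast three_le_rr hs
  have e7 : 0 ≤ (JJ s : ℝ) * ap s := mul_nonneg e5 (nb_ap_pos s).le
  calc (JJ s : ℝ) * a ≤ JJ s * (ap s * (1 + 4 * qq s / 2 ^ mm s)) :=
        mul_le_mul_of_nonneg_left h2 e5
    _ = (JJ s * ap s) * (1 + 4 * qq s / 2 ^ mm s) := by ring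
    _ ≤ (JJ s * ap s) * (5 / 4) := mul_le_mul_of_nonneg_left (by linarith) e7
    _ ≤ (4 * (rr s : ℝ) + 1 / 2) * (5 / 4) := by
        apply mul_le_mul_of_nonneg_right _ (by norm_num)
        linarith
    _ ≤ 8 * rr s + 1 := by linarith

theorem al_half' {s : ℕ} (hs : 4 ≤ s) {a : ℝ} (_h1 : ap s ≤ a)
    (h2 : a ≤ ap s * (1 + 4 * qq s / 2 ^ mm s)) (h3 : a ≤ (2 / 5) ^ qq s) :
    (1 - ap s) ^ KK s / 2 ≤ (1 - a) ^ KK s := by
  have ha := nb_ap_le_half hs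
  have hz := nb_half hs h3
  have hpos : 0 < 1 - ap s := by linarith
  have h1 : 1 - a = (1 - ap s) * (1 + -((a - ap s) / (1 - ap s))) := by
    field_simp
    ring
  have hd : (a - ap s) / (1 - ap s) ≤ 2 * (ap s * (4 * qq s / 2 ^ mm s)) := by
    rw [div_le_iff₀ hpos]
    have h5 : 0 ≤ ap s * (4 * (qq s:ℝ) / 2 ^ mm s) := by
      have := nb_ap_pos s
      positivity
    have h6 : a - ap s ≤ ap s * (4 * qq s / 2 ^ mm s) := by linarith
    nlinarith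
  have hK : (KK s : ℝ) * ((a - ap s) / (1 - ap s)) ≤ 1 / 2 := by
    have hK0 : (0:ℝ) ≤ KK s := Nat.cast_nonneg _
    have hJ := nb_J_hi s
    have hrat := nb_ratio hs
    have h0 : (0:ℝ) ≤ 4 * (qq s : ℝ) / 2 ^ mm s := by positivity
    calc (KK s : ℝ) * ((a - ap s) / (1 - ap s))
        ≤ KK s * (2 * (ap s * (4 * qq s / 2 ^ mm s))) := mul_le_mul_of_nonneg_left hd hK0
      _ = 4 * (qq s : ℝ) / 2 ^ mm s * (4 * (JJ s * ap s)) := by
          unfold KK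
          push_cast
          ring
      _ ≤ 4 * (qq s : ℝ) / 2 ^ mm s * (2 * (8 * rr s + 2)) := by
          apply mul_le_mul_of_nonneg_left _ h0
          linarith
      _ ≤ 1 / 2 := by linarith
  have hb := one_add_mul_le_pow (a := -((a - ap s) / (1 - ap s))) (by
    have : (a - ap s) / (1 - ap s) ≤ 1 := by
      rw [div_le_one hpos]
      linarith
    linarith) (KK s)
  rw [h1, mul_pow]
  have h7 : 0 ≤ (1 - ap s) ^ KK s := by positivity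
  calc (1 - ap s) ^ KK s / 2 = (1 - ap s) ^ KK s * (1 / 2) := by ring
    _ ≤ (1 - ap s) ^ KK s * (1 + -((a - ap s) / (1 - ap s))) ^ KK s := by
        apply mul_le_mul_of_nonneg_left _ h7
        refine le_trans ?_ hb
        linarith

theorem bad_hi' {s : ℕ} (hs : 4 ≤ s) {a : ℝ} (h1 : ap s ≤ a)
    (_h2 : a ≤ ap s * (1 + 4 * qq s / 2 ^ mm s)) (h3 : a ≤ (2 / 5) ^ qq s) :
    (BB s : ℝ) * (1 - a) ^ KK s ≤ ee s := by
  have e1 : (1 - a) ^ KK s ≤ (1 - ap s) ^ KK s := by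
    apply pow_le_pow_left₀
    · linarith [nb_half hs h3]
    · linarith
  have e2 := nb_B_hi hs
  have e3 := nb_al_small hs
  calc (BB s : ℝ) * (1 - a) ^ KK s ≤ BB s * (1 - ap s) ^ KK s :=
        mul_le_mul_of_nonneg_left e1 (Nat.cast_nonneg _)
    _ ≤ (1 / 2 : ℝ) ^ (rr s + 6) / (rr s : ℝ) ^ 2 + (1 / 2 : ℝ) ^ (rr s + 6) / (rr s : ℝ) ^ 2 := by
        linarith
    _ = ee s := by
        unfold ee
        rw [pow_succ (1 / 2 : ℝ) (rr s + 5)]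
        ring

theorem bad_lo' {s : ℕ} (hs : 4 ≤ s) {a : ℝ} (h1 : ap s ≤ a)
    (h2 : a ≤ ap s * (1 + 4 * qq s / 2 ^ mm s)) (h3 : a ≤ (2 / 5) ^ qq s) :
    (1 / 2 : ℝ) ^ (rr s + 7) / (rr s : ℝ) ^ 2 ≤ (BB s : ℝ) * (1 - a) ^ KK s := by
  have e1 := al_half' hs h1 h2 h3
  have e2 := nb_B_lo hs
  calc (1 / 2 : ℝ) ^ (rr s + 7) / (rr s : ℝ) ^ 2
      = (1 / 2 : ℝ) ^ (rr s + 6) / (rr s : ℝ) ^ 2 / 2 := by
        rw [pow_succ (1 / 2 : ℝ) (rr s + 6)]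
        ring
    _ ≤ BB s * (1 - ap s) ^ KK s / 2 := by linarith
    _ = BB s * ((1 - ap s) ^ KK s / 2) := by ring
    _ ≤ BB s * (1 - a) ^ KK s := mul_le_mul_of_nonneg_left e1 (Nat.cast_nonneg _)

theorem quiet_num' {s : ℕ} (hs : 4 ≤ s) {a : ℝ} (h1 : ap s ≤ a)
    (h2 : a ≤ ap s * (1 + 4 * qq s / 2 ^ mm s)) (h3 : a ≤ (2 / 5) ^ qq s) :
    (BB s : ℝ) * ((1 - a) ^ KK s + KK s * a * (1 - a) ^ (KK s - 1)) ≤ 1 / 16 := by
  have hz := nb_half hs h3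
  have hzp : 0 < a := (nb_ap_pos s).trans_le h1
  have hJ := J_hi' hs h1 h2 h3
  have hb := bad_hi' hs h1 h2 h3
  have hK1 : 1 ≤ KK s := by
    have : 1 ≤ JJ s := by unfold JJ; exact Nat.le_add_left _ _
    unfold KK
    omega
  have e1 : (1 - a) ^ (KK s - 1) ≤ 2 * (1 - a) ^ KK s := by
    obtain ⟨k, hk⟩ : ∃ k, KK s = k + 1 := ⟨KK s - 1, by omega⟩
    rw [hk, Nat.add_sub_cancel, pow_succ]
    have : 0 ≤ (1 - a) ^ k := by
      apply pow_nonneg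
      linarith
    nlinarith
  have e2 : (KK s : ℝ) * a ≤ 16 * rr s + 2 := by
    unfold KK
    push_cast
    linarith
  have e3 : 0 ≤ (KK s : ℝ) * a := by positivity
  have e4 : 0 ≤ (1 - a) ^ KK s := by
    apply pow_nonneg
    linarith
  have hr : (0:ℝ) ≤ rr s := Nat.cast_nonneg _
  have hB : (0:ℝ) ≤ BB s := Nat.cast_nonneg _
  calc (BB s : ℝ) * ((1 - a) ^ KK s + KK s * a * (1 - a) ^ (KK s - 1))
      ≤ BB s * ((1 - a) ^ KK s + (16 * rr s + 2) * (2 * (1 - a) ^ KK s)) := by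
        apply mul_le_mul_of_nonneg_left _ hB
        apply add_le_add le_rfl
        apply mul_le_mul e2 e1 _ (by positivity)
        apply pow_nonneg
        linarith
    _ = (BB s * (1 - a) ^ KK s) * (32 * rr s + 5) := by ring
    _ ≤ ee s * (32 * rr s + 5) := mul_le_mul_of_nonneg_right hb (by positivity)
    _ ≤ 1 / 16 := nc_ee hs

theorem two_num' {s : ℕ} (hs : 4 ≤ s) {a : ℝ} (h1 : ap s ≤ a)
    (h2 : a ≤ ap s * (1 + 4 * qq s / 2 ^ mm s)) (h3 : a ≤ (2 / 5) ^ qq s) :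
    (JJ s : ℝ) * a ^ 2 ≤ 10 := by
  have hJ := J_hi' hs h1 h2 h3
  have hz := nb_half hs h3
  have hzp : 0 < a := (nb_ap_pos s).trans_le h1
  have e1 : (rr s : ℝ) * a ≤ 1 := by
    have e1 : (rr s : ℝ) ≤ 2 ^ qq s := by exact_mod_cast (rr_lt s).le
    calc (rr s : ℝ) * a ≤ 2 ^ qq s * (2 / 5) ^ qq s :=
          mul_le_mul e1 h3 hzp.le (by positivity)
      _ = (4 / 5) ^ qq s := by rw [← mul_pow]; norm_num
      _ ≤ 1 := pow_le_one₀ (by norm_num) (by norm_num)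
  calc (JJ s : ℝ) * a ^ 2 = (JJ s * a) * a := by ring
    _ ≤ (8 * rr s + 1) * a := mul_le_mul_of_nonneg_right hJ hzp.le
    _ ≤ 10 := by nlinarith

theorem ll_num' {s : ℕ} (hs : 4 ≤ s) {a : ℝ} (h1 : ap s ≤ a)
    (h2 : a ≤ ap s * (1 + 4 * qq s / 2 ^ mm s)) (h3 : a ≤ (2 / 5) ^ qq s) :
    ll s ≤ JJ s * a / (1 - a) * (1 / 2 * (BB s * (1 - a) ^ KK s)) := by
  have hz := nb_half hs h3
  have hzp : 0 < a := (nb_ap_pos s).trans_le h1
  have e1 := J_lo' hs h1 h2 h3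
  have e2 := bad_lo' hs h1 h2 h3
  have hr : (3:ℝ) ≤ rr s := by exact_mod_cast three_le_rr hs
  have e3 : 4 * (rr s : ℝ) ≤ JJ s * a / (1 - a) := by
    rw [le_div_iff₀ (by linarith)]
    nlinarith
  calc ll s = 4 * rr s * (1 / 2 * ((1 / 2 : ℝ) ^ (rr s + 7) / (rr s : ℝ) ^ 2)) := by
        unfold ll
        rw [pow_succ (1 / 2 : ℝ) (rr s + 6)]
        field_simp
        norm_num
    _ ≤ JJ s * a / (1 - a) * (1 / 2 * (BB s * (1 - a) ^ KK s)) := by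
        apply mul_le_mul e3 (by linarith) (by positivity)
        linarith [e3, hr]

end Pool.Agent.H583R2.S2
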