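import Pool.Agent.H583R2.S2.Loc
import Pool.Agent.H583R2.S2.Num

/-!
# The system (task S6, helper369)
-/

set_option autoImplicit false

namespace Pool.Agent.H583R2.S2

open MeasureTheory Pool.Agent.NPC Pool.Agent.H628R3.RO
open Pool.Agent.H583R2.NC (wl rr qq mm uu vv JJ KK BB Data)

theorem sys_S2 {n s : ℕ} (hn : 12 ≤ n) (hs : 4 ≤ s) (_hsn : s ≤ n) :
    BK.Sys (Zero n s) (sp n s) (za n s) (BB s) (JJ s) :=
  sys_S2_of (card_Ys n) (za_hi hn s) hs

end Pool.Agent.H583R2.S2
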