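import Pool.Agent.H583R2.S2.SigP
import Pool.Agent.H583R2.S2.Run
import Pool.Agent.H583R2.S2.Num
import Pool.Agent.H583R2.S2.NumB
import Pool.Agent.H583R2.S2.Loc
import Pool.Agent.H583R2.S2.LocG
import Pool.Agent.H583R2.S2.Inst
import Pool.Agent.H583R2.S2.Sys
import Pool.Agent.H583R2.BK.Key
import Pool.Agent.H628R3.RO.K2
import Pool.Agent.H628R3.RO.M1
import Pool.Agent.H628R3.RO.D1
import Pool.Agent.H628R3.RO.D2

/-!
# The key inequality for machines with an `NP` oracle (task S12)
-/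

namespace Pool.Agent.H583R2.S2

open MeasureTheory Pool.Agent.NPC Pool.Agent.H628R3.RO
open Pool.Agent.H583R2.NC (wl rr qq mm uu vv JJ KK BB Data ap ee ll)

namespace Key

theorem card_prs (n s b i : ℕ) : (prs n s b i).card = qq s * NN n := by
  unfold prs
  rw [Finset.card_product, card_Ys, Nat.card_Ico]
  congr 1
  have : (b * KK s + i + 1) * qq s = (b * KK s + i) * qq s + qq s := by ring
  omega

/-- one pair of partner slots -/
theorem one_pair (V : Alg) (p : Polynomial ℕ) (M : Alg) {T P PS : Polynomial ℕ}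
    {TL : Polynomial ℕ}
    {Qr : Oracle → List Bool → Finset (List Bool)}
    (hQc : ∀ A x, (Qr A x).card ≤ T.eval x.length)
    (hQr : ∀ A A' x, (∀ z ∈ Qr A x, A z = A' z) → (∀ z ∈ Qr A' x, A z = A' z) →
        M.out (KO V p A) x = M.out (KO V p A') x)
    (hTL : ∀ A A' x, (∀ z : List Bool, z.length ≤ TL.eval x.length → A z = A' z) →
      M.out (KO V p A) x = M.out (KO V p A') x)
    (hP : ∀ n s b j A, s ≤ n → b < BB s → j < JJ s → (inst n s b j A).length ≤ P.eval n)
    (hPS : ∀ n s b i, s ≤ n → b < BB s → i < KK s → ∀ x ∈ sp n s b i, x.length ≤ PS.eval n)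
    {n s : ℕ} (hn : 12 ≤ n) (hsn : s ≤ n) (hnum : 256 * T.eval (P.eval n) ≤ 2 ^ n)
    {t : ℕ} (ht : t < n) {η : Set Oracle} (hη : Loc {x | x.length ≤ t} η)
    {b j : ℕ} (hb : b < BB s) (hj : j < JJ s) :
    za n s * ((1 - za n s - 1 / 32) *
      prob (η ∩ (BK.Quiet (Zero n s) (BB s) (JJ s) b ∩ BK.Others (Zero n s) (JJ s) b j))) ≤
    prob ((η ∩ (BK.Quiet (Zero n s) (BB s) (JJ s) b ∩ BK.Others (Zero n s) (JJ s) b j)) ∩
      (BK.Ex (Zero n s) b j ∩ (GoodS V p M n s)ᶜ)) := by
  classical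
  have hKK : KK s = 2 * JJ s := rfl
  have hj0 : 2 * j < KK s := by omega
  have hj1 : 2 * j + 1 < KK s := by omega
  set η' : Set Oracle := η ∩ (BK.Quiet (Zero n s) (BB s) (JJ s) b ∩ Others n s b j) with hη'
  set m := wl n with hm
  set u := n * 2 ^ m with hu
  set w := qq s * NN n with hw
  set tt := T.eval (P.eval n) with htt
  set L := n + PS.eval n + TL.eval (P.eval n) with hL
  set K : Set (List Bool) := {x | x.length ≤ L} with hK
  set F : Set Oracle := {A | M.out (KO V p A) (inst n s b j A) = some [true]} with hF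
  set Y : Bool → Finset (ℕ × List Bool) := fun i => prs n s b (2 * j + i.toNat) with hY
  set cell : ℕ × List Bool → Finset Cand := fun x => gc n x.1 x.2 with hcell
  have hYi : ∀ i : Bool, 2 * j + i.toNat < KK s := by
    intro i; cases i <;> simp <;> omega
  have hspK : ∀ b' < BB s, ∀ i < KK s, ∀ x ∈ sp n s b' i, x ∈ K := by
    intro b' hb' i hi x hx
    have := hPS n s b' i hsn hb' hi x hx
    show x.length ≤ L
    omega
  have hYlen : ∀ i, ∀ y ∈ Y i, y.2.length = 2 * n := by
    intro i y hy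
    have h1 : y ∈ prs n s b (2 * j + i.toNat) := hy
    unfold prs at h1
    rw [Finset.mem_product] at h1
    exact (mem_Ys.1 h1.2).1
  have hYd : Disjoint (Y false) (Y true) := by
    apply prs_disjoint (hYi false) (hYi true)
    right
    simp
  have hdis : ∀ i, ∀ y ∈ Y i, ∀ i', ∀ y' ∈ Y i', y ≠ y' → Disjoint (cell y) (cell y') := by
    intro i y hy i' y' hy' hne
    apply gc_disjoint
    · rw [hYlen i y hy, hYlen i' y' hy']
    · intro h; exact hne h
  -- membership of planted candidates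
  have hmemW : ∀ κ : Cand, (∃ i, ∃ y ∈ Y i, κ ∈ cell y) →
      ∃ x ∈ prs n s b (2 * j) ∪ prs n s b (2 * j + 1), κ ∈ gc n x.1 x.2 := by
    rintro κ ⟨i, y, hy, hκ⟩
    refine ⟨y, ?_, hκ⟩
    rw [Finset.mem_union]
    cases i
    · left; simpa [hY] using hy
    · right; simpa [hY] using hy
  have hFloc : Loc K F := by
    apply loc_of_imp
    intro A A' hA hAF
    have hAF' : M.out (KO V p A) (inst n s b j A) = some [true] := hAF
    show M.out (KO V p A') (inst n s b j A') = some [true]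
    have hi : inst n s b j A = inst n s b j A' :=
      inst_congr fun i hi x hx => hA x (hspK b hb i hi x hx)
    rw [← hi, ← hAF']
    symm
    apply hTL
    intro z hz
    apply hA
    have h1 := hP n s b j A hsn hb hj
    have h2 := eval_mono TL h1
    show z.length ≤ L
    omega
  have hηloc : Loc K η' := by
    refine Loc.mono ?_ (loc_eta (t := t) hb hj hη)
    rintro x (hx | ⟨b', hb', i, hi, hx⟩)
    · have hx' : x.length ≤ t := hx
      show x.length ≤ L
      omega
    · exact hspK b' hb' i hi x hx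
  have hdl : (1 - (1 / 2 : ℝ) ^ m) ^ u = dl n := rfl
  have hdl0 : 0 < dl n := dl_pos n
  have hdl1 : dl n ≤ (1 / 2 : ℝ) ^ n := dl_le n
  have hpn : (1 / 2 : ℝ) ^ n ≤ 1 / 2 := by
    calc (1 / 2 : ℝ) ^ n ≤ (1 / 2 : ℝ) ^ 1 :=
          pow_le_pow_of_le_one (by norm_num) (by norm_num) (by omega)
      _ = 1 / 2 := by norm_num
  have hza : (1 - (1 - (1 / 2 : ℝ) ^ m) ^ u) ^ w = za n s := rfl
  have key := sigma_pair (K := K) (finite_length_le L) (F := F) (η := η') hFloc hηloc Y hYd cell hdis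
    (m := m) (u := u) (w := w) (t := tt) (by rw [hm]; unfold wl; omega)
    (fun i y _ => card_gc n y.1 y.2) (fun i => card_prs n s b _)
    (by rw [hdl]; linarith)
    (by
      intro i y hy κ hκ l hl
      apply hspK b hb _ (hYi i)
      refine ⟨y, hy, ?_⟩
      rw [mem_allSpots]
      exact ⟨κ, hκ, l, hl, rfl⟩)
    (by
      intro B h hh
      exact plant_eta hb hj ht.le hη (fun κ hκ => hmemW κ (hh κ hκ)) B)
    (by
      choose T' hT'c hT' using fun (B : Oracle) =>
        touch ((Y false ∪ Y true).biUnion cell) m (Qr B (inst n s b j B))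
      refine ⟨T', fun B => ?_, ?_⟩
      · refine (hT'c B).trans ((hQc _ _).trans ?_)
        exact eval_mono T (hP n s b j B hsn hb hj)
      · intro B _ h hh hd1 hd2
        have hhW : h ⊆ (Y false ∪ Y true).biUnion cell := by
          intro κ hκ
          obtain ⟨i, y, hy, hκy⟩ := hh κ hκ
          rw [Finset.mem_biUnion]
          refine ⟨y, ?_, hκy⟩
          rw [Finset.mem_union]
          cases i
          · left; exact hy
          · right; exact hy
        have hinst : inst n s b j (plant (allSpots m h) B) = inst n s b j B :=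
          inst_plant hb hj (fun κ hκ => hmemW κ (hh κ hκ)) B
        have e : M.out (KO V p B) (inst n s b j B) =
            M.out (KO V p (plant (allSpots m h) B)) (inst n s b j B) := by
          apply hQr
          · intro z hz
            exact (hT' B h hhW hd1 B z hz).symm
          · intro z hz
            refine (hT' (plant (allSpots m h) B) h hhW hd2 B z ?_).symm
            rw [hinst]; exact hz
        show M.out (KO V p (plant (allSpots m h) B)) (inst n s b j (plant (allSpots m h) B)) =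
          some [true] ↔ M.out (KO V p B) (inst n s b j B) = some [true]
        rw [hinst, e])
  rw [hdl] at key
  have hprob0 : 0 ≤ prob η' := measureReal_nonneg
  have hza0 : 0 ≤ za n s := by
    unfold za
    apply pow_nonneg
    linarith
  have hnumR : 256 * (tt : ℝ) ≤ 2 ^ n := by exact_mod_cast hnum
  have hsmall : (tt : ℝ) * dl n + 4 * tt * (1 / 2 : ℝ) ^ m ≤ 1 / 32 := by
    have h0 : (0 : ℝ) ≤ tt := Nat.cast_nonneg _
    have h1 : (1 / 2 : ℝ) ^ m ≤ (1 / 2 : ℝ) ^ n := by
      apply pow_le_pow_of_le_one (by norm_num) (by norm_num)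
      rw [hm]; unfold wl; omega
    have h2 : (tt : ℝ) * (1 / 2 : ℝ) ^ n ≤ 1 / 256 := by
      have h3 : (1 / 2 : ℝ) ^ n * 2 ^ n = 1 := by rw [← mul_pow]; norm_num
      have h4 : (0 : ℝ) ≤ (1 / 2 : ℝ) ^ n := by positivity
      nlinarith
    have h5 : (tt : ℝ) * dl n ≤ tt * (1 / 2 : ℝ) ^ n := mul_le_mul_of_nonneg_left hdl1 h0
    have h6 : (tt : ℝ) * (1 / 2 : ℝ) ^ m ≤ tt * (1 / 2 : ℝ) ^ n := mul_le_mul_of_nonneg_left h1 h0
    nlinarith
  have hstep1 : za n s * ((1 - za n s - 1 / 32) * prob η') ≤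
      (1 - dl n) ^ w * ((1 - (1 - dl n) ^ w - tt * dl n - 4 * tt * (1 / 2 : ℝ) ^ m) * prob η') := by
    have e : (1 - dl n) ^ w = za n s := rfl
    rw [e]
    apply mul_le_mul_of_nonneg_left _ hza0
    apply mul_le_mul_of_nonneg_right _ hprob0
    linarith
  refine le_trans hstep1 (le_trans key ?_)
  refine M2.prob_mono ?_
  rintro A ⟨hAη, hA⟩
  refine ⟨hAη, ?_⟩
  have hO : A ∈ Others n s b j := hAη.2.2
  have hzf : (∀ y ∈ Y false, A ∉ NoHit m (cell y)) ↔ A ∈ Zero n s b (2 * j) := Iff.rfl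
  have hzt : (∀ y ∈ Y true, A ∉ NoHit m (cell y)) ↔ A ∈ Zero n s b (2 * j + 1) := Iff.rfl
  have hzf' : (∃ y ∈ Y false, A ∈ NoHit m (cell y)) ↔ A ∉ Zero n s b (2 * j) := by
    rw [← hzf]; push Not; rfl
  have hzt' : (∃ y ∈ Y true, A ∈ NoHit m (cell y)) ↔ A ∉ Zero n s b (2 * j + 1) := by
    rw [← hzt]; push Not; rfl
  rcases hA with ⟨h1, h2, h3⟩ | ⟨h1, h2, h3⟩
  · rw [hzf] at h1
    rw [hzt'] at h2
    refine ⟨fun h => h2 (h.1 h1), fun hG => ?_⟩
    exact (hG b hb j hj hO).2 h1 h2 h3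
  · rw [hzf'] at h1
    rw [hzt] at h2
    refine ⟨fun h => h1 (h.2 h2), fun hG => ?_⟩
    exact h3 ((hG b hb j hj hO).1 h1 h2)

end Key

theorem key_S (V : Alg) (p : Polynomial ℕ) (M : Alg) : ∃ n0, ∀ n ≥ n0, ∀ s, 4 ≤ s → s ≤ n →
    ∀ t < n, ∀ η : Set Oracle, Loc {x | x.length ≤ t} η →
      ll s * (7 / 8 * prob η) ≤ prob (η ∩ (GoodS V p M n s)ᶜ) := by
  obtain ⟨T, Qr, hQc, hQr⟩ := run_touch V p M
  obtain ⟨TL, hTL⟩ := run_local V p M
  obtain ⟨P, hP⟩ := inst_length
  obtain ⟨PS, hPS⟩ := length_sp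
  obtain ⟨bG, hbG⟩ := loc_GoodS V p M
  obtain ⟨n1, hn1⟩ := mul_poly_le_two_pow (T.comp P) 256
  refine ⟨max 12 n1, fun n hn s hs4 hsn t ht η hη => ?_⟩
  have hn12 : 12 ≤ n := le_trans (le_max_left _ _) hn
  have hn1' := hn1 n (le_trans (le_max_right _ _) hn)
  rw [Polynomial.eval_comp] at hn1'
  have hsys := sys_S2 (n := n) (s := s) hn12 hs4 hsn
  have h1 := ap_le_za (n := n) (s := s) hn12 hsn
  have h2 := za_le_ap (n := n) (s := s) hn12 hsn
  have h3 := za_hi (n := n) hn12 s
  have hq := quiet_num' hs4 h1 h2 h3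
  have hl := ll_num' hs4 h1 h2 h3
  have ha0 := hsys.a0
  have ha1 := hsys.a1
  refine BK.key_gen (l := ll s) (ε := 1 / 32) hsys (finite_length_le t) ?_ hη
    (measurableSet_of_loc (finite_length_le _) (hbG n s hsn)) (by norm_num) le_rfl ?_ ?_ ?_
  · intro b _ i _
    rw [Set.disjoint_left]
    intro x hx hx'
    have h4 : x.length ≤ t := hx
    have h5 := lt_length_sp x hx'
    omega
  · have hKK : KK s = 2 * JJ s := rfl
    rw [hKK] at hq
    exact hq
  · refine le_trans hl ?_
    have hKK : KK s = 2 * JJ s := rfl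
    rw [hKK]
    have h6 : 0 ≤ (JJ s : ℝ) * za n s / (1 - za n s) := by
      apply div_nonneg
      · exact mul_nonneg (Nat.cast_nonneg _) ha0
      · linarith
    apply mul_le_mul_of_nonneg_left _ h6
    have h7 : 0 ≤ (BB s : ℝ) * (1 - za n s) ^ (2 * JJ s) := by
      apply mul_nonneg (Nat.cast_nonneg _)
      apply pow_nonneg
      linarith
    linarith
  · intro b hb j hj
    exact Key.one_pair V p M hQc hQr hTL hP hPS hn12 hsn hn1' ht hη hb hj

end Pool.Agent.H583R2.S2
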