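import Pool.Agent.H583R2.S2.Defs
import Pool.Agent.H628R3.RO.D4
import Pool.Agent.H628R3.RO.K4

/-!
# Locality of `GoodS` (task S11, helper204), the facts of S3, S6, S7 as hypotheses
-/

namespace Pool.Agent.H583R2.S2

open MeasureTheory Pool.Agent.NPC Pool.Agent.H628R3.RO
open Pool.Agent.H583R2.NC (wl rr qq mm uu vv JJ KK BB Data)

theorem loc_GoodS_of (V : Alg) (p : Polynomial ℕ) (M : Alg)
    (hrun : ∃ T : Polynomial ℕ, ∀ A A' x,
      (∀ z : List Bool, z.length ≤ T.eval x.length → A z = A' z) →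
      M.out (KO V p A) x = M.out (KO V p A') x)
    (hsp : ∃ P : Polynomial ℕ, ∀ n s b i, s ≤ n → b < BB s → i < KK s →
      ∀ x ∈ sp n s b i, x.length ≤ P.eval n)
    (hloc : ∀ n s b i : ℕ, Loc (sp n s b i) (Zero n s b i))
    (hlen : ∃ P : Polynomial ℕ, ∀ n s b j A, s ≤ n → b < BB s → j < JJ s →
      (inst n s b j A).length ≤ P.eval n)
    (hcongr : ∀ {n s b j : ℕ} {A A' : Oracle}, (∀ i < KK s, ∀ x ∈ sp n s b i, A x = A' x) →
      inst n s b j A = inst n s b j A') : ∃ b : Polynomial ℕ, ∀ n s, s ≤ n →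
    Loc {x | x.length ≤ b.eval (2 ^ n)} (GoodS V p M n s) := by
  obtain ⟨T, hT⟩ := hrun
  obtain ⟨P, hP⟩ := hlen
  obtain ⟨S, hS⟩ := hsp
  refine ⟨S + T.comp P, fun n s hs => loc_of_imp fun A A' h => ?_⟩
  have hn2 : n ≤ 2 ^ n := Nat.lt_two_pow_self.le
  have h' : ∀ z : List Bool, z.length ≤ S.eval (2 ^ n) + T.eval (P.eval (2 ^ n)) →
      A z = A' z := by
    intro z hz
    apply h z
    change z.length ≤ _
    simpa only [Polynomial.eval_add, Polynomial.eval_comp] using hz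
  have hspots : ∀ b < BB s, ∀ i < KK s, ∀ x ∈ sp n s b i, A x = A' x := by
    intro b hb i hi x hx
    apply h'
    have h1 := hS n s b i hs hb hi x hx
    have h2 := eval_mono S hn2
    omega
  have hZ : ∀ b < BB s, ∀ i < KK s, (A ∈ Zero n s b i ↔ A' ∈ Zero n s b i) :=
    fun b hb i hi => hloc n s b i A A' (hspots b hb i hi)
  intro hG b hb j hj hO'
  have hO : A ∈ Others n s b j := by
    intro i hi h1 h2 hA
    exact hO' i hi h1 h2 ((hZ b hb i hi).mp hA)
  have hj2 : 2 * j < KK s := by unfold KK; omega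
  have hj3 : 2 * j + 1 < KK s := by unfold KK; omega
  have hinst : inst n s b j A = inst n s b j A' := hcongr (hspots b hb)
  have hlen : (inst n s b j A).length ≤ P.eval (2 ^ n) :=
    (hP n s b j A hs hb hj).trans (eval_mono P hn2)
  have hout : M.out (KO V p A) (inst n s b j A) = M.out (KO V p A') (inst n s b j A') := by
    rw [← hinst]
    refine hT A A' _ fun z hz => h' z ?_
    have h2 := eval_mono T hlen
    omega
  obtain ⟨hG1, hG2⟩ := hG b hb j hj hO
  rw [hout] at hG1 hG2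
  exact ⟨fun h0 h1 => hG1 (fun hA => h0 ((hZ b hb _ hj2).mp hA)) ((hZ b hb _ hj3).mpr h1),
    fun h0 h1 => hG2 ((hZ b hb _ hj2).mpr h0) (fun hA => h1 ((hZ b hb _ hj3).mp hA))⟩

end Pool.Agent.H583R2.S2
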