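import Pool.Agent.H583R2.S2.Key
import Pool.Agent.H583R2.S2.Mem
import Pool.Agent.H583R2.S2.Sys
import Pool.Agent.H583R2.S2.LocG
import Pool.Agent.H583R2.BK.Core
import Pool.Agent.H583R2.NC.Main

/-!
# `P^NP ≠ Σ₂ ∩ Π₂` relative to a random oracle
-/

namespace Pool.Agent.H583R2.S2

open MeasureTheory Pool.Agent.NPC Pool.Agent.H628R3.RO
open Pool.Agent.H583R2.NC (wl rr qq mm uu vv JJ KK BB Data ap ee ll)

theorem prob_Inv_le {n s : ℕ} (hn : 12 ≤ n) (hs : 4 ≤ s) (hsn : s ≤ n) :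
    prob (Inv n s) ≤ 81 * ee s := by
  have hS := sys_S2 hn hs hsn
  have h1 := ap_le_za hn hsn
  have h2 := za_le_ap hn hsn
  have h3 := za_hi hn s
  have hbad : prob (BK.Bad (Zero n s) (BB s) (JJ s)) ≤ ee s :=
    (BK.prob_Bad_le hS).trans (bad_hi' hs h1 h2 h3)
  have htwo : prob (BK.Two (Zero n s) (BB s) (JJ s)) ≤ 80 * ee s := by
    refine (BK.prob_Two_le hS).trans ?_
    have h4 := two_num' hs h1 h2 h3
    have h5 := bad_hi' hs h1 h2 h3
    set x := za n s with hx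
    have hx1 : x ≤ 1 / 2 := hS.a1
    have hx0 : 0 ≤ x := hS.a0
    have h6 : (1 - x) ^ KK s = (1 - x) ^ 2 * (1 - x) ^ (2 * JJ s - 2) := by
      rw [← pow_add]
      congr 1
      have := NC.KK_pos s
      unfold KK at this ⊢
      omega
    have h7 : (0 : ℝ) ≤ (1 - x) ^ (2 * JJ s - 2) := pow_nonneg (by linarith) _
    have h8 : (1 / 4 : ℝ) ≤ (1 - x) ^ 2 := by nlinarith
    have h9 : (BB s : ℝ) * JJ s * (x ^ 2 * (1 - x) ^ (2 * JJ s - 2)) =
        (JJ s * x ^ 2) * (BB s * (1 - x) ^ (2 * JJ s - 2)) := by ring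
    have h10 : (0 : ℝ) ≤ BB s * (1 - x) ^ (2 * JJ s - 2) := mul_nonneg (Nat.cast_nonneg _) h7
    have h11 : (BB s : ℝ) * (1 - x) ^ (2 * JJ s - 2) ≤ 4 * (BB s * (1 - x) ^ KK s) := by
      have h12 := mul_le_mul_of_nonneg_right h8 h10
      have h13 : 4 * ((BB s : ℝ) * ((1 - x) ^ 2 * (1 - x) ^ (2 * JJ s - 2))) =
          4 * ((1 - x) ^ 2 * ((BB s : ℝ) * (1 - x) ^ (2 * JJ s - 2))) := by ring
      rw [h6, h13]
      linarith
    rw [h9]
    calc (JJ s * x ^ 2) * (BB s * (1 - x) ^ (2 * JJ s - 2)) ≤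
          10 * (4 * (BB s * (1 - x) ^ KK s)) := mul_le_mul h4 h11 h10 (by norm_num)
      _ ≤ 80 * ee s := by
        have := NC.ee_nonneg s
        linarith
  calc prob (Inv n s) ≤ prob (BK.Bad (Zero n s) (BB s) (JJ s)) +
        prob (BK.Two (Zero n s) (BB s) (JJ s)) := M2.prob_union_le _ _
    _ ≤ 81 * ee s := by linarith

/-- the machines with an `NP` oracle -/
abbrev Mach : Type := Alg × Polynomial ℕ × Alg

instance : Countable Mach := by
  have := countable_poly2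
  infer_instance

theorem core_S : ∀ᵐ A ∂randomOracle, (∃ k, ∀ i ≥ k, A ∉ Inv (BK.TT i) (i + 4)) ∧
    ∀ (m : Mach) (k : ℕ), ∃ i ≥ k, A ∉ GoodS m.1 m.2.1 m.2.2 (BK.TT i) (i + 4) :=
  BK.core_zero (R := Mach) Inv (fun m => GoodS m.1 m.2.1 m.2.2) (fun s => 81 * ee s) ll
    (fun s => mul_nonneg (by norm_num) (NC.ee_nonneg s)) (NC.summable_ee.mul_left 81) 12
    (fun n s hn hs hsn => prob_Inv_le hn hs hsn)
    NC.ll_nonneg NC.not_summable_ll (fun m => loc_GoodS m.1 m.2.1 m.2.2)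
    (fun m => key_S m.1 m.2.1 m.2.2)

theorem mem_LL_inst {f : ℕ → Option ℕ} {n s b j : ℕ} {A : Oracle} (hf : f n = some s)
    (hb : b < BB s) (hj : j < JJ s) (hA : A ∈ Others n s b j) :
    inst n s b j A ∈ LL f A ↔ A ∉ Zero n s b (2 * j) := by
  constructor
  · rintro ⟨D, s', h1, h2, -, h4⟩
    have h5 : D = instD n s b j A := bits_injective h1
    subst h5
    simp only [instD, List.length_replicate] at h2 h4
    rw [hf, Option.some.injEq] at h2
    subst h2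
    exact h4
  · intro h
    refine ⟨instD n s b j A, s, rfl, ?_, inst_cert hb hj hA, ?_⟩
    · simp only [instD, List.length_replicate]
      exact hf
    · simp only [instD, List.length_replicate]
      exact h

/-- With probability one, some language in `Σ₂ ∩ Π₂` is not in `Δ₂ = P^NP`. -/
theorem sigma_main : ∀ᵐ A ∂randomOracle, ∃ L : Set (List Bool),
    IsSigma2 A L ∧ IsPi2 A L ∧ ¬ IsDelta2 A L := by
  filter_upwards [core_S] with A hA
  obtain ⟨⟨k, hk⟩, hG⟩ := hA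
  set f := BK.fT (BK.TT k) with hf
  have hfn : ∀ n s, f n = some s → s ≤ n := by
    intro n s h
    obtain ⟨_, i, rfl, rfl⟩ := BK.eq_of_fT h
    exact BK.le_TT i
  have hfA : ∀ n s, f n = some s → A ∉ Inv n s := by
    intro n s h
    obtain ⟨h3, i, rfl, rfl⟩ := BK.eq_of_fT h
    exact hk i (BK.strictMono_TT.le_iff_le.1 h3)
  refine ⟨LL f A, ⟨HitK A, isNP_HitK A, isNP_LL A f (BK.p_fT _) hfn⟩,
    ⟨HitK A, isNP_HitK A, isCoNP_LL A f (BK.p_fT _) hfn hfA⟩, ?_⟩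
  rintro ⟨K, ⟨V, p, ⟨M, hM⟩, hV⟩, F, ⟨N, hN⟩, hL⟩
  have hK : chr K = KO M p A := by
    unfold KO
    congr 1
    ext u
    rw [hV u, Set.mem_ofPred_eq, Wit]
    refine exists_congr fun w => and_congr_right fun _ => ?_
    rw [hM, Option.some.injEq]
  rw [hK] at hN
  obtain ⟨i, hi, h3⟩ := hG (M, p, N) k
  have hfi : f (BK.TT i) = some (i + 4) := BK.fT_TT (BK.strictMono_TT.monotone hi)
  refine h3 fun b hb j hj ho => ⟨fun h1 _ => ?_, fun h1 _ => ?_⟩
  · rw [hN, Option.some.injEq]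
    exact (hL _).1 ((mem_LL_inst hfi hb hj ho).2 h1)
  · rw [hN, ne_eq, Option.some.injEq]
    intro h4
    exact (mem_LL_inst hfi hb hj ho).1 ((hL _).2 h4) h1

end Pool.Agent.H583R2.S2
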