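import Pool.Agent.H583R2.S2.Defs
import Pool.Agent.H628R3.RO.M2

/-!
# The combinatorial lemma for hidden blocks one level higher
-/

set_option autoImplicit false

namespace Pool.Agent.H583R2.S2

open MeasureTheory Pool.Agent.NPC Pool.Agent.H628R3.RO

/-- no candidate of `H` in the cell -/
def Mkd {ι : Type} (cell : ι → Finset Cand) (H : Finset Cand) (y : ι) : Prop := Disjoint H (cell y)

namespace Sig

open Classical

/-! ### Sums over the subsets of a disjoint union -/

theorem sum_split {A B : Finset Cand} (h : Disjoint A B) (f : Finset Cand → ℝ) :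
    ∑ H ∈ (A ∪ B).powerset, f H = ∑ x ∈ A.powerset, ∑ z ∈ B.powerset, f (x ∪ z) := by
  rw [← Finset.sum_product' A.powerset B.powerset (fun x z => f (x ∪ z))]
  refine Finset.sum_bij' (fun H _ => (H ∩ A, H ∩ B)) (fun p _ => p.1 ∪ p.2) ?_ ?_ ?_ ?_ ?_
  · intro H _
    simp only [Finset.mem_product, Finset.mem_powerset]
    exact ⟨Finset.inter_subset_right, Finset.inter_subset_right⟩
  · rintro ⟨x, z⟩ hp
    simp only [Finset.mem_product, Finset.mem_powerset] at hp ⊢
    exact Finset.union_subset_union hp.1 hp.2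
  · intro H hH
    rw [Finset.mem_powerset] at hH
    show H ∩ A ∪ H ∩ B = H
    rw [← Finset.inter_union_distrib_left]
    exact Finset.inter_eq_left.2 hH
  · rintro ⟨x, z⟩ hp
    simp only [Finset.mem_product, Finset.mem_powerset] at hp
    obtain ⟨hx, hz⟩ := hp
    have h1 : z ∩ A = ∅ := by
      rw [← Finset.disjoint_iff_inter_eq_empty]
      exact (Finset.disjoint_of_subset_right hz h).symm
    have h2 : x ∩ B = ∅ := by
      rw [← Finset.disjoint_iff_inter_eq_empty]
      exact Finset.disjoint_of_subset_left hx h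
    have h3 : (x ∪ z) ∩ A = x := by
      rw [Finset.union_inter_distrib_right, h1, Finset.union_empty]
      exact Finset.inter_eq_left.2 hx
    have h4 : (x ∪ z) ∩ B = z := by
      rw [Finset.union_inter_distrib_right, h2, Finset.empty_union]
      exact Finset.inter_eq_left.2 hz
    simp only [h3, h4]
  · intro H hH
    rw [Finset.mem_powerset] at hH
    show f H = f (H ∩ A ∪ H ∩ B)
    rw [← Finset.inter_union_distrib_left, Finset.inter_eq_left.2 hH]

theorem wt_split (q : ℝ) {A B : Finset Cand} (h : Disjoint A B) {x z : Finset Cand} (hx : x ⊆ A)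
    (hz : z ⊆ B) : M2.wt q (A ∪ B) (x ∪ z) = M2.wt q A x * M2.wt q B z := by
  unfold M2.wt
  have hxz : Disjoint x z := Finset.disjoint_of_subset_left hx (Finset.disjoint_of_subset_right hz h)
  rw [Finset.card_union_of_disjoint h, Finset.card_union_of_disjoint hxz]
  have h1 := Finset.card_le_card hx
  have h2 := Finset.card_le_card hz
  rw [show A.card + B.card - (x.card + z.card) = (A.card - x.card) + (B.card - z.card) by omega,
    pow_add, pow_add]
  ring

section

variable {ι : Type} (cell : ι → Finset Cand)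

/-- all cells of `S` meet `h` -/
def NE (S : Finset ι) (h : Finset Cand) : Prop := ∀ y ∈ S, ¬ Disjoint h (cell y)

/-- the union of the cells of `S` -/
noncomputable def cu (S : Finset ι) : Finset Cand := S.biUnion cell

variable {cell}

theorem cu_disjoint {S T : Finset ι} (hST : ∀ y ∈ S, ∀ y' ∈ T, Disjoint (cell y) (cell y')) :
    Disjoint (cu cell S) (cu cell T) := by
  unfold cu
  rw [Finset.disjoint_biUnion_left]
  intro y hy
  rw [Finset.disjoint_biUnion_right]
  intro y' hy'
  exact hST y hy y' hy'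

theorem NE_left {S T : Finset ι} (hST : ∀ y ∈ S, ∀ y' ∈ T, Disjoint (cell y) (cell y'))
    {x z : Finset Cand} (hz : z ⊆ cu cell T) :
    NE cell S (x ∪ z) ↔ NE cell S x := by
  refine forall_congr' fun y => forall_congr' fun hy => ?_
  rw [Finset.disjoint_union_left]
  have : Disjoint z (cell y) := by
    refine Finset.disjoint_of_subset_left hz ?_
    unfold cu
    rw [Finset.disjoint_biUnion_left]
    intro y' hy'
    exact (hST y hy y' hy').symm
  simp [this]

theorem NE_union {S T : Finset ι} (hST : ∀ y ∈ S, ∀ y' ∈ T, Disjoint (cell y) (cell y'))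
    {x z : Finset Cand} (hx : x ⊆ cu cell S) (hz : z ⊆ cu cell T) :
    NE cell (S ∪ T) (x ∪ z) ↔ NE cell S x ∧ NE cell T z := by
  have h1 := NE_left (x := x) hST hz
  have h2 := NE_left (x := z) (fun y hy y' hy' => (hST y' hy' y hy).symm) hx
  rw [Finset.union_comm] at h2
  rw [← h1, ← h2]
  unfold NE
  constructor
  · intro h
    exact ⟨fun y hy => h y (Finset.mem_union_left _ hy), fun y hy => h y (Finset.mem_union_right _ hy)⟩
  · rintro ⟨h, h'⟩ y hy
    rcases Finset.mem_union.1 hy with hy | hy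
    · exact h y hy
    · exact h' y hy

theorem cu_union (S T : Finset ι) : cu cell (S ∪ T) = cu cell S ∪ cu cell T := by
  unfold cu
  exact Finset.union_biUnion

/-- the joint sum over a split family of cells -/
theorem sum_joint (q : ℝ) {S T : Finset ι}
    (hST : ∀ y ∈ S, ∀ y' ∈ T, Disjoint (cell y) (cell y')) (φ : Finset Cand → Finset Cand → ℝ) :
    ∑ H ∈ (cu cell (S ∪ T)).powerset, (if NE cell (S ∪ T) H then
        M2.wt q (cu cell (S ∪ T)) H * φ (H \ cu cell T) (H ∩ cu cell T) else 0) =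
      ∑ x ∈ (cu cell S).powerset, (if NE cell S x then M2.wt q (cu cell S) x else 0) *
        ∑ z ∈ (cu cell T).powerset,
          (if NE cell T z then M2.wt q (cu cell T) z else 0) * φ x z := by
  have hd := cu_disjoint hST
  rw [cu_union, sum_split hd]
  refine Finset.sum_congr rfl fun x hx => ?_
  rw [Finset.mul_sum]
  refine Finset.sum_congr rfl fun z hz => ?_
  rw [Finset.mem_powerset] at hx hz
  have h1 : (x ∪ z) \ cu cell T = x := by
    ext κ
    simp only [Finset.mem_sdiff, Finset.mem_union]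
    constructor
    · rintro ⟨h | h, h'⟩
      · exact h
      · exact absurd (hz h) h'
    · intro h
      exact ⟨Or.inl h, fun h' => Finset.disjoint_left.1 hd (hx h) h'⟩
  have h2 : (x ∪ z) ∩ cu cell T = z := by
    ext κ
    simp only [Finset.mem_inter, Finset.mem_union]
    constructor
    · rintro ⟨h | h, h'⟩
      · exact absurd h' (Finset.disjoint_left.1 hd (hx h))
      · exact h
    · intro h
      exact ⟨Or.inr h, hz h⟩
  rw [h1, h2, wt_split q hd hx hz]
  have h3 := NE_union hST hx hz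
  by_cases hS : NE cell S x
  · by_cases hT : NE cell T z
    · rw [if_pos (h3.2 ⟨hS, hT⟩), if_pos hS, if_pos hT]
      ring
    · rw [if_neg (fun h => hT (h3.1 h).2), if_neg hT]
      ring
  · rw [if_neg (fun h => hS (h3.1 h).1), if_neg hS]
    ring

theorem sum_ne (q : ℝ) {u : ℕ} (A : Finset Cand) (hA : A.card = u) :
    ∑ x ∈ A.powerset, (if ¬ Disjoint x A then M2.wt q A x else 0) = 1 - (1 - q) ^ u := by
  have h1 := M2.sum_wt q A
  have h2 : ∑ x ∈ A.powerset, (if ¬ Disjoint x A then M2.wt q A x else 0) =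
      ∑ x ∈ A.powerset, (M2.wt q A x - if x = ∅ then M2.wt q A x else 0) := by
    refine Finset.sum_congr rfl fun x hx => ?_
    rw [Finset.mem_powerset] at hx
    by_cases h : x = ∅
    · subst h
      simp
    · have h3 : ¬ Disjoint x A := by
        intro h4
        apply h
        have := Finset.disjoint_of_subset_right hx h4
        exact Finset.disjoint_self_iff_empty x |>.1 this
      rw [if_pos h3, if_neg h, sub_zero]
  rw [h2, Finset.sum_sub_distrib, h1]
  congr 1
  rw [Finset.sum_ite_eq' A.powerset ∅ (fun x => M2.wt q A x)]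
  rw [if_pos (Finset.empty_mem_powerset A)]
  unfold M2.wt
  simp [hA]

theorem cu_singleton (y : ι) : cu cell {y} = cell y := by
  unfold cu
  exact Finset.singleton_biUnion

/-- the probability that no cell is empty -/
theorem sum_NE (q : ℝ) {u : ℕ} (S : Finset ι)
    (hd : ∀ y ∈ S, ∀ y' ∈ S, y ≠ y' → Disjoint (cell y) (cell y'))
    (hu : ∀ y ∈ S, (cell y).card = u) :
    ∑ z ∈ (cu cell S).powerset, (if NE cell S z then M2.wt q (cu cell S) z else 0) =
      (1 - (1 - q) ^ u) ^ S.card := by
  induction S using Finset.induction_on with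
  | empty =>
    simp [cu, NE, M2.wt]
  | insert y S hy ih =>
    have hST : ∀ y1 ∈ ({y} : Finset ι), ∀ y' ∈ S, Disjoint (cell y1) (cell y') := by
      intro y1 hy1 y' hy'
      rw [Finset.mem_singleton] at hy1
      subst hy1
      exact hd _ (Finset.mem_insert_self _ _) _ (Finset.mem_insert_of_mem hy')
        (fun h => hy (h ▸ hy'))
    have h1 := sum_joint q hST (fun _ _ => (1 : ℝ))
    have ih' := ih (fun a ha b hb => hd a (Finset.mem_insert_of_mem ha) b (Finset.mem_insert_of_mem hb))
      (fun a ha => hu a (Finset.mem_insert_of_mem ha))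
    simp only [mul_one] at h1
    rw [ih', ← Finset.sum_mul] at h1
    rw [Finset.insert_eq, h1, cu_singleton]
    have h2 : ∑ x ∈ (cell y).powerset, (if NE cell {y} x then M2.wt q (cell y) x else 0) =
        1 - (1 - q) ^ u := by
      rw [← sum_ne q (cell y) (hu y (Finset.mem_insert_self _ _))]
      refine Finset.sum_congr rfl fun x _ => ?_
      simp [NE]
    rw [h2, ← Finset.insert_eq, Finset.card_insert_of_notMem hy, pow_succ]
    ring

/-- the probability that no cell is empty and a given candidate is present -/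
theorem sum_NE_mem (q : ℝ) {u : ℕ} (S : Finset ι)
    (hd : ∀ y ∈ S, ∀ y' ∈ S, y ≠ y' → Disjoint (cell y) (cell y'))
    (hu : ∀ y ∈ S, (cell y).card = u) {κ : Cand} {y : ι} (hy : y ∈ S) (hκ : κ ∈ cell y) :
    ∑ z ∈ (cu cell S).powerset, (if NE cell S z then M2.wt q (cu cell S) z else 0) *
      (if κ ∈ z then 1 else 0) = q * (1 - (1 - q) ^ u) ^ (S.card - 1) := by
  obtain ⟨T, hT, rfl⟩ : ∃ T, y ∉ T ∧ S = insert y T :=
    ⟨S.erase y, Finset.notMem_erase _ _, (Finset.insert_erase hy).symm⟩
  have hST : ∀ y1 ∈ T, ∀ y' ∈ ({y} : Finset ι), Disjoint (cell y1) (cell y') := by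
    intro y1 hy1 y' hy'
    rw [Finset.mem_singleton] at hy'
    subst hy'
    exact hd _ (Finset.mem_insert_of_mem hy1) _ (Finset.mem_insert_self _ _)
      (fun h => hT (h ▸ hy1))
  have h1 := sum_joint q hST (fun _ z => if κ ∈ z then (1 : ℝ) else 0)
  have h0 : insert y T = T ∪ {y} := by rw [Finset.insert_eq, Finset.union_comm]
  have h2 := sum_NE q T (fun a ha b hb => hd a (Finset.mem_insert_of_mem ha) b
    (Finset.mem_insert_of_mem hb)) (fun a ha => hu a (Finset.mem_insert_of_mem ha))
  rw [← Finset.sum_mul, h2, cu_singleton] at h1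
  have h3 : ∑ z ∈ (cell y).powerset, (if NE cell {y} z then M2.wt q (cell y) z else 0) *
      (if κ ∈ z then (1 : ℝ) else 0) = q := by
    refine Eq.trans (Finset.sum_congr rfl fun z _ => ?_) (M2.sum_wt_mem q hκ)
    by_cases h : κ ∈ z
    · have h4 : NE cell {y} z := by
        intro y' hy'
        rw [Finset.mem_singleton] at hy'
        subst hy'
        rw [Finset.not_disjoint_iff]
        exact ⟨κ, h, hκ⟩
      rw [if_pos h4, if_pos h, if_pos h, mul_one]
    · rw [if_neg h, if_neg h, mul_zero]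
  rw [h3] at h1
  have h4 : (insert y T).card - 1 = T.card := by rw [Finset.card_insert_of_notMem hT]; omega
  rw [h4, h0, mul_comm q, ← h1]
  refine Finset.sum_congr rfl fun z hz => ?_
  have h5 : (κ ∈ z ∩ cell y) ↔ κ ∈ z := by
    rw [Finset.mem_inter]
    exact ⟨fun h => h.1, fun h => ⟨h, hκ⟩⟩
  simp only [h5]
  split_ifs <;> ring

/-- the sets of hits whose set of marked pairs is `S` -/
theorem sum_emp (q : ℝ) {u : ℕ} (T S : Finset ι) (hST : S ⊆ T)
    (hd : ∀ y ∈ T, ∀ y' ∈ T, y ≠ y' → Disjoint (cell y) (cell y'))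
    (hu : ∀ y ∈ T, (cell y).card = u) (g : Finset Cand → ℝ) :
    ∑ H ∈ (cu cell T).powerset, (if T.filter (fun y => Disjoint H (cell y)) = S then
        M2.wt q (cu cell T) H * g H else 0) =
      ((1 - q) ^ u) ^ S.card * ∑ x ∈ (cu cell (T \ S)).powerset,
        (if NE cell (T \ S) x then M2.wt q (cu cell (T \ S)) x else 0) * g x := by
  have hdis : ∀ y ∈ T \ S, ∀ y' ∈ S, Disjoint (cell y) (cell y') := by
    intro y hy y' hy'
    rw [Finset.mem_sdiff] at hy
    exact hd y hy.1 y' (hST hy') (fun h => hy.2 (h ▸ hy'))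
  have hcd := cu_disjoint hdis
  have hU : cu cell T = cu cell (T \ S) ∪ cu cell S := by
    rw [← cu_union, Finset.sdiff_union_of_subset hST]
  have hcard : (cu cell S).card = S.card * u := by
    unfold cu
    rw [Finset.card_biUnion]
    · rw [Finset.sum_congr rfl (fun y hy => hu y (hST hy))]
      simp
    · intro y hy y' hy' h
      exact hd y (hST hy) y' (hST hy') h
  rw [hU, sum_split hcd, Finset.mul_sum]
  refine Finset.sum_congr rfl fun x hx => ?_
  rw [Finset.mem_powerset] at hx
  rw [Finset.sum_eq_single_of_mem ∅ (Finset.empty_mem_powerset _)]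
  · have h1 : T.filter (fun y => Disjoint (x ∪ ∅) (cell y)) = S ↔ NE cell (T \ S) x := by
      rw [Finset.union_empty]
      constructor
      · intro h y hy hy'
        rw [Finset.mem_sdiff] at hy
        apply hy.2
        rw [← h, Finset.mem_filter]
        exact ⟨hy.1, hy'⟩
      · intro h
        ext y
        rw [Finset.mem_filter]
        constructor
        · rintro ⟨hy, hy'⟩
          by_contra hc
          exact h y (Finset.mem_sdiff.2 ⟨hy, hc⟩) hy'
        · intro hy
          refine ⟨hST hy, Finset.disjoint_of_subset_left hx ?_⟩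
          unfold cu
          rw [Finset.disjoint_biUnion_left]
          intro y' hy'
          exact hdis y' hy' y hy
    have h2 : M2.wt q (cu cell (T \ S) ∪ cu cell S) (x ∪ ∅) =
        M2.wt q (cu cell (T \ S)) x * ((1 - q) ^ u) ^ S.card := by
      rw [wt_split q hcd hx (Finset.empty_subset _)]
      congr 1
      unfold M2.wt
      rw [Finset.card_empty, hcard, ← pow_mul, mul_comm u]
      simp
    by_cases h3 : NE cell (T \ S) x
    · rw [if_pos (h1.2 h3), if_pos h3, h2, Finset.union_empty]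
      ring
    · rw [if_neg (fun h => h3 (h1.1 h)), if_neg h3]
      ring
  · intro z hz hne
    rw [Finset.mem_powerset] at hz
    rw [if_neg]
    intro h
    apply hne
    rw [Finset.eq_empty_iff_forall_notMem]
    intro κ hκ
    have h1 := hz hκ
    unfold cu at h1
    rw [Finset.mem_biUnion] at h1
    obtain ⟨y, hy, hκy⟩ := h1
    rw [← h, Finset.mem_filter] at hy
    exact Finset.disjoint_left.1 hy.2 (Finset.mem_union_right _ hκ) hκy

theorem sum_pow_powerset (e : ℝ) (S : Finset ι) :
    ∑ T ∈ S.powerset, e ^ T.card = (1 + e) ^ S.card := by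
  have := Finset.sum_pow_mul_eq_add_pow e 1 S
  simp only [one_pow, mul_one] at this
  rw [this, add_comm]

theorem sum_pow_mem (e : ℝ) (S : Finset ι) {y : ι} (hy : y ∈ S) :
    ∑ T ∈ S.powerset, (if y ∈ T then e ^ T.card else 0) = e * (1 + e) ^ (S.card - 1) := by
  obtain ⟨V, hV, rfl⟩ : ∃ V, y ∉ V ∧ S = insert y V :=
    ⟨S.erase y, Finset.notMem_erase _ _, (Finset.insert_erase hy).symm⟩
  rw [Finset.sum_powerset_insert hV]
  have h1 : ∑ T ∈ V.powerset, (if y ∈ T then e ^ T.card else 0) = 0 := by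
    refine Finset.sum_eq_zero fun T hT => ?_
    rw [if_neg]
    exact fun h => hV (Finset.mem_powerset.1 hT h)
  have h2 : ∑ T ∈ V.powerset, (if y ∈ insert y T then e ^ (insert y T).card else 0) =
      e * ∑ T ∈ V.powerset, e ^ T.card := by
    rw [Finset.mul_sum]
    refine Finset.sum_congr rfl fun T hT => ?_
    rw [if_pos (Finset.mem_insert_self _ _), Finset.card_insert_of_notMem
      (fun h => hV (Finset.mem_powerset.1 hT h)), pow_succ]
    ring
  rw [h1, h2, sum_pow_powerset, Finset.card_insert_of_notMem hV]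
  simp

theorem meets_le (e : ℝ) (he : 0 ≤ e) {δ : ℝ} (hδ1 : δ < 1) (heδ : e = δ / (1 - δ)) {w : ℕ}
    (S : Finset ι) (hS : S.card = w) (hd : ∀ y ∈ S, ∀ y' ∈ S, y ≠ y' → Disjoint (cell y) (cell y'))
    (Q : Finset Cand) {t : ℕ} (hQ : Q.card ≤ t) (H : Finset Cand) :
    ∑ T ∈ S.powerset, e ^ T.card * (if Disjoint (H ∩ cu cell T) Q then 0 else 1) ≤
      t * (δ / (1 - δ) ^ w) := by
  have h1δ : 0 < 1 - δ := by linarith
  have hδ0 : 0 ≤ δ := by
    rw [heδ] at he
    by_contra hc
    have : δ / (1 - δ) < 0 := div_neg_of_neg_of_pos (by linarith) h1δ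
    linarith
  have h1 : ∀ T ∈ S.powerset, e ^ T.card * (if Disjoint (H ∩ cu cell T) Q then (0 : ℝ) else 1) ≤
      ∑ κ ∈ Q, if κ ∈ cu cell T then e ^ T.card else 0 := by
    intro T _
    have hnn : ∀ κ ∈ Q, (0 : ℝ) ≤ if κ ∈ cu cell T then e ^ T.card else 0 := by
      intro κ _
      split_ifs
      · exact pow_nonneg he _
      · exact le_rfl
    split_ifs with h
    · rw [mul_zero]
      exact Finset.sum_nonneg hnn
    · rw [Finset.not_disjoint_iff] at h
      obtain ⟨κ, h2, h3⟩ := h
      refine le_trans ?_ (Finset.single_le_sum hnn h3)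
      rw [if_pos (Finset.mem_inter.1 h2).2, mul_one]
  refine (Finset.sum_le_sum h1).trans ?_
  rw [Finset.sum_comm]
  have h2 : ∀ κ ∈ Q, ∑ T ∈ S.powerset, (if κ ∈ cu cell T then e ^ T.card else 0) ≤
      δ / (1 - δ) ^ w := by
    intro κ _
    by_cases hκ : ∃ y ∈ S, κ ∈ cell y
    · obtain ⟨y, hy, hy'⟩ := hκ
      have h3 : ∀ T ∈ S.powerset, (if κ ∈ cu cell T then e ^ T.card else 0) =
          if y ∈ T then e ^ T.card else 0 := by
        intro T hT
        have hT' := Finset.mem_powerset.1 hT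
        have : κ ∈ cu cell T ↔ y ∈ T := by
          unfold cu
          rw [Finset.mem_biUnion]
          constructor
          · rintro ⟨y1, hy1, hκ1⟩
            by_contra hc
            have hne : y ≠ y1 := fun h => hc (h ▸ hy1)
            exact Finset.disjoint_left.1 (hd y hy y1 (hT' hy1) hne) hy' hκ1
          · intro h
            exact ⟨y, h, hy'⟩
        simp only [this]
      rw [Finset.sum_congr rfl h3, sum_pow_mem e S hy, hS, heδ]
      have hw : 0 < w := by rw [← hS]; exact Finset.card_pos.2 ⟨y, hy⟩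
      obtain ⟨v, rfl⟩ : ∃ v, w = v + 1 := ⟨w - 1, by omega⟩
      have h4 : 1 + δ / (1 - δ) = (1 - δ)⁻¹ := by field_simp; ring
      rw [h4, Nat.add_sub_cancel, inv_pow, pow_succ]
      rw [div_mul_eq_mul_div, ← div_eq_mul_inv, div_div]
    · have h3 : ∀ T ∈ S.powerset, (if κ ∈ cu cell T then e ^ T.card else 0) = 0 := by
        intro T hT
        rw [if_neg]
        intro h
        unfold cu at h
        rw [Finset.mem_biUnion] at h
        obtain ⟨y, hy, hy'⟩ := h
        exact hκ ⟨y, Finset.mem_powerset.1 hT hy, hy'⟩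
      rw [Finset.sum_congr rfl h3, Finset.sum_const_zero]
      exact div_nonneg hδ0 (pow_nonneg h1δ.le _)
  refine (Finset.sum_le_sum h2).trans ?_
  rw [Finset.sum_const, nsmul_eq_mul]
  refine mul_le_mul_of_nonneg_right (by exact_mod_cast hQ) ?_
  exact div_nonneg hδ0 (pow_nonneg h1δ.le _)

theorem wt_nonneg {q : ℝ} (h0 : 0 ≤ q) (h1 : q ≤ 1) (W h : Finset Cand) : 0 ≤ M2.wt q W h :=
  mul_nonneg (pow_nonneg h0 _) (pow_nonneg (by linarith) _)

/-- planted hits are rarely touched -/
theorem planted_le {q : ℝ} (hq0 : 0 ≤ q) (hq1 : q ≤ 1) {u : ℕ} (hδ : (1 - q) ^ u ≤ 1 / 2)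
    (S : Finset ι) (hne : S ≠ ∅)
    (hd : ∀ y ∈ S, ∀ y' ∈ S, y ≠ y' → Disjoint (cell y) (cell y'))
    (hu : ∀ y ∈ S, (cell y).card = u) (Q : Finset Cand) {t : ℕ} (hQ : Q.card ≤ t) :
    ∑ z ∈ (cu cell S).powerset, (if NE cell S z then M2.wt q (cu cell S) z else 0) *
      (if Disjoint z Q then 0 else 1) ≤ t * (2 * q) * (1 - (1 - q) ^ u) ^ S.card := by
  have hnw : ∀ z, (0 : ℝ) ≤ (if NE cell S z then M2.wt q (cu cell S) z else 0) := by
    intro z
    split_ifs
    · exact wt_nonneg hq0 hq1 _ _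
    · exact le_rfl
  have h1 : ∀ z ∈ (cu cell S).powerset, (if NE cell S z then M2.wt q (cu cell S) z else 0) *
      (if Disjoint z Q then (0 : ℝ) else 1) ≤
      ∑ κ ∈ Q, (if NE cell S z then M2.wt q (cu cell S) z else 0) * (if κ ∈ z then 1 else 0) := by
    intro z _
    have hnn : ∀ κ ∈ Q, (0 : ℝ) ≤ (if NE cell S z then M2.wt q (cu cell S) z else 0) *
        (if κ ∈ z then 1 else 0) := by
      intro κ _
      refine mul_nonneg (hnw z) ?_
      split_ifs <;> norm_num
    split_ifs with h1 h2 h2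
    · rw [mul_zero]
      refine Finset.sum_nonneg fun κ _ => ?_
      refine mul_nonneg (wt_nonneg hq0 hq1 _ _) ?_
      split_ifs <;> norm_num
    · rw [Finset.not_disjoint_iff] at h2
      obtain ⟨κ, h3, h4⟩ := h2
      have h5 : ∀ κ ∈ Q, (0 : ℝ) ≤ M2.wt q (cu cell S) z * (if κ ∈ z then 1 else 0) := by
        intro κ _
        refine mul_nonneg (wt_nonneg hq0 hq1 _ _) ?_
        split_ifs <;> norm_num
      refine le_trans ?_ (Finset.single_le_sum h5 h4)
      rw [if_pos h3]
    · simp
    · simp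
  refine (Finset.sum_le_sum h1).trans ?_
  rw [Finset.sum_comm]
  have h1δ : 0 < 1 - (1 - q) ^ u := by linarith
  have hcard : 0 < S.card := Finset.card_pos.2 (Finset.nonempty_iff_ne_empty.2 hne)
  obtain ⟨v, hv⟩ : ∃ v, S.card = v + 1 := ⟨S.card - 1, by omega⟩
  have h2 : ∀ κ ∈ Q, ∑ z ∈ (cu cell S).powerset,
      (if NE cell S z then M2.wt q (cu cell S) z else 0) * (if κ ∈ z then 1 else 0) ≤
      2 * q * (1 - (1 - q) ^ u) ^ S.card := by
    intro κ _
    by_cases hκ : ∃ y ∈ S, κ ∈ cell y
    · obtain ⟨y, hy, hy'⟩ := hκ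
      rw [sum_NE_mem q S hd hu hy hy', hv, Nat.add_sub_cancel, pow_succ]
      have h3 : (0 : ℝ) ≤ (1 - (1 - q) ^ u) ^ v := pow_nonneg h1δ.le _
      have h4 : (1 : ℝ) ≤ 2 * (1 - (1 - q) ^ u) := by linarith
      nlinarith [mul_nonneg hq0 h3, mul_nonneg (mul_nonneg hq0 h3) (sub_nonneg.2 h4)]
    · have h3 : ∀ z ∈ (cu cell S).powerset,
          (if NE cell S z then M2.wt q (cu cell S) z else 0) *
            (if κ ∈ z then (1 : ℝ) else 0) = 0 := by
        intro z hz
        rw [if_neg (c := κ ∈ z), mul_zero]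
        intro h
        have h4 := Finset.mem_powerset.1 hz h
        unfold cu at h4
        rw [Finset.mem_biUnion] at h4
        obtain ⟨y, hy, hy'⟩ := h4
        exact hκ ⟨y, hy, hy'⟩
      rw [Finset.sum_congr rfl h3, Finset.sum_const_zero]
      exact mul_nonneg (by linarith) (pow_nonneg h1δ.le _)
  refine (Finset.sum_le_sum h2).trans ?_
  rw [Finset.sum_const, nsmul_eq_mul, mul_assoc (t : ℝ)]
  refine mul_le_mul_of_nonneg_right (by exact_mod_cast hQ) ?_
  exact mul_nonneg (by linarith) (pow_nonneg h1δ.le _)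

end

end Sig

open Classical Sig in
theorem sigma_fin {ι : Type} (Y : Bool → Finset ι) (hY : Disjoint (Y false) (Y true))
    (cell : ι → Finset Cand)
    (hcell : ∀ i, ∀ y ∈ Y i, ∀ i', ∀ y' ∈ Y i', y ≠ y' → Disjoint (cell y) (cell y'))
    {u w t : ℕ} (hu : ∀ i, ∀ y ∈ Y i, (cell y).card = u) (hw : ∀ i, (Y i).card = w)
    {q : ℝ} (hq0 : 0 < q) (hq1 : q ≤ 1 / 2) (hδ : (1 - q) ^ u ≤ 1 / 2)
    (U : Finset Cand) (hU : U = (Y false).biUnion cell ∪ (Y true).biUnion cell)
    (F : Finset Cand → Prop) (Q : Finset Cand → Finset Cand) (hQ : ∀ H, (Q H).card ≤ t)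
    (hF : ∀ H ⊆ U, ∀ h ⊆ U, Disjoint h (Q H) → Disjoint h (Q (H ∪ h)) → (F (H ∪ h) ↔ F H)) :
    (1 - (1 - q) ^ u) ^ w * (1 - (1 - (1 - q) ^ u) ^ w - t * (1 - q) ^ u - 4 * t * q) ≤
      ∑ H ∈ U.powerset, if
        ((∀ y ∈ Y false, ¬ Mkd cell H y) ∧ (∃ y ∈ Y true, Mkd cell H y) ∧ F H) ∨
        ((∃ y ∈ Y false, Mkd cell H y) ∧ (∀ y ∈ Y true, ¬ Mkd cell H y) ∧ ¬ F H)
        then M2.wt q U H else 0 := by
  have hq1' : q ≤ 1 := by linarith
  obtain ⟨T, hT⟩ : ∃ T, T = Y false ∪ Y true := ⟨_, rfl⟩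
  obtain ⟨δ, hδe⟩ : ∃ δ, δ = (1 - q) ^ u := ⟨_, rfl⟩
  have hδ0 : 0 ≤ δ := by rw [hδe]; exact pow_nonneg (by linarith) _
  rw [← hδe] at hδ ⊢
  have hYT : ∀ i, Y i ⊆ T := by
    intro i
    rw [hT]
    cases i
    · exact Finset.subset_union_left
    · exact Finset.subset_union_right
  have hmemT : ∀ y ∈ T, ∃ i, y ∈ Y i := by
    intro y hy
    rw [hT, Finset.mem_union] at hy
    rcases hy with hy | hy
    · exact ⟨false, hy⟩
    · exact ⟨true, hy⟩
  have hd : ∀ y ∈ T, ∀ y' ∈ T, y ≠ y' → Disjoint (cell y) (cell y') := by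
    intro y hy y' hy' hne
    obtain ⟨i, hi⟩ := hmemT y hy
    obtain ⟨i', hi'⟩ := hmemT y' hy'
    exact hcell i y hi i' y' hi' hne
  have huT : ∀ y ∈ T, (cell y).card = u := by
    intro y hy
    obtain ⟨i, hi⟩ := hmemT y hy
    exact hu i y hi
  have hUT : U = cu cell T := by
    rw [hU, hT]
    exact (cu_union _ _).symm
  have hTc : T.card = 2 * w := by
    rw [hT, Finset.card_union_of_disjoint hY, hw, hw]
    ring
  obtain ⟨a, ha⟩ : ∃ a, a = (1 - δ) ^ w := ⟨_, rfl⟩
  have h1δ : 0 < 1 - δ := by linarith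
  have ha0 : 0 < a := by rw [ha]; exact pow_pos h1δ _
  have ha1 : a ≤ 1 := by rw [ha]; exact pow_le_one₀ h1δ.le (by linarith)
  obtain ⟨e, he⟩ : ∃ e, e = δ / (1 - δ) := ⟨_, rfl⟩
  have he0 : 0 ≤ e := by rw [he]; exact div_nonneg hδ0 h1δ.le
  have h1e : 1 + e = (1 - δ)⁻¹ := by rw [he]; field_simp; ring
  have h1ew : (1 + e) ^ w = a⁻¹ := by rw [h1e, inv_pow, ha]
  -- the weight of a set of hits without marked pairs
  obtain ⟨N, hN⟩ : ∃ N : Finset Cand → ℝ,
      N = fun H => if NE cell T H then M2.wt q (cu cell T) H else 0 := ⟨_, rfl⟩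
  have hN0 : ∀ H, 0 ≤ N H := by
    intro H
    rw [hN]
    show (0 : ℝ) ≤ if NE cell T H then M2.wt q (cu cell T) H else 0
    split_ifs
    · exact wt_nonneg hq0.le hq1' _ _
    · exact le_rfl
  have hNs : ∑ H ∈ U.powerset, N H = a ^ 2 := by
    rw [hUT, hN]
    show ∑ H ∈ (cu cell T).powerset, (if NE cell T H then M2.wt q (cu cell T) H else 0) = _
    rw [sum_NE q T hd huT, hTc, ← hδe, ha, ← pow_mul, mul_comm]
  -- the nonempty subsets
  obtain ⟨P, hP⟩ : ∃ P : Bool → Finset (Finset ι), P = fun i => (Y i).powerset.erase ∅ := ⟨_, rfl⟩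
  have hPm : ∀ i S, S ∈ P i ↔ S ≠ ∅ ∧ S ⊆ Y i := by
    intro i S
    rw [hP]
    simp only [Finset.mem_erase, Finset.mem_powerset]
  have hPs : ∀ i, ∑ S ∈ P i, e ^ S.card = a⁻¹ - 1 := by
    intro i
    have h1 := Finset.sum_erase_add (Y i).powerset (fun S : Finset ι => e ^ S.card)
      (Finset.empty_mem_powerset (Y i))
    rw [sum_pow_powerset, hw, h1ew] at h1
    simp only [Finset.card_empty, pow_zero] at h1
    rw [hP]
    show ∑ S ∈ (Y i).powerset.erase ∅, e ^ S.card = _
    linarith
  -- decomposition of the sum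
  have hstep1 : ∑ i : Bool, ∑ S ∈ P i, ∑ H ∈ U.powerset,
      (if T.filter (fun y => Disjoint H (cell y)) = S then
        M2.wt q (cu cell T) H * (if decide (F H) = i then 1 else 0) else 0) ≤
      ∑ H ∈ U.powerset, if
        ((∀ y ∈ Y false, ¬ Mkd cell H y) ∧ (∃ y ∈ Y true, Mkd cell H y) ∧ F H) ∨
        ((∃ y ∈ Y false, Mkd cell H y) ∧ (∀ y ∈ Y true, ¬ Mkd cell H y) ∧ ¬ F H)
        then M2.wt q U H else 0 := by
    have h1 : ∀ i, ∑ S ∈ P i, ∑ H ∈ U.powerset,
        (if T.filter (fun y => Disjoint H (cell y)) = S then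
          M2.wt q (cu cell T) H * (if decide (F H) = i then (1 : ℝ) else 0) else 0) =
        ∑ H ∈ U.powerset, if T.filter (fun y => Disjoint H (cell y)) ∈ P i then
          M2.wt q (cu cell T) H * (if decide (F H) = i then (1 : ℝ) else 0) else 0 := by
      intro i
      rw [Finset.sum_comm]
      refine Finset.sum_congr rfl fun H _ => ?_
      rw [Finset.sum_ite_eq]
    rw [Finset.sum_congr rfl (fun i _ => h1 i), Finset.sum_comm]
    refine Finset.sum_le_sum fun H _ => ?_
    rw [Fintype.sum_bool, hUT]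
    have hwt := wt_nonneg hq0.le hq1' (cu cell T) H
    have hmk : ∀ y, Mkd cell H y ↔ Disjoint H (cell y) := fun y => Iff.rfl
    by_cases hFH : F H
    · have e1 : (if decide (F H) = true then (1 : ℝ) else 0) = 1 := by simp [hFH]
      have e2 : (if decide (F H) = false then (1 : ℝ) else 0) = 0 := by simp [hFH]
      rw [e1, e2, mul_one, mul_zero, ite_self, add_zero]
      by_cases hm : T.filter (fun y => Disjoint H (cell y)) ∈ P true
      · rw [if_pos hm, if_pos]
        left
        rw [hPm] at hm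
        refine ⟨?_, ?_, hFH⟩
        · intro y hy hc
          have h2 : y ∈ Y true := hm.2 (Finset.mem_filter.2 ⟨hYT false hy, hc⟩)
          exact Finset.disjoint_left.1 hY hy h2
        · obtain ⟨y, hy⟩ := Finset.nonempty_iff_ne_empty.2 hm.1
          exact ⟨y, hm.2 hy, (Finset.mem_filter.1 hy).2⟩
      · rw [if_neg hm]
        split_ifs
        · exact hwt
        · exact le_rfl
    · have e1 : (if decide (F H) = true then (1 : ℝ) else 0) = 0 := by simp [hFH]
      have e2 : (if decide (F H) = false then (1 : ℝ) else 0) = 1 := by simp [hFH]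
      rw [e1, e2, mul_one, mul_zero, ite_self, zero_add]
      by_cases hm : T.filter (fun y => Disjoint H (cell y)) ∈ P false
      · rw [if_pos hm, if_pos]
        right
        rw [hPm] at hm
        refine ⟨?_, ?_, hFH⟩
        · obtain ⟨y, hy⟩ := Finset.nonempty_iff_ne_empty.2 hm.1
          exact ⟨y, hm.2 hy, (Finset.mem_filter.1 hy).2⟩
        · intro y hy hc
          have h2 : y ∈ Y false := hm.2 (Finset.mem_filter.2 ⟨hYT true hy, hc⟩)
          exact Finset.disjoint_left.1 hY h2 hy
      · rw [if_neg hm]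
        split_ifs
        · exact hwt
        · exact le_rfl
  refine le_trans ?_ hstep1
  -- removing the hits of the cells of `S`
  have hjoint : ∀ i, ∀ S ∈ P i, ∀ φ : Finset Cand → Finset Cand → ℝ,
      ∑ H ∈ U.powerset, N H * φ (H \ cu cell S) (H ∩ cu cell S) =
        ∑ x ∈ (cu cell (T \ S)).powerset,
          (if NE cell (T \ S) x then M2.wt q (cu cell (T \ S)) x else 0) *
          ∑ z ∈ (cu cell S).powerset, (if NE cell S z then M2.wt q (cu cell S) z else 0) * φ x z := by
    intro i S hS φ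
    rw [hPm] at hS
    have hST := hS.2.trans (hYT i)
    have h1 := sum_joint (cell := cell) q (S := T \ S) (T := S) (by
      intro y hy y' hy'
      rw [Finset.mem_sdiff] at hy
      exact hd y hy.1 y' (hST hy') (fun h => hy.2 (h ▸ hy'))) φ
    rw [Finset.sdiff_union_of_subset hST] at h1
    rw [← h1, hUT]
    refine Finset.sum_congr rfl fun H _ => ?_
    rw [hN]
    show (if NE cell T H then M2.wt q (cu cell T) H else 0) * _ = _
    split_ifs <;> ring
  have hdS : ∀ i, ∀ S ∈ P i, (∀ y ∈ S, ∀ y' ∈ S, y ≠ y' → Disjoint (cell y) (cell y')) ∧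
      (∀ y ∈ S, (cell y).card = u) ∧ S ⊆ T := by
    intro i S hS
    rw [hPm] at hS
    have hST := hS.2.trans (hYT i)
    exact ⟨fun y hy y' hy' => hd y (hST hy) y' (hST hy'), fun y hy => huT y (hST hy), hST⟩
  have hstep2 : ∀ i, ∀ S ∈ P i, ∑ H ∈ U.powerset,
      (if T.filter (fun y => Disjoint H (cell y)) = S then
        M2.wt q (cu cell T) H * (if decide (F H) = i then (1 : ℝ) else 0) else 0) =
      ∑ H ∈ U.powerset, N H * (e ^ S.card * (if decide (F (H \ cu cell S)) = i then 1 else 0)) := by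
    intro i S hS
    obtain ⟨h1, h2, h3⟩ := hdS i S hS
    have h4 := sum_emp q T S h3 hd huT (fun H => if decide (F H) = i then (1 : ℝ) else 0)
    have h5 := hjoint i S hS (fun x _ => e ^ S.card * (if decide (F x) = i then (1 : ℝ) else 0))
    have h6 := sum_NE q S h1 h2
    rw [hUT] at h5 ⊢
    rw [h4, h5, Finset.mul_sum, ← hδe]
    refine Finset.sum_congr rfl fun x _ => ?_
    rw [← Finset.sum_mul, h6, ← hδe]
    have h7 : δ ^ S.card = (1 - δ) ^ S.card * e ^ S.card := by
      rw [← mul_pow, he]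
      congr 1
      field_simp
    rw [h7]
    ring
  rw [Finset.sum_congr rfl (fun i _ => Finset.sum_congr rfl (fun S hS => hstep2 i S hS))]
  -- the loss because of touched hits
  have hstep3 : ∑ H ∈ U.powerset, N H * ((a⁻¹ - 1) - t * (δ / a)) -
      ∑ i : Bool, ∑ S ∈ P i, ∑ H ∈ U.powerset, N H * (e ^ S.card *
        (if Disjoint (H ∩ cu cell S) (Q (H \ cu cell S)) then 0 else 1)) ≤
      ∑ i : Bool, ∑ S ∈ P i, ∑ H ∈ U.powerset,
        N H * (e ^ S.card * (if decide (F (H \ cu cell S)) = i then 1 else 0)) := by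
    have hsw : ∀ ψ : Bool → Finset ι → Finset Cand → ℝ,
        ∑ i : Bool, ∑ S ∈ P i, ∑ H ∈ U.powerset, N H * ψ i S H =
          ∑ H ∈ U.powerset, N H * ∑ i : Bool, ∑ S ∈ P i, ψ i S H := by
      intro ψ
      rw [Finset.sum_congr rfl (fun i _ => Finset.sum_comm), Finset.sum_comm]
      refine Finset.sum_congr rfl fun H _ => ?_
      rw [Finset.mul_sum]
      refine Finset.sum_congr rfl fun i _ => ?_
      rw [Finset.mul_sum]
    rw [hsw (fun i S H => e ^ S.card *
        (if Disjoint (H ∩ cu cell S) (Q (H \ cu cell S)) then (0 : ℝ) else 1)),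
      hsw (fun i S H => e ^ S.card * (if decide (F (H \ cu cell S)) = i then (1 : ℝ) else 0)),
      ← Finset.sum_sub_distrib]
    refine Finset.sum_le_sum fun H hH => ?_
    rw [← mul_sub]
    refine mul_le_mul_of_nonneg_left ?_ (hN0 H)
    rw [Finset.mem_powerset] at hH
    have hpt : ∀ S : Finset ι, e ^ S.card - e ^ S.card *
        (if Disjoint (H ∩ cu cell S) (Q H) then (0 : ℝ) else 1) - e ^ S.card *
        (if Disjoint (H ∩ cu cell S) (Q (H \ cu cell S)) then (0 : ℝ) else 1) ≤
        e ^ S.card * (if decide (F (H \ cu cell S)) = decide (F H) then (1 : ℝ) else 0) := by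
      intro S
      have hp : 0 ≤ e ^ S.card := pow_nonneg he0 _
      by_cases h1 : Disjoint (H ∩ cu cell S) (Q H)
      · by_cases h2 : Disjoint (H ∩ cu cell S) (Q (H \ cu cell S))
        · have h3 : H \ cu cell S ∪ H ∩ cu cell S = H := Finset.sdiff_union_inter _ _
          have h4 := hF (H \ cu cell S) (Finset.sdiff_subset.trans hH) (H ∩ cu cell S)
            (Finset.inter_subset_left.trans hH) h2 (by rw [h3]; exact h1)
          rw [h3] at h4
          have h5 : decide (F (H \ cu cell S)) = decide (F H) := by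
            rw [decide_eq_decide]
            exact h4.symm
          rw [if_pos h1, if_pos h2, if_pos h5]
          linarith
        · rw [if_pos h1, if_neg h2]
          split_ifs <;> linarith
      · rw [if_neg h1]
        split_ifs <;> linarith
    have hA := hPs (decide (F H))
    have hB : ∑ S ∈ P (decide (F H)), e ^ S.card *
        (if Disjoint (H ∩ cu cell S) (Q H) then (0 : ℝ) else 1) ≤ t * (δ / a) := by
      have h1 := meets_le (cell := cell) e he0 (δ := δ) (by linarith) he (w := w)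
        (Y (decide (F H))) (hw _)
        (fun y hy y' hy' hne => hd y (hYT _ hy) y' (hYT _ hy') hne) (Q H) (hQ H) H
      rw [← ha] at h1
      refine le_trans (Finset.sum_le_sum_of_subset_of_nonneg ?_ ?_) h1
      · rw [hP]
        exact Finset.erase_subset _ _
      · intro S _ _
        refine mul_nonneg (pow_nonneg he0 _) ?_
        split_ifs <;> norm_num
    have hC : ∑ S ∈ P (decide (F H)), e ^ S.card *
        (if Disjoint (H ∩ cu cell S) (Q (H \ cu cell S)) then (0 : ℝ) else 1) ≤
        ∑ i : Bool, ∑ S ∈ P i, e ^ S.card *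
        (if Disjoint (H ∩ cu cell S) (Q (H \ cu cell S)) then (0 : ℝ) else 1) := by
      refine Finset.single_le_sum (f := fun i => ∑ S ∈ P i, e ^ S.card *
        (if Disjoint (H ∩ cu cell S) (Q (H \ cu cell S)) then (0 : ℝ) else 1)) ?_
        (Finset.mem_univ _)
      intro i _
      refine Finset.sum_nonneg fun S _ => mul_nonneg (pow_nonneg he0 _) ?_
      split_ifs <;> norm_num
    have hD : ∑ S ∈ P (decide (F H)), e ^ S.card *
        (if decide (F (H \ cu cell S)) = decide (F H) then (1 : ℝ) else 0) ≤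
        ∑ i : Bool, ∑ S ∈ P i, e ^ S.card *
        (if decide (F (H \ cu cell S)) = i then (1 : ℝ) else 0) := by
      refine Finset.single_le_sum (f := fun i => ∑ S ∈ P i, e ^ S.card *
        (if decide (F (H \ cu cell S)) = i then (1 : ℝ) else 0)) ?_ (Finset.mem_univ _)
      intro i _
      refine Finset.sum_nonneg fun S _ => mul_nonneg (pow_nonneg he0 _) ?_
      split_ifs <;> norm_num
    have hE := Finset.sum_le_sum (s := P (decide (F H))) (fun S _ => hpt S)
    rw [Finset.sum_sub_distrib, Finset.sum_sub_distrib, hA] at hE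
    linarith
  refine le_trans ?_ hstep3
  -- the planted hits
  have hstep4 : ∑ i : Bool, ∑ S ∈ P i, ∑ H ∈ U.powerset, N H * (e ^ S.card *
        (if Disjoint (H ∩ cu cell S) (Q (H \ cu cell S)) then (0 : ℝ) else 1)) ≤
      4 * t * q * (a * (1 - a)) := by
    have h1 : ∀ i, ∀ S ∈ P i, ∑ H ∈ U.powerset, N H * (e ^ S.card *
        (if Disjoint (H ∩ cu cell S) (Q (H \ cu cell S)) then (0 : ℝ) else 1)) ≤
        e ^ S.card * (t * (2 * q) * a ^ 2) := by
      intro i S hS
      obtain ⟨h1, h2, h3⟩ := hdS i S hS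
      have h5 := hjoint i S hS (fun x z => e ^ S.card * (if Disjoint z (Q x) then (0 : ℝ) else 1))
      rw [h5]
      have h6 : ∀ x ∈ (cu cell (T \ S)).powerset,
          (if NE cell (T \ S) x then M2.wt q (cu cell (T \ S)) x else 0) *
          ∑ z ∈ (cu cell S).powerset, (if NE cell S z then M2.wt q (cu cell S) z else 0) *
            (e ^ S.card * (if Disjoint z (Q x) then (0 : ℝ) else 1)) ≤
          (if NE cell (T \ S) x then M2.wt q (cu cell (T \ S)) x else 0) *
            (e ^ S.card * (t * (2 * q) * (1 - δ) ^ S.card)) := by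
        intro x _
        refine mul_le_mul_of_nonneg_left ?_ ?_
        · have h7 := planted_le hq0.le hq1' (by rw [← hδe]; exact hδ) S ((hPm i S).1 hS).1 h1 h2
            (Q x) (hQ x)
          rw [← hδe] at h7
          have h8 := mul_le_mul_of_nonneg_left h7 (pow_nonneg he0 S.card)
          refine le_trans (le_of_eq ?_) h8
          rw [Finset.mul_sum]
          refine Finset.sum_congr rfl fun z _ => ?_
          ring
        · split_ifs
          · exact wt_nonneg hq0.le hq1' _ _
          · exact le_rfl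
      refine (Finset.sum_le_sum h6).trans ?_
      rw [← Finset.sum_mul]
      have h7 := sum_NE (cell := cell) q (T \ S)
        (fun y hy y' hy' => hd y (Finset.mem_sdiff.1 hy).1 y' (Finset.mem_sdiff.1 hy').1)
        (fun y hy => huT y (Finset.mem_sdiff.1 hy).1)
      rw [h7, ← hδe]
      have h8 : (T \ S).card + S.card = 2 * w := by
        rw [← hTc]
        exact Finset.card_sdiff_add_card_eq_card h3
      have h9 : (1 - δ) ^ (T \ S).card * (1 - δ) ^ S.card = a ^ 2 := by
        rw [← pow_add, h8, ha, ← pow_mul, mul_comm]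
      have h10 : (1 - δ) ^ (T \ S).card * (e ^ S.card * (t * (2 * q) * (1 - δ) ^ S.card)) =
          e ^ S.card * (t * (2 * q) * ((1 - δ) ^ (T \ S).card * (1 - δ) ^ S.card)) := by ring
      rw [h10, h9]
    refine (Finset.sum_le_sum fun i _ => Finset.sum_le_sum (h1 i)).trans ?_
    have h2 : ∀ i, ∑ S ∈ P i, e ^ S.card * (t * (2 * q) * a ^ 2) =
        (a⁻¹ - 1) * (t * (2 * q) * a ^ 2) := by
      intro i
      rw [← Finset.sum_mul, hPs]
    rw [Fintype.sum_bool, h2, h2]
    refine le_of_eq ?_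
    field_simp
    ring
  have hfin : ∑ H ∈ U.powerset, N H * ((a⁻¹ - 1) - t * (δ / a)) = a * (1 - a) - a * t * δ := by
    rw [← Finset.sum_mul, hNs]
    field_simp
  rw [hfin, ← ha]
  have h1 : (0 : ℝ) ≤ t * q := mul_nonneg (Nat.cast_nonneg _) hq0.le
  have h2 : 4 * t * q * (a * (1 - a)) ≤ 4 * t * q * a := by
    have h3 : a * (1 - a) ≤ a := by nlinarith
    nlinarith
  nlinarith

end Pool.Agent.H583R2.S2
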