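import Pool.Agent.H628R3.RO.M5

/-!
# Averaging over the oracles without hits in the cells
-/

namespace Pool.Agent.H583R2.S2

open MeasureTheory Pool.Agent.H628R3.RO Pool.Agent.H628R3.RO.M2 Pool.Agent.H628R3.RO.M5

namespace SigA

theorem allSpots_union (m : ℕ) (H h : Finset Cand) :
    allSpots m (H ∪ h) = allSpots m H ∪ allSpots m h := by
  classical
  ext x
  simp only [mem_allSpots, Finset.mem_union]
  constructor
  · rintro ⟨κ, h1 | h1, h2⟩
    · exact Or.inl ⟨κ, h1, h2⟩
    · exact Or.inr ⟨κ, h1, h2⟩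
  · rintro (⟨κ, h1, h2⟩ | ⟨κ, h1, h2⟩)
    · exact ⟨κ, Or.inl h1, h2⟩
    · exact ⟨κ, Or.inr h1, h2⟩

theorem plant_plant' (m : ℕ) (H h : Finset Cand) (B : Oracle) :
    plant (allSpots m h) (plant (allSpots m H) B) = plant (allSpots m (H ∪ h)) B := by
  rw [allSpots_union]
  funext x
  unfold plant
  by_cases h1 : x ∈ allSpots m h
  · simp [h1]
  · by_cases h2 : x ∈ allSpots m H
    · simp [h2]
    · simp [h1, h2]

/-- marks of the planted oracle -/
theorem noHit_plant {m : ℕ} {U W H : Finset Cand} {B : Oracle} (hB : B ∈ NoHit m U) (hW : W ⊆ U) :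
    plant (allSpots m H) B ∈ NoHit m W ↔ Disjoint H W := by
  constructor
  · intro h
    rw [Finset.disjoint_left]
    intro κ hκ hκ'
    exact h κ hκ' (hit_plant_self hκ B)
  · intro h κ hκ hh
    have h1 : κ ∉ H := fun h2 => Finset.disjoint_left.1 h h2 hκ
    exact hB κ (hW hκ) ((hit_plant h1 B).1 hh)

open Classical in
/-- averaging: a lower bound for the sum over the planted sets, for every oracle without hits, gives
a lower bound for the probability. -/
theorem average {K : Set (List Bool)} (hK : K.Finite) {η T : Set Oracle} (hη : Loc K η) (hT : Loc K T)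
    {m : ℕ} (hm : 1 ≤ m) (U : Finset Cand)
    (hη' : ∀ (B : Oracle) (h : Finset Cand), h ⊆ U → (plant (allSpots m h) B ∈ η ↔ B ∈ η))
    (P : Finset Cand → Oracle → Prop)
    (hP : ∀ B ∈ NoHit m U, ∀ H ⊆ U, (P H B → plant (allSpots m H) B ∈ T)) (L : ℝ)
    (hL : ∀ B ∈ η ∩ NoHit m U, L ≤ ∑ H ∈ U.powerset, if P H B then wt ((1 / 2 : ℝ) ^ m) U H else 0) :
    L * prob η ≤ prob (η ∩ T) := by
  set q : ℝ := (1 / 2) ^ m with hq
  have hq0 : 0 < q := by positivity
  have hq1 : q ≤ 1 / 2 := by
    rw [hq]
    calc (1 / 2 : ℝ) ^ m ≤ (1 / 2) ^ 1 := pow_le_pow_of_le_one (by norm_num) (by norm_num) hm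
      _ = 1 / 2 := by norm_num
  have hηm := measurableSet_of_loc hK hη
  have hTm := measurableSet_of_loc hK hT
  have hNm : MeasurableSet (NoHit m U) := measurableSet_noHit m _
  have hwt : ∀ H, 0 ≤ wt q U H := fun H => wt_nonneg hq0.le (by linarith) U H
  have hpos : 0 < (1 - q) ^ U.card := by apply pow_pos; linarith
  have hηN : prob (η ∩ NoHit m U) = prob η * (1 - q) ^ U.card := by
    apply prob_noHit_aux hηm
    intro κ hκ A
    rw [← allSpots_singleton]
    exact hη' A {κ} (Finset.singleton_subset_iff.2 hκ)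
  have hsum : prob (η ∩ T) * (1 - q) ^ U.card =
      ∑ h ∈ U.powerset, wt q U h * prob (plant (allSpots m h) ⁻¹' (η ∩ T) ∩ NoHit m U) := by
    rw [prob_eq_sum (hηm.inter hTm) m U, Finset.sum_mul]
    refine Finset.sum_congr rfl fun h hh => ?_
    rw [Finset.mem_powerset] at hh
    have h1 := prob_hitSet (hηm.inter hTm) m hh
    rw [← hq] at h1
    have h2 : (1 - q) ^ U.card = (1 - q) ^ h.card * (1 - q) ^ (U.card - h.card) := by
      rw [← pow_add]
      congr 1
      have := Finset.card_le_card hh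
      omega
    unfold wt
    rw [h2, ← mul_assoc, h1]
    ring
  set G : Finset Cand → Set Oracle := fun h => plant (allSpots m h) ⁻¹' (η ∩ T) ∩ NoHit m U with hG
  have hGm : ∀ h, MeasurableSet (G h) := fun h =>
    (measurable_plant _ (hηm.inter hTm)).inter hNm
  have hint : ∀ h ∈ U.powerset, Integrable (fun B => wt q U h * (G h).indicator (fun _ => (1 : ℝ)) B)
      randomOracle := fun h _ =>
    ((integrable_const (1 : ℝ)).indicator (hGm h)).const_mul _
  have h1 : ∑ h ∈ U.powerset, wt q U h * prob (G h) =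
      ∫ B, ∑ h ∈ U.powerset, wt q U h * (G h).indicator (fun _ => (1 : ℝ)) B ∂randomOracle := by
    rw [integral_finsetSum _ hint]
    refine Finset.sum_congr rfl fun h _ => ?_
    rw [integral_const_mul, integral_indicator_const _ (hGm h)]
    simp [prob]
  have h2 : L * prob (η ∩ NoHit m U) =
      ∫ B, (η ∩ NoHit m U).indicator (fun _ => L) B ∂randomOracle := by
    rw [integral_indicator_const _ (hηm.inter hNm)]
    unfold prob
    simp [mul_comm]
  have h3 : L * prob (η ∩ NoHit m U) ≤ ∑ h ∈ U.powerset, wt q U h * prob (G h) := by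
    rw [h1, h2]
    apply integral_mono ((integrable_const L).indicator (hηm.inter hNm)) (integrable_finsetSum _ hint)
    intro B
    by_cases hB : B ∈ η ∩ NoHit m U
    · simp only [Set.indicator_of_mem hB]
      refine (hL B hB).trans (Finset.sum_le_sum fun H hH => ?_)
      rw [Finset.mem_powerset] at hH
      split_ifs with hPH
      · have : B ∈ G H := by
          rw [hG]
          exact ⟨⟨(hη' B H hH).2 hB.1, hP B hB.2 H hH hPH⟩, hB.2⟩
        rw [Set.indicator_of_mem this, mul_one]
      · exact mul_nonneg (hwt H) (Set.indicator_nonneg (fun _ _ => zero_le_one) _)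
    · rw [Set.indicator_of_notMem hB]
      exact Finset.sum_nonneg fun H _ =>
        mul_nonneg (hwt H) (Set.indicator_nonneg (fun _ _ => zero_le_one) _)
  rw [← hsum, hηN, ← mul_assoc] at h3
  exact le_of_mul_le_mul_right h3 hpos

end SigA

end Pool.Agent.H583R2.S2
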