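import Pool.Agent.H583R2.S2.Sig
import Pool.Agent.H583R2.S2.SigA

/-!
# The key lemma for oracles
-/

namespace Pool.Agent.H583R2.S2

open MeasureTheory Pool.Agent.NPC Pool.Agent.H628R3.RO
open M2 SigA

theorem sigma_pair {K : Set (List Bool)} (hK : K.Finite) {F η : Set Oracle} (hF : Loc K F)
    (hη : Loc K η) {ι : Type} (Y : Bool → Finset ι) (hY : Disjoint (Y false) (Y true))
    (cell : ι → Finset Cand)
    (hcell : ∀ i, ∀ y ∈ Y i, ∀ i', ∀ y' ∈ Y i', y ≠ y' → Disjoint (cell y) (cell y'))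
    {m u w t : ℕ} (hm : 1 ≤ m) (hu : ∀ i, ∀ y ∈ Y i, (cell y).card = u) (hw : ∀ i, (Y i).card = w)
    (hδ : (1 - (1 / 2 : ℝ) ^ m) ^ u ≤ 1 / 2)
    (hcK : ∀ i, ∀ y ∈ Y i, ∀ κ ∈ cell y, ∀ l < m, pos κ.1 l κ.2 ∈ K)
    (hη' : ∀ (B : Oracle) (h : Finset Cand), (∀ κ ∈ h, ∃ i, ∃ y ∈ Y i, κ ∈ cell y) →
      (plant (allSpots m h) B ∈ η ↔ B ∈ η))
    (hFQ : ∃ Q : Oracle → Finset Cand, (∀ B, (Q B).card ≤ t) ∧ ∀ B ∈ η, ∀ h : Finset Cand,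
      (∀ κ ∈ h, ∃ i, ∃ y ∈ Y i, κ ∈ cell y) → Disjoint h (Q B) →
      Disjoint h (Q (plant (allSpots m h) B)) → (plant (allSpots m h) B ∈ F ↔ B ∈ F)) :
    (1 - (1 - (1 / 2 : ℝ) ^ m) ^ u) ^ w * ((1 - (1 - (1 - (1 / 2 : ℝ) ^ m) ^ u) ^ w -
      t * (1 - (1 / 2 : ℝ) ^ m) ^ u - 4 * t * (1 / 2 : ℝ) ^ m) * prob η) ≤
      prob (η ∩ {A | ((∀ y ∈ Y false, A ∉ NoHit m (cell y)) ∧
          (∃ y ∈ Y true, A ∈ NoHit m (cell y)) ∧ A ∈ F) ∨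
        ((∃ y ∈ Y false, A ∈ NoHit m (cell y)) ∧
          (∀ y ∈ Y true, A ∉ NoHit m (cell y)) ∧ A ∉ F)}) := by
  classical
  obtain ⟨Q, hQ, hFQ⟩ := hFQ
  have hq0 : (0 : ℝ) < (1 / 2) ^ m := by positivity
  have hq1 : (1 / 2 : ℝ) ^ m ≤ 1 / 2 := by
    calc (1 / 2 : ℝ) ^ m ≤ (1 / 2) ^ 1 := pow_le_pow_of_le_one (by norm_num) (by norm_num) hm
      _ = 1 / 2 := by norm_num
  obtain ⟨U, hU⟩ : ∃ U, U = (Y false).biUnion cell ∪ (Y true).biUnion cell := ⟨_, rfl⟩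
  have hmemU : ∀ κ, κ ∈ U ↔ ∃ i, ∃ y ∈ Y i, κ ∈ cell y := by
    intro κ
    rw [hU, Finset.mem_union, Finset.mem_biUnion, Finset.mem_biUnion, Bool.exists_bool]
  have hcU : ∀ i, ∀ y ∈ Y i, cell y ⊆ U := fun i y hy κ hκ => (hmemU κ).2 ⟨i, y, hy, hκ⟩
  have hT : Loc K {A | ((∀ y ∈ Y false, A ∉ NoHit m (cell y)) ∧
          (∃ y ∈ Y true, A ∈ NoHit m (cell y)) ∧ A ∈ F) ∨
        ((∃ y ∈ Y false, A ∈ NoHit m (cell y)) ∧
          (∀ y ∈ Y true, A ∉ NoHit m (cell y)) ∧ A ∉ F)} := by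
    intro A A' hA
    have h1 : ∀ i, ∀ y ∈ Y i, (A ∈ NoHit m (cell y) ↔ A' ∈ NoHit m (cell y)) := fun i y hy =>
      loc_noHit (fun κ hκ l hl => hcK i y hy κ hκ l hl) A A' hA
    have h2 := hF A A' hA
    have e1 : ∀ i, (∀ y ∈ Y i, A ∉ NoHit m (cell y)) ↔ (∀ y ∈ Y i, A' ∉ NoHit m (cell y)) :=
      fun i => forall₂_congr fun y hy => not_congr (h1 i y hy)
    have e2 : ∀ i, (∃ y ∈ Y i, A ∈ NoHit m (cell y)) ↔ (∃ y ∈ Y i, A' ∈ NoHit m (cell y)) :=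
      fun i => exists_congr fun y => and_congr_right fun hy => h1 i y hy
    simp only [Set.mem_ofPred_eq]
    rw [e1 false, e1 true, e2 false, e2 true, h2]
  rw [← mul_assoc]
  refine average hK hη hT hm U (fun B h hh => hη' B h (fun κ hκ => (hmemU κ).1 (hh hκ)))
    (fun H B => ((∀ y ∈ Y false, ¬ Mkd cell H y) ∧ (∃ y ∈ Y true, Mkd cell H y) ∧
        plant (allSpots m H) B ∈ F) ∨
        ((∃ y ∈ Y false, Mkd cell H y) ∧ (∀ y ∈ Y true, ¬ Mkd cell H y) ∧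
        ¬ plant (allSpots m H) B ∈ F)) ?_ _ ?_
  · intro B hB H hH hPH
    have h1 : ∀ i, ∀ y ∈ Y i, (plant (allSpots m H) B ∈ NoHit m (cell y) ↔ Mkd cell H y) :=
      fun i y hy => noHit_plant hB (hcU i y hy)
    have e1 : ∀ i, (∀ y ∈ Y i, plant (allSpots m H) B ∉ NoHit m (cell y)) ↔
        (∀ y ∈ Y i, ¬ Mkd cell H y) :=
      fun i => forall₂_congr fun y hy => not_congr (h1 i y hy)
    have e2 : ∀ i, (∃ y ∈ Y i, plant (allSpots m H) B ∈ NoHit m (cell y)) ↔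
        (∃ y ∈ Y i, Mkd cell H y) :=
      fun i => exists_congr fun y => and_congr_right fun hy => h1 i y hy
    simp only [Set.mem_ofPred_eq]
    rw [e1 false, e1 true, e2 false, e2 true]
    exact hPH
  · rintro B ⟨hBη, hBN⟩
    refine (sigma_fin Y hY cell hcell hu hw hq0 hq1 hδ U hU (fun H => plant (allSpots m H) B ∈ F)
      (fun H => Q (plant (allSpots m H) B)) (fun H => hQ _) ?_).trans
      (le_of_eq (Finset.sum_congr rfl fun H _ => ?_))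
    swap
    · by_cases hc : ((∀ y ∈ Y false, ¬ Mkd cell H y) ∧ (∃ y ∈ Y true, Mkd cell H y) ∧
        plant (allSpots m H) B ∈ F) ∨
        ((∃ y ∈ Y false, Mkd cell H y) ∧ (∀ y ∈ Y true, ¬ Mkd cell H y) ∧
        ¬ plant (allSpots m H) B ∈ F)
      · rw [if_pos hc, if_pos hc]
      · rw [if_neg hc, if_neg hc]
    intro H hH h hh hd1 hd2
    have h1 : plant (allSpots m H) B ∈ η := (hη' B H (fun κ hκ => (hmemU κ).1 (hH hκ))).2 hBη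
    have h2 := hFQ _ h1 h (fun κ hκ => (hmemU κ).1 (hh hκ)) hd1
    rw [plant_plant'] at h2
    exact h2 hd2

end Pool.Agent.H583R2.S2
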