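import Pool.Agent.H583R2.S2.Defs
import Pool.Agent.H583R2.BK.Stubs

/-! Stubs. Never import this file in a finished file. -/

namespace Pool.Agent.H583R2.S2

open MeasureTheory Pool.Agent.NPC Pool.Agent.H628R3.RO
open Pool.Agent.H583R2.NC (wl rr qq mm uu vv JJ KK BB Data ap ee ll)

/-! ### Task S1 (file `S2/Sig.lean`): the combinatorial lemma -/

/-- no candidate of `H` in the cell -/
def Mkd {ι : Type} (cell : ι → Finset Cand) (H : Finset Cand) (y : ι) : Prop := Disjoint H (cell y)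

open Classical in
theorem sigma_fin {ι : Type} (Y : Bool → Finset ι) (hY : Disjoint (Y false) (Y true))
    (cell : ι → Finset Cand)
    (hcell : ∀ i, ∀ y ∈ Y i, ∀ i', ∀ y' ∈ Y i', y ≠ y' → Disjoint (cell y) (cell y'))
    {u w t : ℕ} (hu : ∀ i, ∀ y ∈ Y i, (cell y).card = u) (hw : ∀ i, (Y i).card = w)
    {q : ℝ} (hq0 : 0 < q) (hq1 : q ≤ 1 / 2) (hδ : (1 - q) ^ u ≤ 1 / 2)
    (U : Finset Cand) (hU : U = (Y false).biUnion cell ∪ (Y true).biUnion cell)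
    (F : Finset Cand → Prop) (Q : Finset Cand → Finset Cand) (hQ : ∀ H, (Q H).card ≤ t)
    (hF : ∀ H ⊆ U, ∀ h ⊆ U, Disjoint h (Q H) → Disjoint h (Q (H ∪ h)) → (F (H ∪ h) ↔ F H)) :
    (1 - (1 - q) ^ u) ^ w * (1 - (1 - (1 - q) ^ u) ^ w - t * (1 - q) ^ u - 4 * t * q) ≤
      ∑ H ∈ U.powerset, if
        ((∀ y ∈ Y false, ¬ Mkd cell H y) ∧ (∃ y ∈ Y true, Mkd cell H y) ∧ F H) ∨
        ((∃ y ∈ Y false, Mkd cell H y) ∧ (∀ y ∈ Y true, ¬ Mkd cell H y) ∧ ¬ F H)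
        then M2.wt q U H else 0 := by sorry

/-! ### Task S2 (file `S2/SigP.lean`, imports S1): the version for oracles -/

theorem sigma_pair {K : Set (List Bool)} (hK : K.Finite) {F η : Set Oracle} (hF : Loc K F)
    (hη : Loc K η) {ι : Type} (Y : Bool → Finset ι) (hY : Disjoint (Y false) (Y true))
    (cell : ι → Finset Cand)
    (hcell : ∀ i, ∀ y ∈ Y i, ∀ i', ∀ y' ∈ Y i', y ≠ y' → Disjoint (cell y) (cell y'))
    {m u w t : ℕ} (hm : 1 ≤ m) (hu : ∀ i, ∀ y ∈ Y i, (cell y).card = u) (hw : ∀ i, (Y i).card = w)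
    (hδ : (1 - (1 / 2 : ℝ) ^ m) ^ u ≤ 1 / 2)
    (hcK : ∀ i, ∀ y ∈ Y i, ∀ κ ∈ cell y, ∀ l < m, pos κ.1 l κ.2 ∈ K)
    (hη' : ∀ (B : Oracle) (h : Finset Cand), (∀ κ ∈ h, ∃ i, ∃ y ∈ Y i, κ ∈ cell y) →
      (plant (allSpots m h) B ∈ η ↔ B ∈ η))
    (hFQ : ∃ Q : Oracle → Finset Cand, (∀ B, (Q B).card ≤ t) ∧ ∀ B ∈ η, ∀ h : Finset Cand,
      (∀ κ ∈ h, ∃ i, ∃ y ∈ Y i, κ ∈ cell y) → Disjoint h (Q B) →
      Disjoint h (Q (plant (allSpots m h) B)) → (plant (allSpots m h) B ∈ F ↔ B ∈ F)) :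
    (1 - (1 - (1 / 2 : ℝ) ^ m) ^ u) ^ w * ((1 - (1 - (1 - (1 / 2 : ℝ) ^ m) ^ u) ^ w -
      t * (1 - (1 / 2 : ℝ) ^ m) ^ u - 4 * t * (1 / 2 : ℝ) ^ m) * prob η) ≤
      prob (η ∩ {A | ((∀ y ∈ Y false, A ∉ NoHit m (cell y)) ∧
          (∃ y ∈ Y true, A ∈ NoHit m (cell y)) ∧ A ∈ F) ∨
        ((∃ y ∈ Y false, A ∈ NoHit m (cell y)) ∧
          (∀ y ∈ Y true, A ∉ NoHit m (cell y)) ∧ A ∉ F)}) := by sorry

/-! ### Task S3 (file `S2/Run.lean`): machines with an `NP` oracle -/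

theorem run_touch (V : Alg) (p : Polynomial ℕ) (M : Alg) : ∃ T : Polynomial ℕ,
    ∃ Q : Oracle → List Bool → Finset (List Bool),
      (∀ A x, (Q A x).card ≤ T.eval x.length) ∧
      ∀ A A' x, (∀ z ∈ Q A x, A z = A' z) → (∀ z ∈ Q A' x, A z = A' z) →
        M.out (KO V p A) x = M.out (KO V p A') x := by sorry

theorem run_local (V : Alg) (p : Polynomial ℕ) (M : Alg) : ∃ T : Polynomial ℕ,
    ∀ A A' x, (∀ z : List Bool, z.length ≤ T.eval x.length → A z = A' z) →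
      M.out (KO V p A) x = M.out (KO V p A') x := by sorry

/-! ### Task S4 (file `S2/Num.lean`): the probability that a slot is zero -/

theorem NN_lt (n : ℕ) : NN n ≤ 4 ^ n := by sorry
theorem card_Ys (n : ℕ) : (Ys n).card = NN n := by sorry
theorem dl_pos (n : ℕ) : 0 < dl n := by sorry
theorem dl_le (n : ℕ) : dl n ≤ (1 / 2 : ℝ) ^ n := by sorry
theorem ap_le_za {n s : ℕ} (hn : 12 ≤ n) (h : s ≤ n) : ap s ≤ za n s := by sorry
theorem za_le_ap {n s : ℕ} (hn : 12 ≤ n) (h : s ≤ n) :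
    za n s ≤ ap s * (1 + 4 * qq s / 2 ^ mm s) := by sorry
theorem za_hi {n : ℕ} (hn : 12 ≤ n) (s : ℕ) : za n s ≤ (2 / 5) ^ qq s := by sorry

/-! ### Task S5 (file `S2/NumB.lean`): numbers of pairs and blocks, for a general probability -/

theorem J_lo' {s : ℕ} (hs : 4 ≤ s) {a : ℝ} (h1 : ap s ≤ a)
    (h2 : a ≤ ap s * (1 + 4 * qq s / 2 ^ mm s)) (h3 : a ≤ (2 / 5) ^ qq s) :
    4 * (rr s : ℝ) ≤ JJ s * a := by sorry
theorem J_hi' {s : ℕ} (hs : 4 ≤ s) {a : ℝ} (h1 : ap s ≤ a)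
    (h2 : a ≤ ap s * (1 + 4 * qq s / 2 ^ mm s)) (h3 : a ≤ (2 / 5) ^ qq s) :
    (JJ s : ℝ) * a ≤ 8 * rr s + 1 := by sorry
theorem bad_hi' {s : ℕ} (hs : 4 ≤ s) {a : ℝ} (h1 : ap s ≤ a)
    (h2 : a ≤ ap s * (1 + 4 * qq s / 2 ^ mm s)) (h3 : a ≤ (2 / 5) ^ qq s) :
    (BB s : ℝ) * (1 - a) ^ KK s ≤ ee s := by sorry
theorem quiet_num' {s : ℕ} (hs : 4 ≤ s) {a : ℝ} (h1 : ap s ≤ a)
    (h2 : a ≤ ap s * (1 + 4 * qq s / 2 ^ mm s)) (h3 : a ≤ (2 / 5) ^ qq s) :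
    (BB s : ℝ) * ((1 - a) ^ KK s + KK s * a * (1 - a) ^ (KK s - 1)) ≤ 1 / 16 := by sorry
theorem two_num' {s : ℕ} (hs : 4 ≤ s) {a : ℝ} (h1 : ap s ≤ a)
    (h2 : a ≤ ap s * (1 + 4 * qq s / 2 ^ mm s)) (h3 : a ≤ (2 / 5) ^ qq s) :
    (JJ s : ℝ) * a ^ 2 ≤ 10 := by sorry
theorem ll_num' {s : ℕ} (hs : 4 ≤ s) {a : ℝ} (h1 : ap s ≤ a)
    (h2 : a ≤ ap s * (1 + 4 * qq s / 2 ^ mm s)) (h3 : a ≤ (2 / 5) ^ qq s) :
    ll s ≤ JJ s * a / (1 - a) * (1 / 2 * (BB s * (1 - a) ^ KK s)) := by sorry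

/-! ### Task S6 (file `S2/Loc.lean`): locality, the system -/

theorem mem_gc {n g : ℕ} {y : List Bool} {κ : Cand} : κ ∈ gc n g y ↔
    g * n ≤ κ.1 ∧ κ.1 < (g + 1) * n ∧ ∃ z : List Bool, z.length = wl n ∧ κ.2 = y ++ z := by sorry
theorem mem_Ys {n : ℕ} {y : List Bool} : y ∈ Ys n ↔ y.length = 2 * n ∧ valB y < NN n := by sorry
theorem card_gc (n g : ℕ) (y : List Bool) : (gc n g y).card = n * 2 ^ wl n := by sorry
theorem gc_disjoint {n g g' : ℕ} {y y' : List Bool} (hy : y.length = y'.length)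
    (h : (g, y) ≠ (g', y')) : Disjoint (gc n g y) (gc n g' y') := by sorry
theorem prs_disjoint {n s b i b' i' : ℕ} (hi : i < KK s) (hi' : i' < KK s)
    (h : b ≠ b' ∨ i ≠ i') : Disjoint (prs n s b i) (prs n s b' i') := by sorry
theorem loc_Zero (n s b i : ℕ) : Loc (sp n s b i) (Zero n s b i) := by sorry
theorem prob_Mk (n g : ℕ) (y : List Bool) : prob (Mk n g y) = dl n := by sorry
theorem lt_length_sp {n s b i : ℕ} : ∀ x ∈ sp n s b i, n < x.length := by sorry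
theorem length_sp : ∃ P : Polynomial ℕ, ∀ n s b i, s ≤ n → b < BB s → i < KK s →
    ∀ x ∈ sp n s b i, x.length ≤ P.eval n := by sorry
theorem sys_S2 {n s : ℕ} (hn : 12 ≤ n) (hs : 4 ≤ s) (hsn : s ≤ n) :
    BK.Sys (Zero n s) (sp n s) (za n s) (BB s) (JJ s) := by sorry
/-- planting hits in other slots does not change the slot -/
theorem plant_Zero {n s b i : ℕ} {h : Finset Cand}
    (hd : ∀ κ ∈ h, ∀ x ∈ prs n s b i, κ ∉ gc n x.1 x.2) (A : Oracle) :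
    plant (allSpots (wl n) h) A ∈ Zero n s b i ↔ A ∈ Zero n s b i := by sorry
theorem plant_eta {n s b j : ℕ} (hb : b < BB s) (hj : j < JJ s) {t : ℕ} (ht : t ≤ n)
    {η : Set Oracle} (hη : Loc {x | x.length ≤ t} η) {h : Finset Cand}
    (hh : ∀ κ ∈ h, ∃ x ∈ prs n s b (2 * j) ∪ prs n s b (2 * j + 1), κ ∈ gc n x.1 x.2)
    (A : Oracle) : plant (allSpots (wl n) h) A ∈ η ∩ (BK.Quiet (Zero n s) (BB s) (JJ s) b ∩
      Others n s b j) ↔ A ∈ η ∩ (BK.Quiet (Zero n s) (BB s) (JJ s) b ∩ Others n s b j) := by sorry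
theorem loc_eta {n s b j t : ℕ} (hb : b < BB s) (hj : j < JJ s)
    {η : Set Oracle} (hη : Loc {x | x.length ≤ t} η) :
    Loc ({x | x.length ≤ t} ∪ {z | ∃ b' < BB s, ∃ i < KK s, z ∈ sp n s b' i})
      (η ∩ (BK.Quiet (Zero n s) (BB s) (JJ s) b ∩ Others n s b j)) := by sorry

/-! ### Task S7 (file `S2/Inst.lean`): instances -/

theorem inst_length : ∃ P : Polynomial ℕ, ∀ n s b j A, s ≤ n → b < BB s → j < JJ s →
    (inst n s b j A).length ≤ P.eval n := by sorry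
theorem inst_plant {n s b j : ℕ} (hb : b < BB s) (hj : j < JJ s) {h : Finset Cand}
    (hh : ∀ κ ∈ h, ∃ x ∈ prs n s b (2 * j) ∪ prs n s b (2 * j + 1), κ ∈ gc n x.1 x.2)
    (A : Oracle) : inst n s b j (plant (allSpots (wl n) h) A) = inst n s b j A := by sorry
theorem inst_congr {n s b j : ℕ} {A A' : Oracle}
    (h : ∀ i < KK s, ∀ x ∈ sp n s b i, A x = A' x) : inst n s b j A = inst n s b j A' := by sorry
theorem inst_cert {n s b j : ℕ} (hb : b < BB s) (hj : j < JJ s) {A : Oracle}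
    (hA : A ∈ Others n s b j) : Cert A s (instD n s b j A) := by sorry

/-! ### Task S8 (file `S2/MemK.lean`): the oracle is in `NP` -/

theorem isNP_HitK (A : Oracle) : IsNP A (HitK A) := by sorry
/-- complementing the oracle -/
theorem isFP_not {A : Oracle} {F : List Bool → List Bool} (h : IsFP (fun u => !A u) F) :
    IsFP A F := by sorry

/-! ### Task S9 (file `S2/Par.lean`): the number of strings is computable -/

theorem p_NN {α : Type} [TEnc α] {n : α → ℕ} (hn : UPoly n) : Poly (fun a => NN (n a)) := by sorry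

/-! ### Task S10 (file `S2/Mem.lean`, imports S8, S9): membership -/

theorem isNP_LL (A : Oracle) (f : ℕ → Option ℕ) (hf : Poly (fun x : List Unit => f x.length))
    (hfn : ∀ n s, f n = some s → s ≤ n) : IsNP (chr (HitK A)) (LL f A) := by sorry
theorem isCoNP_LL (A : Oracle) (f : ℕ → Option ℕ) (hf : Poly (fun x : List Unit => f x.length))
    (hfn : ∀ n s, f n = some s → s ≤ n) (hA : ∀ n s, f n = some s → A ∉ Inv n s) :
    IsCoNP (chr (HitK A)) (LL f A) := by sorry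

/-! ### Task S11 (file `S2/LocG.lean`, imports S3, S6, S7) -/

theorem loc_GoodS (V : Alg) (p : Polynomial ℕ) (M : Alg) : ∃ b : Polynomial ℕ, ∀ n s, s ≤ n →
    Loc {x | x.length ≤ b.eval (2 ^ n)} (GoodS V p M n s) := by sorry

/-! ### Task S12 (file `S2/Key.lean`, imports S2, S3, S5, S6, S7, S11, BK.Key) -/

theorem key_S (V : Alg) (p : Polynomial ℕ) (M : Alg) : ∃ n0, ∀ n ≥ n0, ∀ s, 4 ≤ s → s ≤ n →
    ∀ t < n, ∀ η : Set Oracle, Loc {x | x.length ≤ t} η →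
      ll s * (7 / 8 * prob η) ≤ prob (η ∩ (GoodS V p M n s)ᶜ) := by sorry

/-! ### Task S13 (file `S2/Main.lean`) -/

theorem sigma_main : ∀ᵐ A ∂randomOracle, ∃ L : Set (List Bool),
    IsSigma2 A L ∧ IsPi2 A L ∧ ¬ IsDelta2 A L := by sorry

end Pool.Agent.H583R2.S2
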